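import Mathlib

/-! Weak Brun–Titchmarsh via Selberg's sieve (tool T2 for MP_70e45f_nt). -/

open Finset Real
open scoped ArithmeticFunction.Moebius

namespace Pool.Agent.H86.BtWeak

noncomputable section

/-- squarefree numbers in `[1,R]`. -/
def S (R : ℕ) : Finset ℕ := (Finset.Icc 1 R).filter Squarefree

theorem mem_S {R d : ℕ} : d ∈ S R ↔ (1 ≤ d ∧ d ≤ R) ∧ Squarefree d := by
  simp [S]

theorem S_dvd {R d e : ℕ} (hd : d ∈ S R) (he : e ∣ d) : e ∈ S R := by
  rw [mem_S] at *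
  have h1 : 0 < d := hd.1.1
  have h2 : e ≤ d := Nat.le_of_dvd h1 he
  refine ⟨⟨Nat.pos_of_dvd_of_pos he h1, h2.trans hd.1.2⟩, hd.2.squarefree_of_dvd he⟩

def G (R : ℕ) : ℝ := ∑ l ∈ S R, 1 / (Nat.totient l : ℝ)

/-- Selberg weights. -/
def lam (R d : ℕ) : ℝ :=
  (μ d : ℝ) * d / G R * ∑ l ∈ (S R).filter (d ∣ ·), 1 / (Nat.totient l : ℝ)

theorem one_mem_S {R : ℕ} (hR : 1 ≤ R) : 1 ∈ S R := by
  rw [mem_S]; exact ⟨⟨le_refl _, hR⟩, squarefree_one⟩

theorem G_pos {R : ℕ} (hR : 1 ≤ R) : 0 < G R := by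
  unfold G
  apply Finset.sum_pos
  · intro l hl
    have := (mem_S.1 hl).1.1
    have h2 : 0 < Nat.totient l := Nat.totient_pos.2 this
    positivity
  · exact ⟨1, one_mem_S hR⟩

theorem lam_one {R : ℕ} (hR : 1 ≤ R) : lam R 1 = 1 := by
  have := (G_pos hR).ne'
  unfold lam
  simp only [ArithmeticFunction.moebius_apply_one, Int.cast_one, Nat.cast_one, mul_one, one_dvd,
    Finset.filter_true]
  change 1 / G R * G R = 1
  field_simp

theorem abs_lam_le {R : ℕ} (hR : 1 ≤ R) (d : ℕ) : |lam R d| ≤ d := by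
  have hG := G_pos hR
  have h1 : ∑ l ∈ (S R).filter (d ∣ ·), 1 / (Nat.totient l : ℝ) ≤ G R := by
    unfold G
    apply Finset.sum_le_sum_of_subset_of_nonneg (Finset.filter_subset _ _)
    intros; positivity
  have h0 : 0 ≤ ∑ l ∈ (S R).filter (d ∣ ·), 1 / (Nat.totient l : ℝ) := by positivity
  unfold lam
  have h2 : |(μ d : ℝ)| ≤ 1 := by
    have := ArithmeticFunction.abs_moebius_le_one (n := d)
    exact_mod_cast this
  rw [abs_mul, abs_div, abs_mul, abs_of_nonneg h0, abs_of_pos hG, Nat.abs_cast]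
  calc |(μ d : ℝ)| * d / G R * ∑ l ∈ (S R).filter (d ∣ ·), 1 / (Nat.totient l : ℝ)
      ≤ 1 * d / G R * G R := by gcongr
    _ = d := by field_simp

/-- `∑_{l ∣ d ∣ m} μ d = μ l [m = l]` for squarefree `m`. -/
theorem sum_moebius_between {R l m : ℕ} (hm : m ∈ S R) (hl : l ∣ m) :
    ∑ d ∈ (S R).filter (fun d => l ∣ d ∧ d ∣ m), (μ d : ℝ) = if m = l then (μ l : ℝ) else 0 := by
  obtain ⟨k, rfl⟩ := hl
  have hm' := mem_S.1 hm
  have hpos : 0 < l * k := hm'.1.1
  have hl0 : 0 < l := Nat.pos_of_mul_pos_right hpos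
  have hk0 : 0 < k := Nat.pos_of_mul_pos_left hpos
  have hcop : Nat.Coprime l k := Nat.coprime_of_squarefree_mul hm'.2
  have e1 : (S R).filter (fun d => l ∣ d ∧ d ∣ l * k) = (k.divisors).image (fun e => l * e) := by
    ext d
    simp only [Finset.mem_filter, Finset.mem_image, Nat.mem_divisors]
    constructor
    · rintro ⟨hd, ⟨e, rfl⟩, hdk⟩
      refine ⟨e, ⟨(Nat.mul_dvd_mul_iff_left hl0).1 hdk, hk0.ne'⟩, rfl⟩
    · rintro ⟨e, ⟨he, -⟩, rfl⟩
      have : l * e ∣ l * k := Nat.mul_dvd_mul_left _ he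
      exact ⟨S_dvd hm this, Nat.dvd_mul_right _ _, this⟩
  rw [e1, Finset.sum_image]
  · have e2 : ∀ e ∈ k.divisors, (μ (l * e) : ℝ) = (μ l : ℝ) * (μ e : ℝ) := by
      intro e he
      have he' := (Nat.mem_divisors.1 he).1
      have hc : Nat.Coprime l e := Nat.Coprime.coprime_dvd_right he' hcop
      rw [ArithmeticFunction.isMultiplicative_moebius.map_mul_of_coprime hc]
      push_cast; ring
    rw [Finset.sum_congr rfl e2, ← Finset.mul_sum]
    have e3 : ∑ e ∈ k.divisors, (μ e : ℝ) = if k = 1 then 1 else 0 := by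
      have h : (μ * (ArithmeticFunction.zeta : ArithmeticFunction ℤ) : ArithmeticFunction ℤ) k =
          (1 : ArithmeticFunction ℤ) k := by rw [ArithmeticFunction.moebius_mul_coe_zeta]
      rw [ArithmeticFunction.coe_mul_zeta_apply, ArithmeticFunction.one_apply] at h
      have h2 : ((∑ e ∈ k.divisors, μ e : ℤ) : ℝ) = ((if k = 1 then 1 else 0 : ℤ) : ℝ) := by
        rw [← h]
      push_cast at h2
      exact h2
    rw [e3]
    by_cases hk : k = 1
    · simp [hk]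
    · have : ¬ (l * k = l) := by
        intro h
        apply hk
        have : l * k = l * 1 := by omega
        exact Nat.eq_of_mul_eq_mul_left hl0 this
      simp [hk, this]
  · intro a _ b _ h
    exact Nat.eq_of_mul_eq_mul_left hl0 h

/-- The diagonalised sums. -/
theorem diag {R l : ℕ} (hl : l ∈ S R) :
    ∑ d ∈ (S R).filter (l ∣ ·), lam R d / d = (μ l : ℝ) / (Nat.totient l * G R) := by
  have hG := G_pos (R := R) ((mem_S.1 hl).1.1.trans (mem_S.1 hl).1.2)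
  have h1 : ∀ d ∈ (S R).filter (l ∣ ·), lam R d / d =
      ∑ m ∈ S R, if d ∣ m then (μ d : ℝ) * (1 / G R * (1 / (Nat.totient m : ℝ))) else 0 := by
    intro d hd
    have hd' := (Finset.mem_filter.1 hd).1
    have : (d : ℝ) ≠ 0 := by
      have := (mem_S.1 hd').1.1
      positivity
    unfold lam
    rw [← Finset.sum_filter, ← Finset.mul_sum, ← Finset.mul_sum]
    field_simp
  rw [Finset.sum_congr rfl h1, Finset.sum_comm]
  have h2 : ∀ m ∈ S R, (∑ d ∈ (S R).filter (l ∣ ·),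
      if d ∣ m then (μ d : ℝ) * (1 / G R * (1 / (Nat.totient m : ℝ))) else 0) =
      if m = l then (μ l : ℝ) * (1 / G R * (1 / (Nat.totient m : ℝ))) else 0 := by
    intro m hm
    rw [← Finset.sum_filter, Finset.filter_filter, ← Finset.sum_mul]
    by_cases hlm : l ∣ m
    · rw [sum_moebius_between hm hlm]
      split_ifs <;> simp
    · have e : (S R).filter (fun d => l ∣ d ∧ d ∣ m) = ∅ := by
        rw [Finset.filter_eq_empty_iff]
        rintro d - ⟨h, h'⟩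
        exact hlm (h.trans h')
      have : m ≠ l := by rintro rfl; exact hlm dvd_rfl
      rw [e]; simp [this]
  rw [Finset.sum_congr rfl h2, Finset.sum_ite_eq' (S R) l, if_pos hl]
  have : (Nat.totient l : ℝ) ≠ 0 := by
    have := Nat.totient_pos.2 (mem_S.1 hl).1.1
    positivity
  field_simp

/-- The quadratic form. -/
theorem quad {R : ℕ} (hR : 1 ≤ R) :
    ∑ d₁ ∈ S R, ∑ d₂ ∈ S R, lam R d₁ * lam R d₂ / (Nat.lcm d₁ d₂ : ℝ) = 1 / G R := by
  have hG := G_pos hR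
  have h1 : ∀ d₁ ∈ S R, ∀ d₂ ∈ S R, lam R d₁ * lam R d₂ / (Nat.lcm d₁ d₂ : ℝ) =
      ∑ l ∈ S R, if l ∣ d₁ ∧ l ∣ d₂ then
        (Nat.totient l : ℝ) * ((lam R d₁ / d₁) * (lam R d₂ / d₂)) else 0 := by
    intro d₁ h₁ d₂ h₂
    have p1 : (d₁ : ℝ) ≠ 0 := by
      have := (mem_S.1 h₁).1.1; positivity
    have p2 : (d₂ : ℝ) ≠ 0 := by
      have := (mem_S.1 h₂).1.1; positivity
    rw [← Finset.sum_filter, ← Finset.sum_mul]
    have e1 : (S R).filter (fun l => l ∣ d₁ ∧ l ∣ d₂) = (Nat.gcd d₁ d₂).divisors := by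
      ext l
      simp only [Finset.mem_filter, Nat.mem_divisors, Nat.dvd_gcd_iff]
      constructor
      · rintro ⟨-, h⟩
        refine ⟨h, ?_⟩
        exact (Nat.gcd_pos_of_pos_left _ (mem_S.1 h₁).1.1).ne'
      · rintro ⟨h, -⟩
        exact ⟨S_dvd h₁ h.1, h⟩
    rw [e1]
    have e2 : (∑ l ∈ (Nat.gcd d₁ d₂).divisors, (Nat.totient l : ℝ)) = (Nat.gcd d₁ d₂ : ℝ) := by
      exact_mod_cast Nat.sum_totient (Nat.gcd d₁ d₂)
    rw [e2]
    have e3 : (Nat.gcd d₁ d₂ : ℝ) * (Nat.lcm d₁ d₂ : ℝ) = (d₁ : ℝ) * d₂ := by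
      exact_mod_cast Nat.gcd_mul_lcm d₁ d₂
    have p3 : (Nat.lcm d₁ d₂ : ℝ) ≠ 0 := by
      intro h; rw [h, mul_zero] at e3
      exact (mul_ne_zero p1 p2) e3.symm
    field_simp
    linear_combination (-(lam R d₁ * lam R d₂)) * e3
  have h2 : ∑ d₁ ∈ S R, ∑ d₂ ∈ S R, lam R d₁ * lam R d₂ / (Nat.lcm d₁ d₂ : ℝ) =
      ∑ l ∈ S R, (Nat.totient l : ℝ) * (∑ d ∈ (S R).filter (l ∣ ·), lam R d / d) ^ 2 := by
    rw [Finset.sum_congr rfl (fun d₁ h₁ => Finset.sum_congr rfl (h1 d₁ h₁))]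
    rw [Finset.sum_congr rfl (fun d₁ _ => Finset.sum_comm), Finset.sum_comm]
    refine Finset.sum_congr rfl fun l _ => ?_
    rw [sq, Finset.sum_mul_sum, Finset.mul_sum, Finset.sum_filter]
    refine Finset.sum_congr rfl fun d₁ _ => ?_
    by_cases h : l ∣ d₁
    · simp only [h, true_and, if_true]
      rw [Finset.mul_sum, Finset.sum_filter]
    · simp [h]
  rw [h2]
  have h3 : ∀ l ∈ S R, (Nat.totient l : ℝ) * (∑ d ∈ (S R).filter (l ∣ ·), lam R d / d) ^ 2 =
      1 / G R ^ 2 * (1 / (Nat.totient l : ℝ)) := by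
    intro l hl
    rw [diag hl]
    have : (Nat.totient l : ℝ) ≠ 0 := by
      have := Nat.totient_pos.2 (mem_S.1 hl).1.1
      positivity
    have hmu : (μ l : ℝ) ^ 2 = 1 := by
      exact_mod_cast ArithmeticFunction.moebius_sq_eq_one_of_squarefree (mem_S.1 hl).2
    rw [div_pow, hmu]
    field_simp
  rw [Finset.sum_congr rfl h3, ← Finset.mul_sum]
  change 1 / G R ^ 2 * G R = 1 / G R
  field_simp

theorem card_mult (u h m : ℕ) (hm : 0 < m) :
    |(((Finset.Ioc u (u + h)).filter (m ∣ ·)).card : ℝ) - h / m| ≤ 1 := by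
  have h1 := Nat.Ioc_filter_dvd_card_eq_div (u + h) m
  have h2 := Nat.Ioc_filter_dvd_card_eq_div u m
  have h3 : (Finset.Ioc 0 (u + h)).filter (m ∣ ·) =
      (Finset.Ioc 0 u).filter (m ∣ ·) ∪ (Finset.Ioc u (u + h)).filter (m ∣ ·) := by
    rw [← Finset.filter_union, Finset.Ioc_union_Ioc_eq_Ioc (Nat.zero_le _) (Nat.le_add_right _ _)]
  have h4 : Disjoint ((Finset.Ioc 0 u).filter (m ∣ ·)) ((Finset.Ioc u (u + h)).filter (m ∣ ·)) := by
    apply Finset.disjoint_filter_filter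
    rw [Finset.disjoint_left]
    intro a ha hb
    simp only [Finset.mem_Ioc] at ha hb
    omega
  rw [h3, Finset.card_union_of_disjoint h4, h2] at h1
  have h5 : (((Finset.Ioc u (u + h)).filter (m ∣ ·)).card : ℝ) = ((u + h) / m : ℕ) - (u / m : ℕ) := by
    have : (((Finset.Ioc u (u + h)).filter (m ∣ ·)).card : ℤ) = ((u + h) / m : ℕ) - (u / m : ℕ) := by
      omega
    exact_mod_cast this
  rw [h5]
  have hm' : (0 : ℝ) < m := by exact_mod_cast hm
  have a1 : (((u + h) / m : ℕ) : ℝ) ≤ (u + h : ℕ) / m := Nat.cast_div_le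
  have a2 : (((u) / m : ℕ) : ℝ) ≤ (u : ℕ) / m := Nat.cast_div_le
  have a3 : ((u + h : ℕ) : ℝ) / m < ((u + h) / m : ℕ) + 1 := by
    rw [div_lt_iff₀ hm']
    have : u + h < ((u + h) / m + 1) * m := Nat.lt_mul_of_div_lt (Nat.lt_succ_self _) hm
    exact_mod_cast this
  have a4 : ((u : ℕ) : ℝ) / m < (u / m : ℕ) + 1 := by
    rw [div_lt_iff₀ hm']
    have : u < (u / m + 1) * m := Nat.lt_mul_of_div_lt (Nat.lt_succ_self _) hm
    exact_mod_cast this
  have a5 : ((u + h : ℕ) : ℝ) / m = (u : ℝ) / m + h / m := by push_cast; ring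
  rw [abs_le]
  constructor <;> linarith

/-- Selberg's upper bound for primes in a short interval, with explicit crude error. -/
theorem primes_le {R : ℕ} (hR : 1 ≤ R) (u h : ℕ) :
    (((Finset.Ioc u (u + h)).filter Nat.Prime).card : ℝ) ≤ R + h / G R + (R : ℝ) ^ 4 := by
  classical
  set I := Finset.Ioc u (u + h) with hI
  -- split off primes `≤ R`
  have hsplit : (I.filter Nat.Prime).card ≤ R + (I.filter (fun n => Nat.Prime n ∧ R < n)).card := by
    have e : I.filter Nat.Prime ⊆ (Finset.Icc 1 R) ∪ I.filter (fun n => Nat.Prime n ∧ R < n) := by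
      intro n hn
      simp only [Finset.mem_filter, Finset.mem_union, Finset.mem_Icc] at hn ⊢
      by_cases hnR : n ≤ R
      · left; exact ⟨hn.2.one_le, hnR⟩
      · right; exact ⟨hn.1, hn.2, by omega⟩
    calc _ ≤ _ := Finset.card_le_card e
      _ ≤ _ := Finset.card_union_le _ _
      _ = _ := by simp
  have hnn : ∀ n, 0 ≤ (∑ d ∈ (S R).filter (· ∣ n), lam R d) ^ 2 := fun n => sq_nonneg _
  have h1 : ((I.filter (fun n => Nat.Prime n ∧ R < n)).card : ℝ) ≤
      ∑ n ∈ I, (∑ d ∈ (S R).filter (· ∣ n), lam R d) ^ 2 := by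
    rw [Finset.card_eq_sum_ones, Nat.cast_sum]
    calc ∑ n ∈ I.filter (fun n => Nat.Prime n ∧ R < n), ((1 : ℕ) : ℝ)
        ≤ ∑ n ∈ I.filter (fun n => Nat.Prime n ∧ R < n), (∑ d ∈ (S R).filter (· ∣ n), lam R d) ^ 2 := by
          apply Finset.sum_le_sum
          intro n hn
          simp only [Finset.mem_filter] at hn
          have e : (S R).filter (· ∣ n) = {1} := by
            ext d
            simp only [Finset.mem_filter, Finset.mem_singleton]
            constructor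
            · rintro ⟨hd, hdn⟩
              rcases (Nat.dvd_prime hn.2.1).1 hdn with h | h
              · exact h
              · exfalso
                have := (mem_S.1 hd).1.2
                omega
            · rintro rfl
              exact ⟨one_mem_S hR, one_dvd _⟩
          rw [e, Finset.sum_singleton, lam_one hR]
          norm_num
      _ ≤ ∑ n ∈ I, (∑ d ∈ (S R).filter (· ∣ n), lam R d) ^ 2 :=
          Finset.sum_le_sum_of_subset_of_nonneg (Finset.filter_subset _ _) (fun n _ _ => hnn n)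
  have h2 : ∑ n ∈ I, (∑ d ∈ (S R).filter (· ∣ n), lam R d) ^ 2 =
      ∑ d₁ ∈ S R, ∑ d₂ ∈ S R, lam R d₁ * lam R d₂ *
        ((I.filter (Nat.lcm d₁ d₂ ∣ ·)).card : ℝ) := by
    have : ∀ n ∈ I, (∑ d ∈ (S R).filter (· ∣ n), lam R d) ^ 2 =
        ∑ d₁ ∈ S R, ∑ d₂ ∈ S R, if Nat.lcm d₁ d₂ ∣ n then lam R d₁ * lam R d₂ else 0 := by
      intro n _
      rw [sq, Finset.sum_mul_sum, Finset.sum_filter]
      refine Finset.sum_congr rfl fun d₁ _ => ?_
      by_cases hd : d₁ ∣ n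
      · simp only [hd, if_true, Nat.lcm_dvd_iff, true_and]
        rw [Finset.sum_filter]
      · simp [hd, Nat.lcm_dvd_iff]
    rw [Finset.sum_congr rfl this, Finset.sum_comm]
    refine Finset.sum_congr rfl fun d₁ _ => ?_
    rw [Finset.sum_comm]
    refine Finset.sum_congr rfl fun d₂ _ => ?_
    rw [← Finset.sum_filter, Finset.sum_const, nsmul_eq_mul]
    ring
  have h3 : ∑ d₁ ∈ S R, ∑ d₂ ∈ S R, lam R d₁ * lam R d₂ *
        ((I.filter (Nat.lcm d₁ d₂ ∣ ·)).card : ℝ) ≤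
      ∑ d₁ ∈ S R, ∑ d₂ ∈ S R, (h * (lam R d₁ * lam R d₂ / (Nat.lcm d₁ d₂ : ℝ)) + |lam R d₁| * |lam R d₂|) := by
    refine Finset.sum_le_sum fun d₁ hd₁ => Finset.sum_le_sum fun d₂ hd₂ => ?_
    have hpos : 0 < Nat.lcm d₁ d₂ := Nat.lcm_pos (mem_S.1 hd₁).1.1 (mem_S.1 hd₂).1.1
    have hc := card_mult u h _ hpos
    have e : lam R d₁ * lam R d₂ * ((I.filter (Nat.lcm d₁ d₂ ∣ ·)).card : ℝ) =
        h * (lam R d₁ * lam R d₂ / (Nat.lcm d₁ d₂ : ℝ)) +
          (lam R d₁ * lam R d₂) * (((I.filter (Nat.lcm d₁ d₂ ∣ ·)).card : ℝ) - h / (Nat.lcm d₁ d₂ : ℝ)) := by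
      ring
    rw [e]
    have : (lam R d₁ * lam R d₂) * (((I.filter (Nat.lcm d₁ d₂ ∣ ·)).card : ℝ) - h / (Nat.lcm d₁ d₂ : ℝ))
        ≤ |lam R d₁| * |lam R d₂| := by
      calc _ ≤ |(lam R d₁ * lam R d₂) *
            (((I.filter (Nat.lcm d₁ d₂ ∣ ·)).card : ℝ) - h / (Nat.lcm d₁ d₂ : ℝ))| := le_abs_self _
        _ = |lam R d₁| * |lam R d₂| *
            |(((I.filter (Nat.lcm d₁ d₂ ∣ ·)).card : ℝ) - h / (Nat.lcm d₁ d₂ : ℝ))| := by
            rw [abs_mul, abs_mul]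
        _ ≤ |lam R d₁| * |lam R d₂| * 1 := by
            gcongr
        _ = _ := mul_one _
    linarith
  have h4 : ∑ d₁ ∈ S R, ∑ d₂ ∈ S R, (h * (lam R d₁ * lam R d₂ / (Nat.lcm d₁ d₂ : ℝ)) + |lam R d₁| * |lam R d₂|) =
      h * (1 / G R) + (∑ d ∈ S R, |lam R d|) ^ 2 := by
    simp_rw [Finset.sum_add_distrib, ← Finset.mul_sum]
    rw [quad hR, sq, Finset.sum_mul]
  have h5 : ∑ d ∈ S R, |lam R d| ≤ (R : ℝ) ^ 2 := by
    calc ∑ d ∈ S R, |lam R d| ≤ ∑ d ∈ S R, (R : ℝ) := by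
          refine Finset.sum_le_sum fun d hd => (abs_lam_le hR d).trans ?_
          exact_mod_cast (mem_S.1 hd).1.2
      _ = (S R).card * R := by rw [Finset.sum_const, nsmul_eq_mul]
      _ ≤ R * R := by
          gcongr
          unfold S
          calc _ ≤ _ := Finset.card_filter_le _ _
            _ = R := by simp
      _ = (R : ℝ) ^ 2 := by ring
  have h6 : (∑ d ∈ S R, |lam R d|) ^ 2 ≤ (R : ℝ) ^ 4 := by
    have h0 : 0 ≤ ∑ d ∈ S R, |lam R d| := by positivity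
    calc (∑ d ∈ S R, |lam R d|) ^ 2 ≤ ((R : ℝ) ^ 2) ^ 2 := by gcongr
      _ = _ := by ring
  have h7 : ((I.filter Nat.Prime).card : ℝ) ≤
      R + ((I.filter (fun n => Nat.Prime n ∧ R < n)).card : ℝ) := by exact_mod_cast hsplit
  have h8 : (h : ℝ) * (1 / G R) = h / G R := by ring
  linarith

/-- Lower bound for `G`. -/
theorem G_ge {R : ℕ} (hR : 1 ≤ R) : Real.log (R + 1) / 2 ≤ G R := by
  have h1 : Real.log (R + 1) ≤ ∑ n ∈ Finset.Icc 1 R, 1 / (n : ℝ) := by
    have := log_add_one_le_harmonic R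
    rw [harmonic_eq_sum_Icc] at this
    push_cast at this
    simpa [one_div] using this
  have h2 : ∑ n ∈ Finset.Icc 1 R, 1 / (n : ℝ) ≤
      (∑ l ∈ S R, 1 / (l : ℝ)) * ∑ k ∈ Finset.Icc 1 R, 1 / (k : ℝ) ^ 2 := by
    rw [Finset.sum_mul_sum, ← Finset.sum_product']
    have hmap : ∀ n ∈ Finset.Icc 1 R, ∃ p ∈ (S R) ×ˢ (Finset.Icc 1 R), p.1 * p.2 ^ 2 = n := by
      intro n hn
      rw [Finset.mem_Icc] at hn
      obtain ⟨a, b, hab, ha⟩ := Nat.sq_mul_squarefree n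
      have hb0 : b ≠ 0 := by rintro rfl; simp at hab; omega
      have ha0 : a ≠ 0 := ha.ne_zero
      have h1 : a ≤ n := by
        calc a = 1 * a := (one_mul a).symm
          _ ≤ b ^ 2 * a := Nat.mul_le_mul_right _ (Nat.one_le_pow _ _ (Nat.pos_of_ne_zero hb0))
          _ = n := hab
      have h2 : b ≤ n := by
        calc b ≤ b ^ 2 := Nat.le_self_pow two_ne_zero b
          _ = b ^ 2 * 1 := (mul_one _).symm
          _ ≤ b ^ 2 * a := Nat.mul_le_mul_left _ (Nat.pos_of_ne_zero ha0)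
          _ = n := hab
      refine ⟨(a, b), ?_, ?_⟩
      · rw [Finset.mem_product, mem_S, Finset.mem_Icc]
        exact ⟨⟨⟨Nat.pos_of_ne_zero ha0, by omega⟩, ha⟩, Nat.pos_of_ne_zero hb0, by omega⟩
      · simp only; rw [mul_comm]; exact hab
    have hsub : Finset.Icc 1 R ⊆ ((S R) ×ˢ (Finset.Icc 1 R)).image (fun p : ℕ × ℕ => p.1 * p.2 ^ 2) := by
      intro n hn
      obtain ⟨p, hp, hpn⟩ := hmap n hn
      exact Finset.mem_image.2 ⟨p, hp, hpn⟩
    calc ∑ n ∈ Finset.Icc 1 R, 1 / (n : ℝ)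
        ≤ ∑ n ∈ ((S R) ×ˢ (Finset.Icc 1 R)).image (fun p : ℕ × ℕ => p.1 * p.2 ^ 2), 1 / (n : ℝ) :=
          Finset.sum_le_sum_of_subset_of_nonneg hsub (fun _ _ _ => by positivity)
      _ ≤ ∑ p ∈ (S R) ×ˢ (Finset.Icc 1 R), (fun n : ℕ => 1 / (n : ℝ)) (p.1 * p.2 ^ 2) := by
          apply Finset.sum_image_le_of_nonneg (f := fun n : ℕ => 1 / (n : ℝ))
            (g := fun p : ℕ × ℕ => p.1 * p.2 ^ 2)
          intro p _; positivity
      _ = _ := by
          refine Finset.sum_congr rfl fun p _ => ?_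
          simp only
          push_cast
          rw [div_mul_div_comm, one_mul]
  have h3 : ∑ k ∈ Finset.Icc 1 R, 1 / (k : ℝ) ^ 2 ≤ 2 := by
    have key : ∀ n : ℕ, 1 ≤ n → ∑ k ∈ Finset.Icc 1 n, 1 / (k : ℝ) ^ 2 ≤ 2 - 1 / (n : ℝ) := by
      intro n hn
      induction n, hn using Nat.le_induction with
      | base => norm_num
      | succ n hn ih =>
        rw [Finset.sum_Icc_succ_top (by omega)]
        have hn' : (0 : ℝ) < n := by exact_mod_cast hn
        have : 1 / ((n + 1 : ℕ) : ℝ) ^ 2 ≤ 1 / n - 1 / ((n + 1 : ℕ) : ℝ) := by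
          push_cast
          rw [div_sub_div _ _ hn'.ne' (by positivity), div_le_div_iff₀ (by positivity) (by positivity)]
          nlinarith
        linarith
    have := key R hR
    have h0 : 0 ≤ 1 / (R : ℝ) := by positivity
    linarith
  have h4 : ∑ l ∈ S R, 1 / (l : ℝ) ≤ G R := by
    refine Finset.sum_le_sum fun l hl => ?_
    have h0 := Nat.totient_pos.2 (mem_S.1 hl).1.1
    apply one_div_le_one_div_of_le
    · exact_mod_cast h0
    · exact_mod_cast Nat.totient_le l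
  have h5 : 0 ≤ ∑ l ∈ S R, 1 / (l : ℝ) := by positivity
  have h6 : (∑ l ∈ S R, 1 / (l : ℝ)) * ∑ k ∈ Finset.Icc 1 R, 1 / (k : ℝ) ^ 2 ≤ G R * 2 := by
    have h7 : 0 ≤ G R := (G_pos hR).le
    gcongr
  linarith

/-- T2: weak Brun–Titchmarsh -/
theorem bt_weak (δ : ℝ) (hδ : 0 < δ) :
    ∃ C : ℝ, 0 < C ∧ ∀ x : ℝ, 2 ≤ x → ∀ u h : ℕ,
      (((Finset.Ioc u (u + h)).filter Nat.Prime).card : ℝ) ≤ C * (h + x ^ δ) / Real.log x := by
  -- `R = ⌊x^(δ/8)⌋`, so `R ≥ 1`, `log (R+1) ≥ (δ/8) log x`, `R^4 ≤ x^(δ/2)`.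
  refine ⟨16 / δ + 2 * (2 / δ), by positivity, ?_⟩
  intro x hx u h
  have hx0 : 0 < x := by linarith
  have hx1 : 1 ≤ x := by linarith
  have hlog : 0 < Real.log x := Real.log_pos (by linarith)
  set R := ⌊x ^ (δ / 8)⌋₊ with hRdef
  have hR : 1 ≤ R := by
    rw [hRdef, Nat.one_le_floor_iff]
    exact Real.one_le_rpow hx1 (by positivity)
  have hRle : (R : ℝ) ≤ x ^ (δ / 8) := Nat.floor_le (by positivity)
  have hRgt : x ^ (δ / 8) < R + 1 := Nat.lt_floor_add_one _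
  have hmain := primes_le hR u h
  have hG := G_ge hR
  have hlogR : δ / 8 * Real.log x ≤ Real.log (R + 1) := by
    rw [← Real.log_rpow hx0]
    exact Real.log_le_log (by positivity) hRgt.le
  have hG' : δ / 16 * Real.log x ≤ G R := by linarith
  have t1 : (h : ℝ) / G R ≤ 16 / δ * h / Real.log x := by
    calc (h : ℝ) / G R ≤ h / (δ / 16 * Real.log x) := by
          gcongr
      _ = 16 / δ * h / Real.log x := by field_simp
  have hR1 : (1 : ℝ) ≤ R := by exact_mod_cast hR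
  have t2 : (R : ℝ) ^ 4 ≤ x ^ (δ / 2) := by
    calc (R : ℝ) ^ 4 ≤ (x ^ (δ / 8)) ^ 4 := by gcongr
      _ = x ^ (δ / 2) := by
          rw [← Real.rpow_natCast, ← Real.rpow_mul hx0.le]
          congr 1; push_cast; ring
  have t3 : (R : ℝ) ≤ x ^ (δ / 2) := by
    refine le_trans ?_ t2
    calc (R : ℝ) = R ^ 1 := (pow_one _).symm
      _ ≤ R ^ 4 := pow_le_pow_right₀ hR1 (by norm_num)
  have t4 : x ^ (δ / 2) ≤ (2 / δ) * x ^ δ / Real.log x := by
    rw [le_div_iff₀ hlog]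
    have l1 : Real.log x ≤ x ^ (δ / 2) / (δ / 2) := Real.log_le_rpow_div hx0.le (by positivity)
    calc x ^ (δ / 2) * Real.log x ≤ x ^ (δ / 2) * (x ^ (δ / 2) / (δ / 2)) := by gcongr
      _ = (2 / δ) * (x ^ (δ / 2) * x ^ (δ / 2)) := by field_simp
      _ = (2 / δ) * x ^ δ := by
          rw [← Real.rpow_add hx0]; congr 2; ring
  have t5 : (16 / δ + 2 * (2 / δ)) * (h + x ^ δ) / Real.log x =
      16 / δ * h / Real.log x + 2 * ((2 / δ) * x ^ δ / Real.log x) +
        (2 * (2 / δ) * h / Real.log x + 16 / δ * x ^ δ / Real.log x) := by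
    field_simp
    ring
  have t6 : 0 ≤ 2 * (2 / δ) * h / Real.log x + 16 / δ * x ^ δ / Real.log x := by positivity
  rw [t5]
  linarith

end

end Pool.Agent.H86.BtWeak
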