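import Mathlib

set_option linter.unusedSectionVars false
set_option linter.unusedVariables false

namespace Pool.Agent.H86.LOC

open Finset

variable {p : ℕ} [Fact p.Prime] {V : Type} [AddCommGroup V] [Fintype V] [DecidableEq V]
  [Module (ZMod p) V]

def rho (m : V → V → ℕ) (x : V) : ℤ := ∑ v, (m x v : ℤ)
def MM (m : V → V → ℕ) (v : V) : ℤ := ∑ x, (m x v : ℤ)
def S (p : ℕ) [Fact p.Prime] [Module (ZMod p) V] (m : V → V → ℕ) (x u : V) : ℤ :=
  ∑ i : ZMod p, ∑ j : ZMod p, (m (x + i • u) (j • u) : ℤ)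
def SC (p : ℕ) [Fact p.Prime] [Module (ZMod p) V] (m : V → V → ℕ) (u : V) : ℤ :=
  ∑ j : ZMod p, MM m (j • u)

theorem S_nonneg (m : V → V → ℕ) (x u : V) : 0 ≤ S p m x u :=
  Finset.sum_nonneg fun i _ => Finset.sum_nonneg fun j _ => Int.natCast_nonneg _

theorem MM_nonneg (m : V → V → ℕ) (v : V) : 0 ≤ MM m v :=
  Finset.sum_nonneg fun i _ => Int.natCast_nonneg _

theorem SC_nonneg (m : V → V → ℕ) (u : V) : 0 ≤ SC p m u :=
  Finset.sum_nonneg fun i _ => MM_nonneg m _

theorem S_zero (m : V → V → ℕ) (h0 : ∀ x, m x 0 = 0) (x : V) : S p m x 0 = 0 := by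
  simp [S, h0]

theorem MM_zero (m : V → V → ℕ) (h0 : ∀ x, m x 0 = 0) : MM m 0 = 0 := by
  simp [MM, h0]

theorem SC_zero (m : V → V → ℕ) (h0 : ∀ x, m x 0 = 0) : SC p m 0 = 0 := by
  simp [SC, MM_zero m h0]

theorem S_add (m : V → V → ℕ) (x u : V) (t : ZMod p) : S p m (x + t • u) u = S p m x u := by
  unfold S
  have : ∀ i : ZMod p, x + t • u + i • u = x + (t + i) • u := fun i => by
    rw [add_smul, add_assoc]
  simp only [this]
  exact Equiv.sum_comp (Equiv.addLeft t)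
    (fun i => ∑ j : ZMod p, (m (x + i • u) (j • u) : ℤ))

theorem S_smul (m : V → V → ℕ) (x u : V) {c : ZMod p} (hc : c ≠ 0) :
    S p m x (c • u) = S p m x u := by
  unfold S
  simp only [smul_smul]
  refine Eq.trans ?_ (Equiv.sum_comp (Equiv.mulRight₀ c hc)
    (fun i => ∑ j : ZMod p, (m (x + i • u) (j • u) : ℤ)))
  refine Finset.sum_congr rfl fun i _ => ?_
  exact Equiv.sum_comp (Equiv.mulRight₀ c hc)
    (fun j => (m (x + (i * c) • u) (j • u) : ℤ))

theorem SC_smul (m : V → V → ℕ) (u : V) {c : ZMod p} (hc : c ≠ 0) :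
    SC p m (c • u) = SC p m u := by
  unfold SC
  simp only [smul_smul]
  exact Equiv.sum_comp (Equiv.mulRight₀ c hc) (fun j => MM m (j • u))

theorem even_sum_neg (hp : 3 ≤ p) (f : ZMod p → ℤ) (h0 : f 0 = 0) (h : ∀ j, f (-j) = f j) :
    Even (∑ j, f j) := by
  have key : ((∑ j, f j : ℤ) : ZMod 2) = 0 := by
    push_cast
    refine Finset.sum_involution (fun j _ => -j) ?_ ?_ ?_ ?_
    · intro j _
      rw [h j]
      exact CharTwo.add_self_eq_zero _
    · intro j _ hj hjj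
      apply hj
      have : j = 0 := by
        have h2 : (2 : ZMod p) * j = 0 := by
          have : j + j = 0 := by
            nth_rewrite 1 [← hjj]
            exact neg_add_cancel j
          rw [two_mul]; exact this
        rcases mul_eq_zero.1 h2 with h3 | h3
        · exfalso
          have : ((2 : ℕ) : ZMod p) = 0 := by exact_mod_cast h3
          rw [ZMod.natCast_eq_zero_iff] at this
          exact absurd (Nat.le_of_dvd (by norm_num) this) (by omega)
        · exact h3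
      rw [this, h0]; simp
    · intro j _; exact Finset.mem_univ _
    · intro j _; exact neg_neg j
  rw [ZMod.intCast_eq_zero_iff_even] at key
  exact key

theorem S_even (hp : 3 ≤ p) (m : V → V → ℕ) (h0 : ∀ x, m x 0 = 0)
    (h1 : ∀ x v, m x (-v) = m x v) (x u : V) : Even (S p m x u) := by
  unfold S
  refine Finset.even_sum _ fun i _ => ?_
  refine even_sum_neg hp _ ?_ ?_
  · simp [h0]
  · intro j
    rw [neg_smul, h1]

theorem card_ne_zero_ (p : ℕ) [Fact p.Prime] :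
    ((Finset.univ.filter fun j : ZMod p => j ≠ 0).card : ℤ) = (p : ℤ) - 1 := by
  have : (Finset.univ.filter fun j : ZMod p => j ≠ 0) = Finset.univ.erase 0 := by
    ext j; simp
  rw [this, Finset.card_erase_of_mem (Finset.mem_univ _), Finset.card_univ, ZMod.card]
  have := (Fact.out : p.Prime).one_lt
  push_cast [Nat.cast_sub (by omega : 1 ≤ p)]
  ring

/-- (2) -/
theorem sum_S (m : V → V → ℕ) (h0 : ∀ x, m x 0 = 0)
    (h3 : ∀ (k : ZMod p) (x : V), ∑ v, m (x - k • v) v = ∑ v, m x v) (x : V) :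
    ∑ u, S p m x u = ((p : ℤ) - 1) * p * rho m x := by
  have h3' : ∀ k : ZMod p, ∑ v, (m (x + k • v) v : ℤ) = rho m x := by
    intro k
    have := h3 (-k) x
    simp only [neg_smul, sub_neg_eq_add] at this
    unfold rho
    exact_mod_cast this
  have e1 : ∑ u, S p m x u
      = ∑ j : ZMod p, ∑ i : ZMod p, ∑ u : V, (m (x + i • u) (j • u) : ℤ) := by
    unfold S
    rw [Finset.sum_comm]
    rw [Finset.sum_comm' (t' := Finset.univ) (s' := fun _ => Finset.univ) (by simp)]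
    simp only [Finset.sum_comm (s := (Finset.univ : Finset V)) (t := (Finset.univ : Finset (ZMod p)))]
    rw [Finset.sum_comm]
  rw [e1]
  have e2 : ∀ j : ZMod p, ∑ i : ZMod p, ∑ u : V, (m (x + i • u) (j • u) : ℤ)
      = if j ≠ 0 then (p : ℤ) * rho m x else 0 := by
    intro j
    by_cases hj : j = 0
    · subst hj
      simp [h0]
    · rw [if_pos hj]
      rw [← Equiv.sum_comp (Equiv.mulRight₀ j hj)
        (fun i => ∑ u : V, (m (x + i • u) (j • u) : ℤ))]
      have e3 : ∀ i : ZMod p, ∑ u : V, (m (x + (Equiv.mulRight₀ j hj) i • u) (j • u) : ℤ)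
          = rho m x := by
        intro i
        rw [← h3' i]
        have hcomp := Equiv.sum_comp
          ((LinearEquiv.smulOfNeZero (ZMod p) V j hj).toEquiv)
          (fun v => (m (x + i • v) v : ℤ))
        rw [← hcomp]
        refine Finset.sum_congr rfl fun u _ => ?_
        have : (LinearEquiv.smulOfNeZero (ZMod p) V j hj).toEquiv u = j • u := rfl
        rw [this, smul_smul]
        rfl
      simp only [e3]
      rw [Finset.sum_const, Finset.card_univ, ZMod.card, nsmul_eq_mul]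
  simp only [e2]
  rw [← Finset.sum_filter, Finset.sum_const, nsmul_eq_mul, card_ne_zero_]
  ring

/-- (4) -/
theorem sum_SC (m : V → V → ℕ) (h0 : ∀ x, m x 0 = 0) :
    ∑ u, SC p m u = ((p : ℤ) - 1) * ∑ v, MM m v := by
  unfold SC
  rw [Finset.sum_comm]
  have e2 : ∀ j : ZMod p, ∑ u : V, MM m (j • u) = if j ≠ 0 then ∑ v, MM m v else 0 := by
    intro j
    by_cases hj : j = 0
    · subst hj
      simp [MM_zero m h0]
    · rw [if_pos hj]
      exact Equiv.sum_comp ((LinearEquiv.smulOfNeZero (ZMod p) V j hj).toEquiv)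
          (fun v => MM m v)
  simp only [e2]
  rw [← Finset.sum_filter, Finset.sum_const, nsmul_eq_mul, card_ne_zero_]

/-- the map `(i,i') ↦ i u + i' w` -/
theorem plane_bij (hV : Fintype.card V = p ^ 2) {u w : V} (hu : u ≠ 0)
    (hw : ∀ c : ZMod p, w ≠ c • u) :
    Function.Bijective (fun q : ZMod p × ZMod p => q.1 • u + q.2 • w) := by
  rw [Fintype.bijective_iff_injective_and_card]
  constructor
  · rintro ⟨a, b⟩ ⟨c, d⟩ h
    simp only at h
    by_cases hbd : b = d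
    · subst hbd
      have h1 : (a - c) • u = 0 := by
        rw [sub_smul]
        have := add_right_cancel h
        rw [this, sub_self]
      rcases smul_eq_zero.1 h1 with h2 | h2
      · rw [sub_eq_zero.1 h2]
      · exact absurd h2 hu
    · exfalso
      have hbd' : b - d ≠ 0 := sub_ne_zero.2 hbd
      apply hw ((b - d)⁻¹ * (c - a))
      rw [mul_smul]
      have h1 : (b - d) • w = (c - a) • u := by
        rw [sub_smul, sub_smul]
        have : b • w - d • w - (c • u - a • u) = (a • u + b • w) - (c • u + d • w) := by abel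
        rw [← sub_eq_zero, this, h, sub_self]
      rw [← h1, smul_smul, inv_mul_cancel₀ hbd', one_smul]
  · rw [Fintype.card_prod, ZMod.card, hV, sq]

/-- (3) -/
theorem sum_S_line (hV : Fintype.card V = p ^ 2) (m : V → V → ℕ) {u w : V} (hu : u ≠ 0)
    (hw : ∀ c : ZMod p, w ≠ c • u) (x : V) :
    ∑ i : ZMod p, S p m (x + i • u) w = SC p m w := by
  unfold S SC MM
  have e : ∀ i : ZMod p, ∑ k : ZMod p, ∑ j : ZMod p, (m (x + i • u + k • w) (j • w) : ℤ)
      = ∑ j : ZMod p, ∑ k : ZMod p, (m (x + i • u + k • w) (j • w) : ℤ) := fun i =>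
    Finset.sum_comm
  simp only [e]
  rw [Finset.sum_comm]
  refine Finset.sum_congr rfl fun j _ => ?_
  rw [← Fintype.sum_prod_type' (fun i k => (m (x + i • u + k • w) (j • w) : ℤ))]
  have hb := plane_bij hV hu hw
  have hcomp := Equiv.sum_comp ((Equiv.ofBijective _ hb).trans (Equiv.addLeft x))
    (fun z => (m z (j • w) : ℤ))
  rw [← hcomp]
  refine Finset.sum_congr rfl fun q _ => ?_
  have : ((Equiv.ofBijective _ hb).trans (Equiv.addLeft x)) q = x + (q.1 • u + q.2 • w) := rfl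
  rw [this, add_assoc]

theorem sum_multiples {u : V} (hu : u ≠ 0) (F : V → ℤ) (hF : ∀ w, (∀ c : ZMod p, w ≠ c • u) → F w = 0) :
    ∑ w, F w = ∑ c : ZMod p, F (c • u) := by
  symm
  refine Fintype.sum_of_injective (fun c : ZMod p => c • u) ?_ _ _ ?_ (fun _ => rfl)
  · intro a b h
    simp only at h
    have h1 : (a - b) • u = 0 := by rw [sub_smul, h, sub_self]
    rcases smul_eq_zero.1 h1 with h2 | h2
    · exact sub_eq_zero.1 h2
    · exact absurd h2 hu
  · intro w hw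
    apply hF
    intro c hc
    exact hw ⟨c, hc.symm⟩

/-- LINE -/
theorem line_id (hV : Fintype.card V = p ^ 2) (m : V → V → ℕ) (h0 : ∀ x, m x 0 = 0)
    (h3 : ∀ (k : ZMod p) (x : V), ∑ v, m (x - k • v) v = ∑ v, m x v) {u : V} (hu : u ≠ 0)
    (x : V) :
    (p : ℤ) * ∑ i : ZMod p, rho m (x + i • u)
      = p * S p m x u + (∑ v, MM m v) - SC p m u := by
  have hp1 : (p : ℤ) - 1 ≠ 0 := by
    have := (Fact.out : p.Prime).one_lt
    omega
  have h1 : ∑ w, ((∑ i : ZMod p, S p m (x + i • u) w) - SC p m w)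
      = ((p : ℤ) - 1) * (p * S p m x u - SC p m u) := by
    rw [sum_multiples (p := p) hu]
    · have e : ∀ c : ZMod p, (∑ i : ZMod p, S p m (x + i • u) (c • u)) - SC p m (c • u)
          = if c ≠ 0 then (p * S p m x u - SC p m u) else 0 := by
        intro c
        by_cases hc : c = 0
        · subst hc
          simp [S_zero m h0, SC_zero m h0]
        · rw [if_pos hc, SC_smul m u hc]
          have : ∀ i : ZMod p, S p m (x + i • u) (c • u) = S p m x u := fun i => by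
            rw [S_smul m _ u hc, S_add]
          simp only [this]
          rw [Finset.sum_const, Finset.card_univ, ZMod.card, nsmul_eq_mul]
      simp only [e]
      rw [← Finset.sum_filter, Finset.sum_const, nsmul_eq_mul, card_ne_zero_]
    · intro w hw
      rw [sum_S_line hV m hu hw, sub_self]
  rw [Finset.sum_sub_distrib, sum_SC m h0, Finset.sum_comm] at h1
  simp only [sum_S m h0 h3] at h1
  rw [← Finset.mul_sum] at h1
  apply mul_left_cancel₀ hp1
  linarith

theorem rho_cases (m : V → V → ℕ) (h2 : ∀ x, ∑ v, m x v = 0 ∨ ∑ v, m x v = 2) (x : V) :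
    rho m x = 0 ∨ rho m x = 2 := by
  unfold rho
  rcases h2 x with h | h
  · left; exact_mod_cast h
  · right; exact_mod_cast h

theorem rho_of_pos (m : V → V → ℕ) (h0 : ∀ x, m x 0 = 0)
    (h2 : ∀ x, ∑ v, m x v = 0 ∨ ∑ v, m x v = 2)
    (h3 : ∀ (k : ZMod p) (x : V), ∑ v, m (x - k • v) v = ∑ v, m x v) {x u : V}
    (h : 0 < S p m x u) : rho m x = 2 := by
  rcases rho_cases m h2 x with hr | hr
  · exfalso
    have h4 := sum_S m h0 h3 x
    rw [hr, mul_zero] at h4
    have h5 : S p m x u ≤ ∑ u, S p m x u :=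
      Finset.single_le_sum (f := fun u => S p m x u) (fun w _ => S_nonneg m x w)
        (Finset.mem_univ u)
    linarith
  · exact hr

/-- (5) -/
theorem S_pos_eq (hV : Fintype.card V = p ^ 2) (m : V → V → ℕ) (h0 : ∀ x, m x 0 = 0)
    (h2 : ∀ x, ∑ v, m x v = 0 ∨ ∑ v, m x v = 2)
    (h3 : ∀ (k : ZMod p) (x : V), ∑ v, m (x - k • v) v = ∑ v, m x v) {u : V} (hu : u ≠ 0)
    {x : V} (h : 0 < S p m x u) :
    (p : ℤ) * S p m x u = 2 * p ^ 2 - (∑ v, MM m v) + SC p m u := by
  have h4 := line_id hV m h0 h3 hu x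
  have h5 : ∀ i : ZMod p, rho m (x + i • u) = 2 := by
    intro i
    apply rho_of_pos m h0 h2 h3 (u := u)
    rw [S_add]; exact h
  simp only [h5] at h4
  rw [Finset.sum_const, Finset.card_univ, ZMod.card, nsmul_eq_mul] at h4
  linarith

theorem S_le (m : V → V → ℕ) (h0 : ∀ x, m x 0 = 0)
    (h2 : ∀ x, ∑ v, m x v = 0 ∨ ∑ v, m x v = 2)
    (h3 : ∀ (k : ZMod p) (x : V), ∑ v, m (x - k • v) v = ∑ v, m x v) {u : V} (hu : u ≠ 0)
    (x : V) : S p m x u ≤ 2 * p := by
  have hp1 : (0 : ℤ) < (p : ℤ) - 1 := by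
    have := (Fact.out : p.Prime).one_lt
    omega
  have h4 := sum_S m h0 h3 x
  have h5 : ((p : ℤ) - 1) * S p m x u ≤ ∑ w, S p m x w := by
    classical
    have h6 : ∑ w, (if ∃ c : ZMod p, w = c • u then S p m x w else 0) ≤ ∑ w, S p m x w := by
      refine Finset.sum_le_sum fun w _ => ?_
      split_ifs
      · exact le_refl _
      · exact S_nonneg m x w
    rw [sum_multiples (p := p) hu] at h6
    · refine le_trans (le_of_eq ?_) h6
      have e : ∀ c : ZMod p, (if ∃ d : ZMod p, c • u = d • u then S p m x (c • u) else 0)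
          = if c ≠ 0 then S p m x u else 0 := by
        intro c
        rw [if_pos ⟨c, rfl⟩]
        by_cases hc : c = 0
        · subst hc
          simp [S_zero m h0]
        · rw [if_pos hc, S_smul m x u hc]
      simp only [e]
      rw [← Finset.sum_filter, Finset.sum_const, nsmul_eq_mul, card_ne_zero_]
    · intro w hw
      rw [if_neg]
      rintro ⟨c, hc⟩
      exact hw c hc
  have h7 : rho m x ≤ 2 := by
    rcases rho_cases m h2 x with hr | hr <;> rw [hr] <;> norm_num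
  have h8 : ((p : ℤ) - 1) * S p m x u ≤ ((p : ℤ) - 1) * (2 * p) := by
    rw [h4] at h5
    refine h5.trans ?_
    rw [mul_assoc]
    apply mul_le_mul_of_nonneg_left _ hp1.le
    have : (0 : ℤ) ≤ p := Int.natCast_nonneg _
    nlinarith
  exact le_of_mul_le_mul_left h8 hp1

/-- if `S x u = 2p` then all directions outside `F_p u` vanish at `x` -/
theorem S_eq_zero_of_full (m : V → V → ℕ) (h0 : ∀ x, m x 0 = 0)
    (h2 : ∀ x, ∑ v, m x v = 0 ∨ ∑ v, m x v = 2)
    (h3 : ∀ (k : ZMod p) (x : V), ∑ v, m (x - k • v) v = ∑ v, m x v) {u w : V} (hu : u ≠ 0)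
    (hw : ∀ c : ZMod p, w ≠ c • u) {x : V} (h : S p m x u = 2 * p) : S p m x w = 0 := by
  classical
  have h4 := sum_S m h0 h3 x
  have h7 : rho m x ≤ 2 := by
    rcases rho_cases m h2 x with hr | hr <;> rw [hr] <;> norm_num
  have hp1 : (0 : ℤ) < (p : ℤ) - 1 := by
    have := (Fact.out : p.Prime).one_lt
    omega
  have h6 : ∑ z, ((if ∃ c : ZMod p, z = c • u then S p m x z else 0)
      + (if z = w then S p m x w else 0)) ≤ ∑ z, S p m x z := by
    refine Finset.sum_le_sum fun z _ => ?_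
    split_ifs with h1 h2 h2
    · exfalso
      obtain ⟨c, hc⟩ := h1
      exact hw c (h2 ▸ hc)
    · simp
    · rw [h2]; simp
    · rw [add_zero]; exact S_nonneg m x z
  rw [Finset.sum_add_distrib, Finset.sum_ite_eq' Finset.univ w, if_pos (Finset.mem_univ _),
    sum_multiples (p := p) hu] at h6
  · have e : ∀ c : ZMod p, (if ∃ d : ZMod p, c • u = d • u then S p m x (c • u) else 0)
          = if c ≠ 0 then S p m x u else 0 := by
        intro c
        rw [if_pos ⟨c, rfl⟩]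
        by_cases hc : c = 0
        · subst hc
          simp [S_zero m h0]
        · rw [if_pos hc, S_smul m x u hc]
    simp only [e] at h6
    rw [← Finset.sum_filter, Finset.sum_const, nsmul_eq_mul, card_ne_zero_, h4, h] at h6
    have h9 := S_nonneg (p := p) m x w
    have h10 : ((p : ℤ) - 1) * p * rho m x ≤ ((p : ℤ) - 1) * p * 2 := by
      apply mul_le_mul_of_nonneg_left h7
      have : (0 : ℤ) ≤ p := Int.natCast_nonneg _
      nlinarith
    linarith
  · intro z hz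
    rw [if_neg]
    rintro ⟨c, hc⟩
    exact hz c hc

theorem exists_indep (hV : Fintype.card V = p ^ 2) (u : V) :
    ∃ w : V, ∀ c : ZMod p, w ≠ c • u := by
  by_contra hcon
  push Not at hcon
  have hs : Function.Surjective (fun c : ZMod p => c • u) := fun w => by
    obtain ⟨c, hc⟩ := hcon w
    exact ⟨c, hc.symm⟩
  have := Fintype.card_le_of_surjective _ hs
  rw [hV, ZMod.card] at this
  have := (Fact.out : p.Prime).one_lt
  nlinarith

/-- structure of a direction with `SC u > 0` -/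
theorem dir_struct (hp : 3 ≤ p) (hV : Fintype.card V = p ^ 2) (m : V → V → ℕ)
    (h0 : ∀ x, m x 0 = 0) (h1 : ∀ x v, m x (-v) = m x v)
    (h2 : ∀ x, ∑ v, m x v = 0 ∨ ∑ v, m x v = 2)
    (h3 : ∀ (k : ZMod p) (x : V), ∑ v, m (x - k • v) v = ∑ v, m x v) {u : V} (hu : u ≠ 0)
    (hpos : 0 < SC p m u) :
    ∃ σ k : ℤ, 0 < σ ∧ Even σ ∧ σ ≤ 2 * p ∧ 1 ≤ k ∧ k ≤ p ∧ SC p m u = k * σ ∧
      (p - k) * σ = 2 * p ^ 2 - (∑ v, MM m v) ∧ ∃ x0, S p m x0 u = σ := by
  classical
  obtain ⟨w, hw⟩ := exists_indep hV u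
  have hw0 : w ≠ 0 := fun h => hw 0 (by rw [h, zero_smul])
  have hu' : ∀ c : ZMod p, u ≠ c • w := by
    intro c hc
    have hc0 : c ≠ 0 := by
      rintro rfl
      rw [zero_smul] at hc
      exact hu hc
    apply hw c⁻¹
    rw [hc, smul_smul, inv_mul_cancel₀ hc0, one_smul]
  have hsum := sum_S_line hV m hw0 hu' 0
  have hex : ∃ i : ZMod p, 0 < S p m (0 + i • w) u := by
    by_contra hcon
    push Not at hcon
    have : ∑ i : ZMod p, S p m (0 + i • w) u ≤ 0 := Finset.sum_nonpos fun i _ => hcon i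
    linarith
  obtain ⟨i0, hi0⟩ := hex
  have hS := S_pos_eq hV m h0 h2 h3 hu hi0
  have hp0 : (0 : ℤ) < p := by exact_mod_cast (Fact.out : p.Prime).pos
  have hall : ∀ i : ZMod p, S p m (0 + i • w) u
      = if S p m (0 + i • w) u ≠ 0 then S p m (0 + i0 • w) u else 0 := by
    intro i
    by_cases h : S p m (0 + i • w) u = 0
    · rw [if_neg (by simpa using h), h]
    · rw [if_pos h]
      have hpos' : 0 < S p m (0 + i • w) u := lt_of_le_of_ne (S_nonneg m _ _) (Ne.symm h)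
      have hS' := S_pos_eq hV m h0 h2 h3 hu hpos'
      rw [← hS] at hS'
      exact mul_left_cancel₀ hp0.ne' hS'
  set T := Finset.univ.filter fun i : ZMod p => S p m (0 + i • w) u ≠ 0 with hT
  have hcard : ∑ i : ZMod p, S p m (0 + i • w) u = (T.card : ℤ) * S p m (0 + i0 • w) u := by
    rw [Finset.sum_congr rfl (fun i _ => hall i), ← Finset.sum_filter, Finset.sum_const,
      nsmul_eq_mul]
  refine ⟨S p m (0 + i0 • w) u, T.card, hi0, S_even hp m h0 h1 _ _, S_le m h0 h2 h3 hu _,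
    ?_, ?_, ?_, ?_, ⟨_, rfl⟩⟩
  · have : 0 < T.card := Finset.card_pos.2 ⟨i0, by simp only [hT, Finset.mem_filter, Finset.mem_univ, true_and]; exact hi0.ne'⟩
    exact_mod_cast this
  · have : T.card ≤ p := by
      have := Finset.card_le_univ T
      rwa [ZMod.card] at this
    exact_mod_cast this
  · rw [← hsum, hcard]
  · have : SC p m u = (T.card : ℤ) * S p m (0 + i0 • w) u := by rw [← hsum, hcard]
    rw [this] at hS
    linarith

/-- (6) -/
theorem SC_mod (hV : Fintype.card V = p ^ 2) (m : V → V → ℕ) (h0 : ∀ x, m x 0 = 0)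
    (h3 : ∀ (k : ZMod p) (x : V), ∑ v, m (x - k • v) v = ∑ v, m x v) {u : V} (hu : u ≠ 0) :
    (p : ℤ) ∣ (∑ v, MM m v) - SC p m u := by
  have h4 := line_id hV m h0 h3 hu 0
  exact ⟨(∑ i : ZMod p, rho m (0 + i • u)) - S p m 0 u, by linarith⟩

theorem SC_sq_le (m : V → V → ℕ) (h0 : ∀ x, m x 0 = 0) (u : V) :
    SC p m u ^ 2 ≤ ((p : ℤ) - 1) * ∑ j : ZMod p, MM m (j • u) ^ 2 := by
  have e1 : SC p m u = ∑ j ∈ Finset.univ.filter (fun j : ZMod p => j ≠ 0), MM m (j • u) := by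
    unfold SC
    rw [Finset.sum_filter]
    refine Finset.sum_congr rfl fun j _ => ?_
    by_cases hj : j = 0
    · subst hj; simp [MM_zero m h0]
    · rw [if_pos hj]
  have e2 : ∑ j : ZMod p, MM m (j • u) ^ 2
      = ∑ j ∈ Finset.univ.filter (fun j : ZMod p => j ≠ 0), MM m (j • u) ^ 2 := by
    rw [Finset.sum_filter]
    refine Finset.sum_congr rfl fun j _ => ?_
    by_cases hj : j = 0
    · subst hj; simp [MM_zero m h0]
    · rw [if_pos hj]
  rw [e1, e2, ← card_ne_zero_ p]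
  exact sq_sum_le_card_mul_sum_sq

theorem sum_MMsq (m : V → V → ℕ) (h0 : ∀ x, m x 0 = 0) :
    ∑ u, ∑ j : ZMod p, MM m (j • u) ^ 2 = ((p : ℤ) - 1) * ∑ v, MM m v ^ 2 := by
  rw [Finset.sum_comm]
  have e2 : ∀ j : ZMod p, ∑ u : V, MM m (j • u) ^ 2 = if j ≠ 0 then ∑ v, MM m v ^ 2 else 0 := by
    intro j
    by_cases hj : j = 0
    · subst hj
      simp [MM_zero m h0]
    · rw [if_pos hj]
      exact Equiv.sum_comp ((LinearEquiv.smulOfNeZero (ZMod p) V j hj).toEquiv)
          (fun v => MM m v ^ 2)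
  simp only [e2]
  rw [← Finset.sum_filter, Finset.sum_const, nsmul_eq_mul, card_ne_zero_]

theorem MM_le_SC (m : V → V → ℕ) (w : V) : MM m w ≤ SC p m w := by
  have := Finset.single_le_sum (f := fun j : ZMod p => MM m (j • w))
    (fun j _ => MM_nonneg m _) (Finset.mem_univ (1 : ZMod p))
  simpa [SC] using this

theorem sigma_full (hp : 3 ≤ p) {A σ k : ℤ} (hpA : (p : ℤ) ∣ A) (hX : A < 2 * p ^ 2) (hσ : 0 < σ)
    (hev : Even σ) (hσp : σ ≤ 2 * p) (hk : 1 ≤ k)
    (hx : (p - k) * σ = 2 * p ^ 2 - A) : σ = 2 * p := by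
  have hprime : Prime (p : ℤ) := Nat.prime_iff_prime_int.1 Fact.out
  have hpk : 0 < (p : ℤ) - k := by
    by_contra hcon
    have : (p - k) * σ ≤ 0 := mul_nonpos_of_nonpos_of_nonneg (not_lt.1 hcon) hσ.le
    linarith
  have hd : (p : ℤ) ∣ (p - k) * σ := by
    rw [hx]
    exact dvd_sub ⟨2 * p, by ring⟩ hpA
  have hp0 : (0 : ℤ) < p := by omega
  rcases hprime.dvd_or_dvd hd with h | h
  · have := Int.le_of_dvd hpk h
    omega
  · obtain ⟨t, ht⟩ := h
    have ht0 : 0 < t := by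
      by_contra hcon
      have : (p : ℤ) * t ≤ 0 := mul_nonpos_of_nonneg_of_nonpos hp0.le (not_lt.1 hcon)
      linarith
    have ht2 : t ≤ 2 := by
      by_contra hcon
      have : (p : ℤ) * 3 ≤ p * t := by
        apply mul_le_mul_of_nonneg_left _ hp0.le
        omega
      linarith
    have hodd : Odd (p : ℤ) := by
      have : Odd p := (Fact.out : p.Prime).odd_of_ne_two (by omega)
      exact_mod_cast this
    interval_cases t
    · exfalso
      rw [mul_one] at ht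
      rw [ht] at hev
      exact (Int.not_even_iff_odd.2 hodd) hev
    · rw [ht]; ring

/-- case c: structure -/
theorem case_c (hp : 3 ≤ p) (hV : Fintype.card V = p ^ 2) (m : V → V → ℕ)
    (h0 : ∀ x, m x 0 = 0) (h1 : ∀ x v, m x (-v) = m x v)
    (h2 : ∀ x, ∑ v, m x v = 0 ∨ ∑ v, m x v = 2)
    (h3 : ∀ (k : ZMod p) (x : V), ∑ v, m (x - k • v) v = ∑ v, m x v)
    (hpA : (p : ℤ) ∣ ∑ v, MM m v) (hX : ∑ v, MM m v < 2 * (p : ℤ) ^ 2)
    (hA : 0 < ∑ v, MM m v) :
    ∃ k : ℤ, 1 ≤ k ∧ k < p ∧ ∑ v, MM m v = 2 * p * k ∧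
      (∑ v, MM m v) ^ 2 ≤ ((p : ℤ) - 1) * ∑ v, MM m v ^ 2 := by
  have hp1 : (0 : ℤ) < (p : ℤ) - 1 := by
    have := (Fact.out : p.Prime).one_lt
    omega
  have hex : ∃ u, 0 < SC p m u := by
    by_contra hcon
    push Not at hcon
    have h5 : ∑ u, SC p m u ≤ 0 := Finset.sum_nonpos fun u _ => hcon u
    rw [sum_SC m h0] at h5
    have := mul_pos hp1 hA
    linarith
  obtain ⟨u, hupos⟩ := hex
  have hu : u ≠ 0 := by
    rintro rfl
    rw [SC_zero m h0] at hupos
    exact lt_irrefl _ hupos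
  obtain ⟨σ, k, hσ, hev, hσp, hk1, hkp, hSC, hx, x0, hx0⟩ :=
    dir_struct hp hV m h0 h1 h2 h3 hu hupos
  have hσe := sigma_full hp hpA hX hσ hev hσp hk1 hx
  subst hσe
  have hvan : ∀ w, (∀ c : ZMod p, w ≠ c • u) → MM m w = 0 := by
    intro w hw
    by_contra hne
    have hwpos : 0 < SC p m w :=
      lt_of_lt_of_le (lt_of_le_of_ne (MM_nonneg m w) (Ne.symm hne)) (MM_le_SC m w)
    have hw0 : w ≠ 0 := fun h => hw 0 (by rw [h, zero_smul])
    obtain ⟨σ', k', hσ', hev', hσp', hk1', hkp', hSC', hx', x1, hx1⟩ :=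
      dir_struct hp hV m h0 h1 h2 h3 hw0 hwpos
    have hσe' := sigma_full hp hpA hX hσ' hev' hσp' hk1' hx'
    subst hσe'
    obtain ⟨⟨a, b⟩, hab⟩ := (plane_bij hV hu hw).2 (x1 - x0)
    simp only at hab
    have hz : x0 + a • u = x1 + (-b) • w := by
      rw [neg_smul]
      have : x1 = x0 + (a • u + b • w) := by rw [hab]; abel
      rw [this]; abel
    have hz1 : S p m (x0 + a • u) u = 2 * p := by rw [S_add]; exact hx0
    have hz2 : S p m (x0 + a • u) w = 2 * p := by rw [hz, S_add]; exact hx1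
    have hz3 := S_eq_zero_of_full m h0 h2 h3 hu hw hz1
    rw [hz3] at hz2
    linarith
  have hAS : ∑ v, MM m v = SC p m u := by
    rw [sum_multiples (p := p) hu _ hvan]; rfl
  have hQS : ∑ v, MM m v ^ 2 = ∑ j : ZMod p, MM m (j • u) ^ 2 := by
    apply sum_multiples (p := p) hu
    intro w hw
    rw [hvan w hw]; norm_num
  refine ⟨k, hk1, ?_, ?_, ?_⟩
  · by_contra hcon
    have hkp2 : k = p := le_antisymm hkp (not_lt.1 hcon)
    rw [hkp2, sub_self, zero_mul] at hx
    linarith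
  · rw [hAS, hSC]; ring
  · rw [hQS, hAS]
    exact SC_sq_le m h0 u

theorem card_ne_zero_V (hV : Fintype.card V = p ^ 2) :
    ((Finset.univ.filter fun v : V => v ≠ 0).card : ℤ) = (p : ℤ) ^ 2 - 1 := by
  have : (Finset.univ.filter fun v : V => v ≠ 0) = Finset.univ.erase 0 := by
    ext j; simp
  rw [this, Finset.card_erase_of_mem (Finset.mem_univ _), Finset.card_univ, hV]
  have := (Fact.out : p.Prime).pos
  have h1 : 1 ≤ p ^ 2 := Nat.one_le_pow _ _ this
  push_cast [Nat.cast_sub h1]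
  ring

theorem sum_ne_zero_V (F : V → ℤ) (hF : F 0 = 0) :
    ∑ v, F v = ∑ v ∈ Finset.univ.filter (fun v : V => v ≠ 0), F v := by
  rw [Finset.sum_filter]
  refine Finset.sum_congr rfl fun v _ => ?_
  by_cases hv : v = 0
  · subst hv; simp [hF]
  · rw [if_pos hv]

/-- case d: `p ∤ A` -/
theorem case_d (hp : 3 ≤ p) (hV : Fintype.card V = p ^ 2) (m : V → V → ℕ)
    (h0 : ∀ x, m x 0 = 0) (h1 : ∀ x v, m x (-v) = m x v)
    (h2 : ∀ x, ∑ v, m x v = 0 ∨ ∑ v, m x v = 2)
    (h3 : ∀ (k : ZMod p) (x : V), ∑ v, m (x - k • v) v = ∑ v, m x v)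
    (hpA : ¬ (p : ℤ) ∣ ∑ v, MM m v) (hX : ∑ v, MM m v < 2 * (p : ℤ) ^ 2) :
    ((p : ℤ) - 1) * ∑ v, MM m v ≥ (p + 1) * (2 * p ^ 2 - ∑ v, MM m v) := by
  have hp1 : (0 : ℤ) < (p : ℤ) - 1 := by
    have := (Fact.out : p.Prime).one_lt
    omega
  set A := ∑ v, MM m v with hA
  have hu : ∀ u : V, u ≠ 0 → 2 * p ^ 2 - A ≤ ((p : ℤ) - 1) * SC p m u := by
    intro u hu
    have hpos : 0 < SC p m u := by
      refine lt_of_le_of_ne (SC_nonneg m u) fun h => hpA ?_
      have := SC_mod hV m h0 h3 hu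
      rw [← h, sub_zero] at this
      exact this
    obtain ⟨σ, k, hσ, hev, hσp, hk1, hkp, hSC, hx, x0, hx0⟩ :=
      dir_struct hp hV m h0 h1 h2 h3 hu hpos
    rw [← hA] at hx
    rw [hSC, ← hx, ← mul_assoc]
    apply mul_le_mul_of_nonneg_right _ hσ.le
    nlinarith
  have h5 := sum_SC (p := p) m h0
  rw [sum_ne_zero_V _ (SC_zero m h0), ← hA] at h5
  have h6 : ∑ v ∈ Finset.univ.filter (fun v : V => v ≠ 0), (2 * (p : ℤ) ^ 2 - A)
      ≤ ∑ v ∈ Finset.univ.filter (fun v : V => v ≠ 0), ((p : ℤ) - 1) * SC p m v := by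
    refine Finset.sum_le_sum fun v hv => hu v ?_
    simpa using hv
  rw [Finset.sum_const, nsmul_eq_mul, card_ne_zero_V hV, ← Finset.mul_sum, h5] at h6
  have h7 : ((p : ℤ) - 1) * ((p + 1) * (2 * p ^ 2 - A)) ≤ (p - 1) * ((p - 1) * A) := by
    refine le_trans (le_of_eq ?_) h6
    ring
  exact le_of_mul_le_mul_left h7 hp1

/-- case d for `p = 3`, `A = 14` or `16` : `2 A ≤ Q` -/
theorem case_d3 [Fact (Nat.Prime 3)] {V : Type} [AddCommGroup V] [Fintype V] [DecidableEq V]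
    [Module (ZMod 3) V] (hV : Fintype.card V = 3 ^ 2) (m : V → V → ℕ)
    (h0 : ∀ x, m x 0 = 0) (h1 : ∀ x v, m x (-v) = m x v)
    (h2 : ∀ x, ∑ v, m x v = 0 ∨ ∑ v, m x v = 2)
    (h3 : ∀ (k : ZMod 3) (x : V), ∑ v, m (x - k • v) v = ∑ v, m x v)
    (hA : ∑ v, MM m v = 14 ∨ ∑ v, MM m v = 16) :
    2 * ∑ v, MM m v ≤ ∑ v, MM m v ^ 2 := by
  have hpA : ¬ ((3 : ℕ) : ℤ) ∣ ∑ v, MM m v := by
    rcases hA with h | h <;> rw [h] <;> norm_num
  have hpos : ∀ u : V, u ≠ 0 → 0 < SC 3 m u := by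
    intro u hu
    refine lt_of_le_of_ne (SC_nonneg m u) fun h => hpA ?_
    have := SC_mod (p := 3) hV m h0 h3 hu
    rw [← h, sub_zero] at this
    exact this
  have hsum := sum_SC (p := 3) m h0
  have hsq := sum_MMsq (p := 3) m h0
  have hle : ∑ u : V, SC 3 m u ^ 2 ≤ (((3 : ℕ) : ℤ) - 1) * ((((3 : ℕ) : ℤ) - 1) * ∑ v, MM m v ^ 2) := by
    rw [← hsq, Finset.mul_sum]
    exact Finset.sum_le_sum fun u _ => SC_sq_le m h0 u
  rw [sum_ne_zero_V _ (SC_zero m h0)] at hsum
  rw [sum_ne_zero_V (fun u => SC 3 m u ^ 2) (by simp only [SC_zero m h0]; norm_num)] at hle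
  have hc := card_ne_zero_V (p := 3) hV
  norm_num at hc hsum hle
  rcases hA with h | h
  · have e : ∀ u : V, u ≠ 0 → SC 3 m u ^ 2 = 10 * SC 3 m u - 16 := by
      intro u hu
      obtain ⟨σ, k, hσ, hev, hσp, hk1, hkp, hSC, hx, x0, hx0⟩ :=
        dir_struct (le_refl 3) hV m h0 h1 h2 h3 hu (hpos u hu)
      rw [h] at hx
      norm_num at hx hσp hkp
      obtain ⟨t, ht⟩ := hev
      have ht0 : 0 < t := by omega
      have ht3 : t ≤ 3 := by omega
      have hk3 : k ≤ 3 := by exact_mod_cast hkp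
      rw [hSC]
      interval_cases k <;> interval_cases t <;> simp_all
    have e2 : ∑ v ∈ Finset.univ.filter (fun v : V => v ≠ 0), SC 3 m v ^ 2
        = ∑ v ∈ Finset.univ.filter (fun v : V => v ≠ 0), (10 * SC 3 m v - 16) := by
      refine Finset.sum_congr rfl fun v hv => e v ?_
      simpa using hv
    rw [Finset.sum_sub_distrib, ← Finset.mul_sum, Finset.sum_const, nsmul_eq_mul] at e2
    rw [h] at hsum ⊢
    simp only [ne_eq] at e2
    rw [e2, hsum, hc] at hle
    linarith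
  · have e : ∀ u : V, u ≠ 0 → SC 3 m u ^ 2 = 16 := by
      intro u hu
      obtain ⟨σ, k, hσ, hev, hσp, hk1, hkp, hSC, hx, x0, hx0⟩ :=
        dir_struct (le_refl 3) hV m h0 h1 h2 h3 hu (hpos u hu)
      rw [h] at hx
      norm_num at hx hσp hkp
      obtain ⟨t, ht⟩ := hev
      have ht0 : 0 < t := by omega
      have ht3 : t ≤ 3 := by omega
      have hk3 : k ≤ 3 := by exact_mod_cast hkp
      rw [hSC]
      interval_cases k <;> interval_cases t <;> simp_all
    have e2 : ∑ v ∈ Finset.univ.filter (fun v : V => v ≠ 0), SC 3 m v ^ 2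
        = ∑ v ∈ Finset.univ.filter (fun v : V => v ≠ 0), (16 : ℤ) := by
      refine Finset.sum_congr rfl fun v hv => e v ?_
      simpa using hv
    rw [Finset.sum_const, nsmul_eq_mul] at e2
    rw [h]
    simp only [ne_eq] at e2
    rw [e2, hc] at hle
    linarith

theorem num_d {p A y : ℤ} (hy : 0 ≤ y) (hA : p ^ 2 + p + 2 ≤ A) (hp : 0 < p) :
    (A - p ^ 2 - p) * (A - p ^ 2 + p) ≤ (A + y - p ^ 2) ^ 2 - p ^ 2 + 2 * p * y := by
  nlinarith [mul_nonneg hy (by linarith : 0 ≤ A - p ^ 2), mul_nonneg hp.le hy, sq_nonneg y]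

theorem num_c2 {p k c lam A Q y : ℤ} (hp5 : 5 ≤ p) (hl : lam = p - 1) (hk0 : 1 ≤ k)
    (hk' : 2 * k ≤ p - 3) (hc : c = p - 2 * k) (hAk : A = 2 * p * k) (hQA : A ≤ Q) :
    4 * (p + 1) * (p - 2) * A
      ≤ 4 * (p + 1) * (Q - 2 * A)
        + lam * (p ^ 2 + p + 2) * ((A + y - p ^ 2) ^ 2 - p ^ 2 + 2 * p * y) := by
  have hcost : 2 * (c - 1) * p ^ 2 ≤ (A + y - p ^ 2) ^ 2 - p ^ 2 + 2 * p * y := by
    have : A + y - p ^ 2 = y - c * p := by rw [hAk, hc]; ring
    rw [this]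
    have e : (y - c * p) ^ 2 - p ^ 2 + 2 * p * y - 2 * (c - 1) * p ^ 2 = (y - (c - 1) * p) ^ 2 := by
      ring
    have := sq_nonneg (y - (c - 1) * p)
    linarith
  have hlam0 : 0 < lam := by linarith
  have hq : 0 < p ^ 2 + p + 2 := by nlinarith
  have h1' : lam * (p ^ 2 + p + 2) * (2 * (c - 1) * p ^ 2)
      ≤ lam * (p ^ 2 + p + 2) * ((A + y - p ^ 2) ^ 2 - p ^ 2 + 2 * p * y) :=
    mul_le_mul_of_nonneg_left hcost (mul_nonneg hlam0.le hq.le)
  have h2' : 4 * (p + 1) * (-A) ≤ 4 * (p + 1) * (Q - 2 * A) := by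
    apply mul_le_mul_of_nonneg_left
    · linarith
    · linarith
  have h3' : 4 * (p + 1) * k ≤ (p ^ 2 + p + 2) * (c - 1) * p := by
    have hc3 : 3 ≤ c := by rw [hc]; linarith
    have e1 : 4 * (p + 1) * k ≤ 2 * (p + 1) * (p - 3) := by
      have := mul_le_mul_of_nonneg_left hk' (by linarith : (0:ℤ) ≤ 2 * (p + 1))
      linarith
    have e2 : (p ^ 2 + p + 2) * p * 2 ≤ (p ^ 2 + p + 2) * p * (c - 1) :=
      mul_le_mul_of_nonneg_left (by linarith) (mul_nonneg hq.le (by linarith))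
    have e3 : 2 * (p + 1) * (p - 3) ≤ (p ^ 2 + p + 2) * p * 2 := by
      have : 0 ≤ p ^ 3 := by positivity
      nlinarith [sq_nonneg p]
    linarith
  have h4' : 4 * (p + 1) * (p - 1) * A ≤ lam * (p ^ 2 + p + 2) * (2 * (c - 1) * p ^ 2) := by
    rw [hl, hAk]
    have h0 : 0 ≤ 2 * p * (p - 1) := mul_nonneg (by linarith) (by linarith)
    have := mul_le_mul_of_nonneg_left h3' h0
    linarith
  linarith

theorem num_c1 {p k lam A Q y : ℤ} (hp3 : 3 ≤ p) (hlam0 : 0 < lam) (hy : 0 ≤ y)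
    (hk : p - 1 ≤ 2 * k) (hodd : Odd p) (hAk : A = 2 * p * k) (hCS : A ^ 2 ≤ (p - 1) * Q) :
    4 * (p + 1) * (p - 2) * A
      ≤ 4 * (p + 1) * (Q - 2 * A)
        + lam * (p ^ 2 + p + 2) * ((A + y - p ^ 2) ^ 2 - p ^ 2 + 2 * p * y) := by
  have hq : 0 < p ^ 2 + p + 2 := by nlinarith
  have hcost : 0 ≤ (A + y - p ^ 2) ^ 2 - p ^ 2 + 2 * p * y := by
    rcases eq_or_lt_of_le hk with hk' | hk'
    · have : A + y - p ^ 2 = y - p := by rw [hAk]; linear_combination (-p) * hk'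
      rw [this]
      have e : (y - p) ^ 2 - p ^ 2 + 2 * p * y = y ^ 2 := by ring
      rw [e]; exact sq_nonneg y
    · have hk'' : p + 1 ≤ 2 * k := by
        obtain ⟨r, hr⟩ := hodd
        omega
      have h5 : p ≤ A - p ^ 2 := by
        have := mul_le_mul_of_nonneg_left hk'' (by linarith : (0:ℤ) ≤ p)
        rw [hAk]; linarith
      have h6 : p * p ≤ (A + y - p ^ 2) * (A + y - p ^ 2) :=
        mul_le_mul (by linarith) (by linarith) (by linarith) (by linarith)
      have h7 : 0 ≤ p * y := mul_nonneg (by linarith) hy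
      nlinarith
  have hA0 : 0 ≤ A := by
    rw [hAk]
    have : 0 ≤ p * k := mul_nonneg (by linarith) (by linarith)
    linarith
  have hdef : (p - 2) * A ≤ Q - 2 * A := by
    have h5 : (p - 1) * (p * A) ≤ (p - 1) * Q := by
      refine le_trans ?_ hCS
      have : (p - 1) * p ≤ A := by
        rw [hAk]
        have := mul_le_mul_of_nonneg_left hk (by linarith : (0:ℤ) ≤ p)
        linarith
      have := mul_le_mul_of_nonneg_right this hA0
      linarith
    have h6 : p * A ≤ Q := le_of_mul_le_mul_left h5 (by linarith)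
    linarith
  have h1' : 0 ≤ lam * (p ^ 2 + p + 2) * ((A + y - p ^ 2) ^ 2 - p ^ 2 + 2 * p * y) :=
    mul_nonneg (mul_nonneg hlam0.le hq.le) hcost
  have h2' : 4 * (p + 1) * ((p - 2) * A) ≤ 4 * (p + 1) * (Q - 2 * A) := by
    apply mul_le_mul_of_nonneg_left hdef
    linarith
  linarith

/-- the local lemma -/
theorem loc {p : ℕ} [Fact p.Prime] (hp : 3 ≤ p) {V : Type} [AddCommGroup V] [Fintype V]
    [DecidableEq V] [Module (ZMod p) V] (hV : Fintype.card V = p ^ 2) (m : V → V → ℕ)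
    (h0 : ∀ x, m x 0 = 0) (h1 : ∀ x v, m x (-v) = m x v)
    (h2 : ∀ x, ∑ v, m x v = 0 ∨ ∑ v, m x v = 2)
    (h3 : ∀ (k : ZMod p) (x : V), ∑ v, m (x - k • v) v = ∑ v, m x v)
    (y : ℕ) (A Q : ℤ) (hA : A = ∑ x, ∑ v, (m x v : ℤ))
    (hQ : Q = ∑ v, (∑ x, (m x v : ℤ)) ^ 2) (lam : ℤ)
    (hlam : (p = 3 ∧ lam = 1) ∨ (5 ≤ p ∧ lam = (p : ℤ) - 1)) :
    4 * ((p : ℤ) + 1) * (p - 2) * A
      ≤ 4 * (p + 1) * (Q - 2 * A)
        + lam * (p ^ 2 + p + 2) * ((A + y - p ^ 2) ^ 2 - p ^ 2 + 2 * p * y) := by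
  have hy : (0 : ℤ) ≤ y := Int.natCast_nonneg _
  have hpz : (3 : ℤ) ≤ p := by exact_mod_cast hp
  have hAM : ∑ v, MM m v = A := by
    rw [hA]; unfold MM; exact Finset.sum_comm
  have hQM : ∑ v, MM m v ^ 2 = Q := hQ.symm
  have hA0 : 0 ≤ A := by
    rw [← hAM]; exact Finset.sum_nonneg fun v _ => MM_nonneg m v
  have hAr : A = ∑ x, rho m x := hA
  have hcardV : ((Finset.univ : Finset V).card : ℤ) = (p : ℤ) ^ 2 := by
    rw [Finset.card_univ, hV]; push_cast; ring
  have hA2 : A ≤ 2 * (p : ℤ) ^ 2 := by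
    rw [hAr]
    have : ∑ x : V, rho m x ≤ ∑ x : V, (2 : ℤ) := Finset.sum_le_sum fun x _ => by
      rcases rho_cases m h2 x with hr | hr <;> rw [hr]
      norm_num
    rw [Finset.sum_const, nsmul_eq_mul, hcardV] at this
    linarith
  have hAev : Even A := by
    rw [hAr]
    refine Finset.even_sum _ fun x _ => ?_
    rcases rho_cases m h2 x with hr | hr <;> rw [hr]
    · exact Even.zero
    · exact even_two
  have hQA : A ≤ Q := by
    rw [← hAM, ← hQM]
    refine Finset.sum_le_sum fun v _ => ?_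
    have := MM_nonneg m v
    rcases eq_or_lt_of_le this with h | h
    · rw [← h]; norm_num
    · nlinarith
  have hlam0 : 0 < lam := by
    rcases hlam with ⟨_, h⟩ | ⟨_, h⟩ <;> rw [h]
    · norm_num
    · linarith
  have hlamb : 1 ≤ lam := by omega
  -- cost ≥ 0 style facts are derived in the cases
  rcases eq_or_lt_of_le hA0 with hz | hApos
  · -- a) A = 0
    have hQ0 : 0 ≤ Q := by linarith
    rw [← hz]
    have hcost : 0 ≤ (0 + (y : ℤ) - p ^ 2) ^ 2 - p ^ 2 + 2 * p * y := by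
      nlinarith [sq_nonneg ((y : ℤ) - (p ^ 2 - p)), mul_pos (by linarith : (0:ℤ) < p)
        (by linarith : (0:ℤ) < p), mul_nonneg (sq_nonneg (p : ℤ)) (by linarith : (0:ℤ) ≤ p - 1)]
    have h1' : 0 ≤ lam * (p ^ 2 + p + 2) * ((0 + (y : ℤ) - p ^ 2) ^ 2 - p ^ 2 + 2 * p * y) := by
      apply mul_nonneg _ hcost
      apply mul_nonneg hlam0.le
      positivity
    have h2' : 0 ≤ 4 * ((p : ℤ) + 1) * (Q - 2 * 0) := by
      apply mul_nonneg
      · positivity
      · linarith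
    linarith
  rcases eq_or_lt_of_le hA2 with hfull | hAlt
  · -- b) A = 2 p^2
    have hcost : (p : ℤ) ^ 4 - p ^ 2 ≤ (A + (y : ℤ) - p ^ 2) ^ 2 - p ^ 2 + 2 * p * y := by
      rw [hfull]
      nlinarith [mul_nonneg (by linarith : (0:ℤ) ≤ p) hy, mul_nonneg (sq_nonneg (p : ℤ)) hy,
        sq_nonneg (y : ℤ)]
    have hl : 8 ≤ lam * ((p : ℤ) ^ 2 + p + 2) := by nlinarith
    have hpp : (0 : ℤ) ≤ (p : ℤ) ^ 4 - p ^ 2 := by nlinarith [sq_nonneg (p : ℤ)]
    have h1' : 8 * ((p : ℤ) ^ 4 - p ^ 2)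
        ≤ lam * (p ^ 2 + p + 2) * ((A + (y : ℤ) - p ^ 2) ^ 2 - p ^ 2 + 2 * p * y) :=
      mul_le_mul hl hcost hpp (by linarith)
    have h2' : 4 * ((p : ℤ) + 1) * (-A) ≤ 4 * ((p : ℤ) + 1) * (Q - 2 * A) := by
      apply mul_le_mul_of_nonneg_left
      · linarith
      · positivity
    rw [hfull] at h1' h2' ⊢
    nlinarith
  by_cases hpA : (p : ℤ) ∣ A
  · -- c)
    obtain ⟨k, hk1, hkp, hAk, hCS⟩ := case_c hp hV m h0 h1 h2 h3 (by rw [hAM]; exact hpA)
      (by rw [hAM]; exact hAlt) (by rw [hAM]; exact hApos)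
    rw [hAM] at hAk hCS
    rw [hQM] at hCS
    have hodd : Odd (p : ℤ) := by
      have : Odd p := (Fact.out : p.Prime).odd_of_ne_two (by omega)
      exact_mod_cast this
    rcases le_or_gt ((p : ℤ) - 1) (2 * k) with hk | hk
    · -- c1
      exact num_c1 hpz hlam0 hy hk hodd hAk hCS
    · -- c2
      have hk' : 2 * k ≤ (p : ℤ) - 3 := by
        obtain ⟨r, hr⟩ := hodd
        omega
      have hp5 : 5 ≤ p ∧ lam = (p : ℤ) - 1 := by
        rcases hlam with ⟨h, _⟩ | h
        · exfalso; rw [h] at hk'; norm_num at hk'; omega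
        · exact h
      obtain ⟨hp5, hl⟩ := hp5
      exact num_c2 (c := (p : ℤ) - 2 * k) (by exact_mod_cast hp5) hl hk1 hk' rfl hAk hQA
  · -- d)
    have hd := case_d hp hV m h0 h1 h2 h3 (by rw [hAM]; exact hpA) (by rw [hAM]; exact hAlt)
    rw [hAM] at hd
    have hApp : (p : ℤ) ^ 2 + p ≤ A := by nlinarith
    have hAne : A ≠ (p : ℤ) ^ 2 + p := by
      intro h
      apply hpA
      rw [h]
      exact ⟨p + 1, by ring⟩
    have hA22 : (p : ℤ) ^ 2 + p + 2 ≤ A := by
      have hev2 : Even ((p : ℤ) ^ 2 + p) := by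
        have : (p : ℤ) ^ 2 + p = p * (p + 1) := by ring
        rw [this]
        exact Int.even_mul_succ_self p
      obtain ⟨r, hr⟩ := hev2
      obtain ⟨s, hs⟩ := hAev
      omega
    have hcost := num_d hy hA22 (by linarith : (0:ℤ) < p)
    rcases hlam with ⟨h3p, hl⟩ | ⟨h5p, hl⟩
    · subst h3p
      have hA1416 : A = 14 ∨ A = 16 := by
        obtain ⟨s, hs⟩ := hAev
        norm_num at hA22 hAlt
        omega
      have hQ2 : 2 * A ≤ Q := by
        have := case_d3 hV m h0 h1 h2 h3 (by rw [hAM]; exact hA1416)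
        rw [hAM, hQM] at this
        exact this
      rw [hl]
      rcases hA1416 with h | h
      · rw [h] at hcost hQ2 ⊢
        norm_num at hcost hQ2 ⊢
        linarith
      · rw [h] at hcost hQ2 ⊢
        norm_num at hcost hQ2 ⊢
        linarith
    · rw [hl]
      have hlp : (0 : ℤ) ≤ ((p : ℤ) - 1) * (p ^ 2 + p + 2) := by
        apply mul_nonneg
        · linarith
        · positivity
      have h1' := mul_le_mul_of_nonneg_left hcost hlp
      have h2' : 4 * ((p : ℤ) + 1) * (-A) ≤ 4 * ((p : ℤ) + 1) * (Q - 2 * A) := by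
        apply mul_le_mul_of_nonneg_left
        · linarith
        · positivity
      have h3' : 4 * ((p : ℤ) + 1) * A ≤ (p ^ 2 + p + 2) * ((A - p ^ 2 - p) * (A - p ^ 2 + p)) := by
        obtain ⟨d, hd⟩ : ∃ d : ℤ, A = p ^ 2 + p + 2 + d := ⟨A - (p ^ 2 + p + 2), by ring⟩
        have hd0 : 0 ≤ d := by linarith
        rw [hd]
        have : (0 : ℤ) ≤ (p ^ 2 + p + 2) * (2 * p + 4) - 4 * (p + 1) := by nlinarith
        have h6 := mul_nonneg this hd0
        have h7 : (0 : ℤ) ≤ (p ^ 2 + p + 2) * d ^ 2 := by positivity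
        nlinarith
      have h4' : ((p : ℤ) - 1) * (4 * ((p : ℤ) + 1) * A)
          ≤ (p - 1) * ((p ^ 2 + p + 2) * ((A - p ^ 2 - p) * (A - p ^ 2 + p))) :=
        mul_le_mul_of_nonneg_left h3' (by linarith)
      linarith

end Pool.Agent.H86.LOC
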