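import Mathlib
import Pool.Agent.H62.PNT

/-! Tool T6 for MP_70e45f_nt: logarithmic density of good cofactors. -/

open Finset Real

namespace Pool.Agent.H86.D6

/-- good cofactors -/
def Good (A k : ℕ) : Prop :=
  Squarefree k ∧ (∀ q : ℕ, q.Prime → q ∣ k → A ≤ q) ∧
    ∀ j e : ℕ, 1 ≤ j → j < k → ¬ IsSquare (k * j * e.factorial)

/-- a sum over multiples in a divisor-closed set -/
theorem sum_mult_le (D : ℕ → Prop) [DecidablePred D] (hD : ∀ a b, a ∣ b → 0 < b → D b → D a) (Y m : ℕ) (hm : 0 < m) :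
    ∑ k ∈ (Finset.Icc 1 Y).filter (fun k => D k ∧ m ∣ k), (1 / (k : ℝ)) ≤
      1 / m * ∑ k ∈ (Finset.Icc 1 Y).filter D, (1 / (k : ℝ)) := by
  have hm' : (0 : ℝ) < m := by exact_mod_cast hm
  have h1 : (Finset.Icc 1 Y).filter (fun k => D k ∧ m ∣ k) ⊆
      ((Finset.Icc 1 Y).filter D).image (fun k => m * k) := by
    intro k hk
    simp only [Finset.mem_filter, Finset.mem_Icc, Finset.mem_image] at hk ⊢
    obtain ⟨⟨hk1, hk2⟩, hDk, ⟨c, rfl⟩⟩ := hk
    have hc : 0 < c := Nat.pos_of_ne_zero (by rintro rfl; simp at hk1)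
    refine ⟨c, ⟨⟨hc, ?_⟩, hD c _ (Dvd.intro_left _ rfl) (by omega) hDk⟩, rfl⟩
    calc c = 1 * c := (one_mul c).symm
      _ ≤ m * c := Nat.mul_le_mul_right _ hm
      _ ≤ Y := hk2
  calc _ ≤ ∑ k ∈ ((Finset.Icc 1 Y).filter D).image (fun k => m * k), (1 / (k : ℝ)) :=
        Finset.sum_le_sum_of_subset_of_nonneg h1 (fun _ _ _ => by positivity)
    _ = ∑ k ∈ (Finset.Icc 1 Y).filter D, (1 / ((m * k : ℕ) : ℝ)) := by
        rw [Finset.sum_image]
        intro a _ b _ h
        exact Nat.eq_of_mul_eq_mul_left hm h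
    _ = _ := by
        rw [Finset.mul_sum]
        refine Finset.sum_congr rfl fun k _ => ?_
        push_cast
        rw [div_mul_div_comm, one_mul]

theorem sift_lower (P : Finset ℕ) (hP : ∀ q ∈ P, 0 < q) (Y : ℕ) :
    (∏ q ∈ P, (1 - 1 / (q : ℝ))) * Real.log (Y + 1) ≤
      ∑ k ∈ (Finset.Icc 1 Y).filter (fun k => ∀ q ∈ P, ¬ q ∣ k), (1 / (k : ℝ)) := by
  induction P using Finset.induction_on with
  | empty =>
    simp only [Finset.prod_empty, one_mul, Finset.notMem_empty, false_imp_iff, implies_true,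
      Finset.filter_true]
    have := log_add_one_le_harmonic Y
    rw [harmonic_eq_sum_Icc] at this
    push_cast at this
    simpa [one_div] using this
  | insert a P ha ih =>
    have ih' := ih (fun q hq => hP q (Finset.mem_insert_of_mem hq))
    have ha0 := hP a (Finset.mem_insert_self _ _)
    have ha0' : (1 : ℝ) ≤ a := by exact_mod_cast ha0
    let D : ℕ → Prop := fun k => ∀ q ∈ P, ¬ q ∣ k
    let _ : DecidablePred D := fun k => (inferInstance : Decidable (∀ q ∈ P, ¬ q ∣ k))
    have hD : ∀ x y, x ∣ y → 0 < y → D y → D x := by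
      intro x y hxy _ hy q hq hqx
      exact hy q hq (hqx.trans hxy)
    have h1 := sum_mult_le D hD Y a ha0
    have h2 : ∑ k ∈ (Finset.Icc 1 Y).filter D, (1 / (k : ℝ)) =
        ∑ k ∈ (Finset.Icc 1 Y).filter (fun k => D k ∧ a ∣ k), (1 / (k : ℝ)) +
        ∑ k ∈ (Finset.Icc 1 Y).filter (fun k => ∀ q ∈ insert a P, ¬ q ∣ k), (1 / (k : ℝ)) := by
      rw [← Finset.sum_filter_add_sum_filter_not ((Finset.Icc 1 Y).filter D) (fun k => a ∣ k),
        Finset.filter_filter, Finset.filter_filter]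
      congr 1
      refine Finset.sum_congr ?_ fun _ _ => rfl
      apply Finset.filter_congr
      intro k _
      simp only [Finset.forall_mem_insert, D]
      tauto
    rw [Finset.prod_insert ha]
    have hfac : 0 ≤ 1 - 1 / (a : ℝ) := by
      rw [sub_nonneg, div_le_one (by linarith)]
      exact ha0'
    calc (1 - 1 / (a : ℝ)) * (∏ q ∈ P, (1 - 1 / (q : ℝ))) * Real.log (Y + 1)
        = (1 - 1 / (a : ℝ)) * ((∏ q ∈ P, (1 - 1 / (q : ℝ))) * Real.log (Y + 1)) := by ring
      _ ≤ (1 - 1 / (a : ℝ)) * ∑ k ∈ (Finset.Icc 1 Y).filter D, (1 / (k : ℝ)) := by gcongr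
      _ = ∑ k ∈ (Finset.Icc 1 Y).filter D, (1 / (k : ℝ)) -
            1 / a * ∑ k ∈ (Finset.Icc 1 Y).filter D, (1 / (k : ℝ)) := by ring
      _ ≤ _ := by linarith

/-- product over primes below `M`, squared, is at least `1/(4(M-1))`. -/
theorem mertens_sq (M : ℕ) (hM : 2 ≤ M) :
    1 / (4 * ((M : ℝ) - 1)) ≤ (∏ q ∈ (Finset.range M).filter Nat.Prime, (1 - 1 / (q : ℝ))) ^ 2 := by
  induction M using Nat.strong_induction_on with
  | _ M ih =>
    rcases Nat.lt_or_ge M 5 with h5 | h5
    · have e2 : (Finset.range 2).filter Nat.Prime = ∅ := by decide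
      have e3 : (Finset.range 3).filter Nat.Prime = {2} := by decide
      have e4 : (Finset.range 4).filter Nat.Prime = {2, 3} := by decide
      interval_cases M
      · rw [e2]; norm_num
      · rw [e3]; norm_num
      · rw [e4]; norm_num
    · obtain ⟨N, rfl⟩ : ∃ N, M = N + 1 := ⟨M - 1, by omega⟩
      rw [Finset.range_add_one, Finset.filter_insert]
      by_cases hN : N.Prime
      · rw [if_pos hN, Finset.prod_insert (by simp)]
        have hodd : ¬ (N - 1).Prime := by
          intro hp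
          have h1 : N % 2 = 1 := by
            rcases hN.eq_two_or_odd with h | h
            · omega
            · exact h
          rcases hp.eq_two_or_odd with h | h <;> omega
        obtain ⟨K, rfl⟩ : ∃ K, N = K + 1 := ⟨N - 1, by omega⟩
        have hK : ¬ K.Prime := by simpa using hodd
        rw [Finset.range_add_one, Finset.filter_insert, if_neg hK]
        have ihK := ih K (by omega) (by omega)
        have hK4 : (4 : ℝ) ≤ K := by
          have : 4 ≤ K + 1 := by omega
          rcases Nat.lt_or_ge K 4 with h | h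
          · exfalso
            have : K = 3 := by omega
            subst this
            exact hK (by norm_num)
          · exact_mod_cast h
        rw [mul_pow]
        have e1 : 1 / (4 * (((K + 1 + 1 : ℕ) : ℝ) - 1)) ≤
            (1 - 1 / ((K + 1 : ℕ) : ℝ)) ^ 2 * (1 / (4 * ((K : ℝ) - 1))) := by
          push_cast
          have a1 : (1 - 1 / ((K : ℝ) + 1)) = K / (K + 1) := by field_simp; ring
          rw [a1, div_pow, div_mul_div_comm, div_le_div_iff₀ (by linarith) (by
            have : (0 : ℝ) < K - 1 := by linarith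
            positivity)]
          nlinarith
        refine e1.trans ?_
        gcongr
      · rw [if_neg hN]
        have ihN := ih N (by omega) (by omega)
        refine le_trans ?_ ihN
        have hN4 : (4 : ℝ) ≤ N := by
          have : 4 ≤ N := by omega
          exact_mod_cast this
        push_cast
        apply one_div_le_one_div_of_le
        · linarith
        · linarith

theorem mertens_lower (A : ℕ) (hA : 2 ≤ A) :
    1 / 2 / Real.sqrt A ≤ ∏ q ∈ (Finset.range A).filter Nat.Prime, (1 - 1 / (q : ℝ)) := by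
  have h := mertens_sq A hA
  have hA' : (2 : ℝ) ≤ A := by exact_mod_cast hA
  have h0 : 0 ≤ ∏ q ∈ (Finset.range A).filter Nat.Prime, (1 - 1 / (q : ℝ)) := by
    apply Finset.prod_nonneg
    intro q hq
    have : (1 : ℝ) ≤ q := by exact_mod_cast (Finset.mem_filter.1 hq).2.one_le
    rw [sub_nonneg, div_le_one (by linarith)]
    exact this
  have h1 : (1 / 2 / Real.sqrt A) ^ 2 ≤ 1 / (4 * ((A : ℝ) - 1)) := by
    rw [div_pow, Real.sq_sqrt (by linarith), div_le_div_iff₀ (by linarith) (by linarith)]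
    linarith
  exact (pow_le_pow_iff_left₀ (by positivity) h0 two_ne_zero).1 (h1.trans h)

theorem primes_window_dvd {e g j₁ : ℕ} (h : IsSquare (g * j₁ * e.factorial)) :
    (∏ q ∈ (Finset.Ioc (e / 2) e).filter Nat.Prime, q) ∣ g * j₁ := by
  apply Finset.prod_primes_dvd
  · intro q hq
    exact (Finset.mem_filter.1 hq).2.prime
  · intro q hq
    obtain ⟨h1, hq⟩ := Finset.mem_filter.1 hq
    rw [Finset.mem_Ioc] at h1
    by_contra hcon
    obtain ⟨r, hr⟩ := h
    have h2 : q ∣ e.factorial := hq.dvd_factorial.2 h1.2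
    have h3 : q ∣ r := by
      have : q ∣ r * r := by rw [← hr]; exact h2.mul_left _
      exact (hq.dvd_mul.1 this).elim id id
    have h4 : q ^ 2 ∣ (g * j₁) * e.factorial := by
      rw [hr, sq]; exact mul_dvd_mul h3 h3
    have hcop : Nat.Coprime (q ^ 2) (g * j₁) :=
      Nat.Coprime.pow_left _ ((Nat.Prime.coprime_iff_not_dvd hq).2 hcon)
    have h5 : q ^ 2 ∣ e.factorial := hcop.dvd_of_dvd_mul_left h4
    have h6 : e < 2 * q := by omega
    have hq2 := hq.two_le
    have h7 : Nat.log q e < 2 := by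
      apply Nat.log_lt_of_lt_pow (by omega)
      nlinarith
    rw [hq.pow_dvd_factorial_iff h7] at h5
    simp at h5
    have : e / q < 2 := (Nat.div_lt_iff_lt_mul hq.pos).2 (by omega)
    omega

/-- structure of bad squarefree cofactors -/
theorem bad_structure {k j e : ℕ} (hk : Squarefree k) (hj : 1 ≤ j) (hjk : j < k)
    (h : IsSquare (k * j * e.factorial)) :
    1 < (∏ q ∈ k.primeFactors.filter (· ≤ e), q) ∧
    (∏ q ∈ (Finset.Ioc (e / 2) e).filter Nat.Prime, q) <
      (∏ q ∈ k.primeFactors.filter (· ≤ e), q) ^ 2 := by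
  set g := ∏ q ∈ k.primeFactors.filter (· ≤ e), q with hg
  set k₁ := ∏ q ∈ k.primeFactors.filter (fun q => ¬ q ≤ e), q with hk₁
  have hk0 : k ≠ 0 := hk.ne_zero
  have hkg : g * k₁ = k := by
    rw [hg, hk₁, Finset.prod_filter_mul_prod_filter_not]
    exact Nat.prod_primeFactors_of_squarefree hk
  have hk1j : k₁ ∣ j := by
    apply Finset.prod_primes_dvd
    · intro q hq
      exact (Nat.prime_of_mem_primeFactors (Finset.mem_filter.1 hq).1).prime
    · intro q hq
      obtain ⟨hqk, hqe⟩ := Finset.mem_filter.1 hq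
      have hqp := Nat.prime_of_mem_primeFactors hqk
      have hqd := Nat.dvd_of_mem_primeFactors hqk
      by_contra hcon
      obtain ⟨r, hr⟩ := h
      have h3 : q ∣ r := by
        have : q ∣ r * r := by rw [← hr, mul_assoc]; exact hqd.mul_right _
        exact (hqp.dvd_mul.1 this).elim id id
      have h4 : q ^ 2 ∣ k * (j * e.factorial) := by
        rw [← mul_assoc, hr, sq]; exact mul_dvd_mul h3 h3
      have hcop : Nat.Coprime (q ^ 2) (j * e.factorial) := by
        apply Nat.Coprime.pow_left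
        rw [Nat.Prime.coprime_iff_not_dvd hqp, hqp.dvd_mul]
        rintro (h | h)
        · exact hcon h
        · exact hqe (hqp.dvd_factorial.1 h)
      have h5 : q ^ 2 ∣ k := hcop.dvd_of_dvd_mul_right h4
      rw [sq] at h5
      have := hk q h5
      exact hqp.one_lt.ne' (Nat.isUnit_iff.1 this)
  obtain ⟨j₁, rfl⟩ := hk1j
  have hk10 : 0 < k₁ := Nat.pos_of_mul_pos_right (by omega : 0 < k₁ * j₁)
  have hj10 : 0 < j₁ := Nat.pos_of_mul_pos_left (by omega : 0 < k₁ * j₁)
  have hj1g : j₁ < g := by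
    rw [← hkg, mul_comm g k₁] at hjk
    exact Nat.lt_of_mul_lt_mul_left hjk
  have hsq : IsSquare (g * j₁ * e.factorial) := by
    obtain ⟨r, hr⟩ := h
    have e1 : k₁ ^ 2 * (g * j₁ * e.factorial) = r ^ 2 := by
      rw [sq r, ← hr, ← hkg]; ring
    have h1 : k₁ ∣ r := by
      rw [← Nat.pow_dvd_pow_iff two_ne_zero, ← e1]
      exact Dvd.intro _ rfl
    obtain ⟨r', rfl⟩ := h1
    refine ⟨r', ?_⟩
    rw [mul_pow] at e1
    have := Nat.eq_of_mul_eq_mul_left (pow_pos hk10 2) e1
    rw [this, sq]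
  refine ⟨by omega, ?_⟩
  have h1 := Nat.le_of_dvd (Nat.mul_pos (by omega) hj10) (primes_window_dvd hsq)
  calc _ ≤ g * j₁ := h1
    _ < g * g := Nat.mul_lt_mul_of_pos_left hj1g (by omega)
    _ = g ^ 2 := (sq g).symm

/-- `k` has no prime factor below `A`. -/
def Cop (A k : ℕ) : Prop := ∀ q : ℕ, q.Prime → q ∣ k → A ≤ q

/-- the part of `k` supported on primes `≤ e` (radical). -/
def gPart (e k : ℕ) : ℕ := ∏ q ∈ k.primeFactors.filter (· ≤ e), q

theorem cop_dvd (A : ℕ) : ∀ a b, a ∣ b → 0 < b → Cop A b → Cop A a :=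
  fun _ _ hab _ hb q hq hqa => hb q hq (hqa.trans hab)

theorem sum_inv_sqrt (e : ℕ) : ∑ n ∈ Finset.Icc 1 e, 1 / Real.sqrt n ≤ 2 * Real.sqrt e := by
  induction e with
  | zero => simp
  | succ e ih =>
    rw [Finset.sum_Icc_succ_top (by omega)]
    have h1 : 0 < Real.sqrt ((e + 1 : ℕ) : ℝ) := Real.sqrt_pos.2 (by positivity)
    have h2 : Real.sqrt (e : ℝ) ≤ Real.sqrt ((e + 1 : ℕ) : ℝ) := Real.sqrt_le_sqrt (by push_cast; linarith)
    have h0 : 0 ≤ Real.sqrt (e : ℝ) := Real.sqrt_nonneg _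
    have h3 : Real.sqrt ((e + 1 : ℕ) : ℝ) ^ 2 = e + 1 := by
      rw [Real.sq_sqrt (by positivity)]; push_cast; ring
    have h4 : Real.sqrt (e : ℝ) ^ 2 = e := Real.sq_sqrt (by positivity)
    have h5 : 1 / Real.sqrt ((e + 1 : ℕ) : ℝ) ≤
        2 * (Real.sqrt ((e + 1 : ℕ) : ℝ) - Real.sqrt (e : ℝ)) := by
      rw [div_le_iff₀ h1]
      nlinarith
    linarith

theorem prod_one_add_le (e : ℕ) :
    ∏ q ∈ (Finset.Icc 1 e).filter Nat.Prime, (1 + 1 / Real.sqrt q) ≤ Real.exp (2 * Real.sqrt e) := by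
  calc ∏ q ∈ (Finset.Icc 1 e).filter Nat.Prime, (1 + 1 / Real.sqrt q)
      ≤ ∏ q ∈ (Finset.Icc 1 e).filter Nat.Prime, Real.exp (1 / Real.sqrt q) := by
        apply Finset.prod_le_prod
        · intros; positivity
        · intro q _
          have := Real.add_one_le_exp (1 / Real.sqrt q)
          linarith
    _ = Real.exp (∑ q ∈ (Finset.Icc 1 e).filter Nat.Prime, 1 / Real.sqrt q) := by
        rw [Real.exp_sum]
    _ ≤ Real.exp (2 * Real.sqrt e) := by
        apply Real.exp_le_exp.2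
        refine le_trans ?_ (sum_inv_sqrt e)
        apply Finset.sum_le_sum_of_subset_of_nonneg (Finset.filter_subset _ _)
        intros; positivity

open Classical in
theorem bad_sum (A Y e : ℕ) (X : ℝ) (hX : 0 < X) :
    ∑ k ∈ (Finset.Icc 1 Y).filter (fun k => Cop A k ∧ X ^ 2 < gPart e k), (1 / (k : ℝ)) ≤
      (1 / X * Real.exp (2 * Real.sqrt e)) *
        ∑ k ∈ (Finset.Icc 1 Y).filter (Cop A), (1 / (k : ℝ)) := by
  set SW := ∑ k ∈ (Finset.Icc 1 Y).filter (Cop A), (1 / (k : ℝ)) with hSW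
  have hSW0 : 0 ≤ SW := by positivity
  set PW := ((Finset.Icc 1 e).filter Nat.Prime).powerset with hPW
  have h1 : ∀ k ∈ (Finset.Icc 1 Y).filter (fun k => Cop A k ∧ X ^ 2 < gPart e k), (1 / (k : ℝ)) ≤
      ∑ T ∈ PW, if (X ^ 2 < ((∏ q ∈ T, q : ℕ) : ℝ) ∧ (Cop A k ∧ (∏ q ∈ T, q) ∣ k)) then (1 / (k : ℝ)) else 0 := by
    intro k hk
    obtain ⟨hkI, hkc, hkX⟩ := Finset.mem_filter.1 hk
    have hk0 : k ≠ 0 := by
      have := (Finset.mem_Icc.1 hkI).1
      omega
    set T := k.primeFactors.filter (· ≤ e) with hT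
    have hTP : T ∈ PW := by
      rw [hPW, Finset.mem_powerset]
      intro q hq
      obtain ⟨h1, h2⟩ := Finset.mem_filter.1 hq
      have hqp := Nat.prime_of_mem_primeFactors h1
      exact Finset.mem_filter.2 ⟨Finset.mem_Icc.2 ⟨hqp.one_le, h2⟩, hqp⟩
    have hTd : (∏ q ∈ T, q) ∣ k :=
      (Finset.prod_dvd_prod_of_subset _ _ _ (Finset.filter_subset _ _)).trans
        (Nat.prod_primeFactors_dvd k)
    have : (1 / (k : ℝ)) = if (X ^ 2 < ((∏ q ∈ T, q : ℕ) : ℝ) ∧ (Cop A k ∧ (∏ q ∈ T, q) ∣ k)) then (1 / (k : ℝ)) else 0 := by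
      rw [if_pos]
      exact ⟨hkX, hkc, hTd⟩
    refine this.le.trans ?_
    apply Finset.single_le_sum (f := fun T => if (X ^ 2 < ((∏ q ∈ T, q : ℕ) : ℝ) ∧ (Cop A k ∧ (∏ q ∈ T, q) ∣ k)) then (1 / (k : ℝ)) else 0) _ hTP
    intro T' _
    split_ifs
    · positivity
    · exact le_refl _
  have h2 : ∑ k ∈ (Finset.Icc 1 Y).filter (fun k => Cop A k ∧ X ^ 2 < gPart e k), (1 / (k : ℝ)) ≤
      ∑ T ∈ PW, ∑ k ∈ Finset.Icc 1 Y,
        if (X ^ 2 < ((∏ q ∈ T, q : ℕ) : ℝ) ∧ (Cop A k ∧ (∏ q ∈ T, q) ∣ k)) then (1 / (k : ℝ)) else 0 := by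
    rw [Finset.sum_comm]
    refine (Finset.sum_le_sum h1).trans ?_
    apply Finset.sum_le_sum_of_subset_of_nonneg (Finset.filter_subset _ _)
    intro k _ _
    apply Finset.sum_nonneg
    intro T _
    split_ifs
    · positivity
    · exact le_refl _
  refine h2.trans ?_
  have h3 : ∀ T ∈ PW, (∑ k ∈ Finset.Icc 1 Y,
        if (X ^ 2 < ((∏ q ∈ T, q : ℕ) : ℝ) ∧ (Cop A k ∧ (∏ q ∈ T, q) ∣ k)) then (1 / (k : ℝ)) else 0) ≤
      (1 / X * ∏ q ∈ T, (1 / Real.sqrt q)) * SW := by
    intro T hT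
    have hTpos : 0 < ∏ q ∈ T, q := by
      apply Finset.prod_pos
      intro q hq
      have := Finset.mem_powerset.1 hT hq
      exact (Finset.mem_filter.1 this).2.pos
    have hTpos' : (0 : ℝ) < ((∏ q ∈ T, q : ℕ) : ℝ) := by exact_mod_cast hTpos
    by_cases hXT : X ^ 2 < ((∏ q ∈ T, q : ℕ) : ℝ)
    · simp only [hXT, true_and]
      rw [← Finset.sum_filter]
      refine (sum_mult_le (Cop A) (cop_dvd A) Y _ hTpos).trans ?_
      apply mul_le_mul_of_nonneg_right _ hSW0
      have e1 : ∏ q ∈ T, (1 / Real.sqrt q) = 1 / Real.sqrt ((∏ q ∈ T, q : ℕ) : ℝ) := by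
        rw [Finset.prod_div_distrib, Finset.prod_const_one]
        congr 1
        rw [Nat.cast_prod]
        rw [Real.sqrt_prod]
        intro q _
        positivity
      rw [e1, div_mul_div_comm, one_mul]
      apply one_div_le_one_div_of_le
      · have := Real.sqrt_pos.2 hTpos'
        positivity
      · have h4 : X ≤ Real.sqrt ((∏ q ∈ T, q : ℕ) : ℝ) := Real.le_sqrt_of_sq_le hXT.le
        have h5 := Real.mul_self_sqrt hTpos'.le
        have h6 := Real.sqrt_nonneg ((∏ q ∈ T, q : ℕ) : ℝ)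
        calc X * Real.sqrt ((∏ q ∈ T, q : ℕ) : ℝ)
            ≤ Real.sqrt ((∏ q ∈ T, q : ℕ) : ℝ) * Real.sqrt ((∏ q ∈ T, q : ℕ) : ℝ) := by gcongr
          _ = _ := h5
    · simp only [hXT, false_and, if_false, Finset.sum_const_zero]
      positivity
  refine (Finset.sum_le_sum h3).trans ?_
  rw [← Finset.sum_mul, ← Finset.mul_sum]
  apply mul_le_mul_of_nonneg_right _ hSW0
  apply mul_le_mul_of_nonneg_left _ (by positivity)
  rw [← Finset.prod_one_add]
  exact prod_one_add_le e

open Classical in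
theorem nonsq_sum (A Y : ℕ) (hA : 2 ≤ A) :
    ∑ k ∈ (Finset.Icc 1 Y).filter (fun k => Cop A k ∧ ¬ Squarefree k), (1 / (k : ℝ)) ≤
      1 / ((A : ℝ) - 1) * ∑ k ∈ (Finset.Icc 1 Y).filter (Cop A), (1 / (k : ℝ)) := by
  set SW := ∑ k ∈ (Finset.Icc 1 Y).filter (Cop A), (1 / (k : ℝ)) with hSW
  have hSW0 : 0 ≤ SW := by positivity
  have hA' : (2 : ℝ) ≤ A := by exact_mod_cast hA
  have h1 : ∀ k ∈ (Finset.Icc 1 Y).filter (fun k => Cop A k ∧ ¬ Squarefree k), (1 / (k : ℝ)) ≤
      ∑ q ∈ Finset.Ico A (Y + 1), if (Cop A k ∧ (q * q) ∣ k) then (1 / (k : ℝ)) else 0 := by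
    intro k hk
    obtain ⟨hkI, hkc, hks⟩ := Finset.mem_filter.1 hk
    rw [Finset.mem_Icc] at hkI
    rw [Nat.squarefree_iff_prime_squarefree] at hks
    push Not at hks
    obtain ⟨q, hq, hqk⟩ := hks
    have hAq : A ≤ q := hkc q hq ((Dvd.intro _ rfl).trans hqk)
    have hqY : q ≤ Y := (Nat.le_of_dvd (by omega) ((Dvd.intro _ rfl).trans hqk)).trans hkI.2
    have : (1 / (k : ℝ)) = if (Cop A k ∧ (q * q) ∣ k) then (1 / (k : ℝ)) else 0 := by
      rw [if_pos ⟨hkc, hqk⟩]
    refine this.le.trans ?_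
    apply Finset.single_le_sum (f := fun q => if (Cop A k ∧ (q * q) ∣ k) then (1 / (k : ℝ)) else 0) _
      (Finset.mem_Ico.2 ⟨hAq, by omega⟩)
    intro q' _
    split_ifs
    · positivity
    · exact le_refl _
  have h2 : ∑ k ∈ (Finset.Icc 1 Y).filter (fun k => Cop A k ∧ ¬ Squarefree k), (1 / (k : ℝ)) ≤
      ∑ q ∈ Finset.Ico A (Y + 1), ∑ k ∈ Finset.Icc 1 Y,
        if (Cop A k ∧ (q * q) ∣ k) then (1 / (k : ℝ)) else 0 := by
    rw [Finset.sum_comm]
    refine (Finset.sum_le_sum h1).trans ?_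
    apply Finset.sum_le_sum_of_subset_of_nonneg (Finset.filter_subset _ _)
    intro k _ _
    apply Finset.sum_nonneg
    intro q _
    split_ifs
    · positivity
    · exact le_refl _
  refine h2.trans ?_
  have h3 : ∀ q ∈ Finset.Ico A (Y + 1), (∑ k ∈ Finset.Icc 1 Y,
        if (Cop A k ∧ (q * q) ∣ k) then (1 / (k : ℝ)) else 0) ≤ 1 / ((q : ℝ) * q) * SW := by
    intro q hq
    have hq0 : 0 < q := by
      have := (Finset.mem_Ico.1 hq).1
      omega
    rw [← Finset.sum_filter]
    have := sum_mult_le (Cop A) (cop_dvd A) Y (q * q) (Nat.mul_pos hq0 hq0)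
    push_cast at this
    exact this
  refine (Finset.sum_le_sum h3).trans ?_
  rw [← Finset.sum_mul]
  apply mul_le_mul_of_nonneg_right _ hSW0
  have h4 : ∀ M : ℕ, A ≤ M → ∑ q ∈ Finset.Ico A M, 1 / ((q : ℝ) * q) ≤
      1 / ((A : ℝ) - 1) - 1 / ((M : ℝ) - 1) := by
    intro M hM
    induction M, hM using Nat.le_induction with
    | base => simp
    | succ M hM ih =>
      rw [Finset.sum_Ico_succ_top hM]
      have hM' : (2 : ℝ) ≤ M := by
        have : 2 ≤ M := by omega
        exact_mod_cast this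
      have : 1 / ((M : ℝ) * M) ≤ 1 / ((M : ℝ) - 1) - 1 / (((M + 1 : ℕ) : ℝ) - 1) := by
        push_cast
        rw [add_sub_cancel_right, div_sub_div _ _ (by linarith) (by linarith),
          div_le_div_iff₀ (by positivity) (by
            have : (0 : ℝ) < M - 1 := by linarith
            positivity)]
        nlinarith
      linarith
  rcases Nat.lt_or_ge Y A with h | h
  · rw [Finset.Ico_eq_empty_of_le (by omega)]
    simp only [Finset.sum_empty]
    have : (0 : ℝ) < A - 1 := by linarith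
    positivity
  · have h5 := h4 (Y + 1) (by omega)
    have h6 : 0 ≤ 1 / (((Y + 1 : ℕ) : ℝ) - 1) := by
      push_cast
      rw [add_sub_cancel_right]
      positivity
    linarith

theorem window_lower : ∃ E₁ : ℕ, ∀ e : ℕ, E₁ ≤ e →
    Real.exp (e / 4) ≤ ((∏ q ∈ (Finset.Ioc (e / 2) e).filter Nat.Prime, q : ℕ) : ℝ) := by
  have h := Pool.Agent.H62.PNT.theta_div_tendsto
  rw [Metric.tendsto_atTop] at h
  obtain ⟨N, hN⟩ := h (1 / 8) (by norm_num)
  refine ⟨⌈2 * N⌉₊ + 1, ?_⟩
  intro e he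
  have he1 : 2 * N + 1 ≤ e := by
    have : ((⌈2 * N⌉₊ + 1 : ℕ) : ℝ) ≤ e := by exact_mod_cast he
    push_cast at this
    linarith [Nat.le_ceil (2 * N)]
  have he0 : (0 : ℝ) < e := by
    have : 0 < e := by omega
    exact_mod_cast this
  have hN1 : N ≤ e := by
    rcases le_or_gt 0 N with h | h <;> linarith
  have a1 := hN e hN1
  have a2 := hN (e / 2) (by linarith)
  rw [Real.dist_eq, abs_lt] at a1 a2
  have b1 : (7 / 8 : ℝ) * e ≤ Chebyshev.theta e := by
    have := a1.1
    have h2 : (7 / 8 : ℝ) ≤ Chebyshev.theta e / e := by linarith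
    rwa [le_div_iff₀ he0] at h2
  have b2 : Chebyshev.theta (e / 2) ≤ (9 / 8 : ℝ) * (e / 2) := by
    have := a2.2
    have h2 : Chebyshev.theta (e / 2) / (e / 2) ≤ (9 / 8 : ℝ) := by linarith
    rwa [div_le_iff₀ (by linarith)] at h2
  have hfl : ⌊(e : ℝ) / 2⌋₊ = e / 2 := by
    have := Nat.floor_div_natCast (K := ℝ) (e : ℝ) 2
    simpa using this
  have hlog : Real.log ((∏ q ∈ (Finset.Ioc (e / 2) e).filter Nat.Prime, q : ℕ) : ℝ) =
      Chebyshev.theta e - Chebyshev.theta (e / 2) := by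
    rw [Nat.cast_prod, Real.log_prod]
    · unfold Chebyshev.theta
      rw [Nat.floor_natCast, hfl]
      have : (Finset.Ioc 0 e).filter Nat.Prime =
          (Finset.Ioc 0 (e / 2)).filter Nat.Prime ∪ (Finset.Ioc (e / 2) e).filter Nat.Prime := by
        rw [← Finset.filter_union, Finset.Ioc_union_Ioc_eq_Ioc (Nat.zero_le _) (Nat.div_le_self _ _)]
      rw [this, Finset.sum_union]
      · ring
      · rw [Finset.disjoint_left]
        intro a ha hb
        have h1 := Finset.mem_Ioc.1 (Finset.mem_filter.1 ha).1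
        have h2 := Finset.mem_Ioc.1 (Finset.mem_filter.1 hb).1
        omega
    · intro q hq
      have := (Finset.mem_filter.1 hq).2.pos
      positivity
  have hpos : (0 : ℝ) < ((∏ q ∈ (Finset.Ioc (e / 2) e).filter Nat.Prime, q : ℕ) : ℝ) := by
    have : 0 < ∏ q ∈ (Finset.Ioc (e / 2) e).filter Nat.Prime, q := by
      apply Finset.prod_pos
      intro q hq
      exact (Finset.mem_filter.1 hq).2.pos
    exact_mod_cast this
  rw [← Real.le_log_iff_exp_le hpos, hlog]
  linarith

theorem exp_small : ∃ E₂ : ℕ, ∀ e : ℕ, E₂ ≤ e →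
    1 / Real.exp (e / 16) * Real.exp (2 * Real.sqrt e) ≤ 1 / ((e : ℝ) * e) := by
  have h := Real.tendsto_pow_mul_exp_neg_atTop_nhds_zero 2
  rw [Metric.tendsto_atTop] at h
  obtain ⟨N, hN⟩ := h (1 / 1024) (by norm_num)
  refine ⟨⌈32 * N⌉₊ + 4096, ?_⟩
  intro e he
  have he' : ((⌈32 * N⌉₊ + 4096 : ℕ) : ℝ) ≤ e := by exact_mod_cast he
  push_cast at he'
  have hc := Nat.le_ceil (32 * N)
  have he1 : (4096 : ℝ) ≤ e := by
    have : (0 : ℝ) ≤ ⌈32 * N⌉₊ := by positivity
    linarith
  have a1 := hN (e / 32) (by linarith)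
  rw [Real.dist_eq, sub_zero, abs_of_nonneg (by positivity)] at a1
  have h1 : 2 * Real.sqrt e ≤ e / 32 := by
    have : Real.sqrt e * 64 ≤ e := by
      have h2 : (64 : ℝ) ≤ Real.sqrt e := Real.le_sqrt_of_sq_le (by linarith)
      have h3 := Real.mul_self_sqrt (by linarith : (0 : ℝ) ≤ e)
      nlinarith
    linarith
  have he0 : (0 : ℝ) < e := by linarith
  have h2 : 1 / Real.exp (e / 16) * Real.exp (2 * Real.sqrt e) ≤ Real.exp (-(e / 32)) := by
    rw [one_div, ← Real.exp_neg, ← Real.exp_add]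
    apply Real.exp_le_exp.2
    linarith
  refine h2.trans ?_
  rw [le_div_iff₀ (by positivity)]
  have h3 : ((e : ℝ) / 32) ^ 2 * Real.exp (-(e / 32)) = (Real.exp (-(e / 32)) * (e * e)) / 1024 := by
    ring
  rw [h3] at a1
  linarith

open Classical in
/-- T6: logarithmic density of good cofactors -/
theorem good_density :
    ∃ A₀ : ℕ, ∀ A : ℕ, A₀ ≤ A → ∃ Y₀ : ℕ, ∀ Y : ℕ, Y₀ ≤ Y →
      (1 / 8 : ℝ) * Real.log Y / Real.sqrt A ≤
        ∑ k ∈ (Finset.Icc 2 Y).filter (Good A), (1 / (k : ℝ)) := by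
  obtain ⟨E₁, hE₁⟩ := window_lower
  obtain ⟨E₂, hE₂⟩ := exp_small
  refine ⟨E₁ + E₂ + 5, ?_⟩
  intro A hA
  have hA5 : (5 : ℝ) ≤ A := by
    have : 5 ≤ A := by omega
    exact_mod_cast this
  have hsA : 0 < Real.sqrt A := Real.sqrt_pos.2 (by linarith)
  refine ⟨⌈Real.exp (8 * Real.sqrt A)⌉₊ + 1, ?_⟩
  intro Y hY
  have hY' : Real.exp (8 * Real.sqrt A) ≤ Y := by
    have h1 : ((⌈Real.exp (8 * Real.sqrt A)⌉₊ + 1 : ℕ) : ℝ) ≤ Y := by exact_mod_cast hY
    push_cast at h1
    linarith [Nat.le_ceil (Real.exp (8 * Real.sqrt A))]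
  have hY0 : (0 : ℝ) < Y := lt_of_lt_of_le (Real.exp_pos _) hY'
  have hlogY : 8 * Real.sqrt A ≤ Real.log Y := (Real.le_log_iff_exp_le hY0).2 hY'
  set SW := ∑ k ∈ (Finset.Icc 1 Y).filter (Cop A), (1 / (k : ℝ)) with hSW
  have hSW0 : 0 ≤ SW := by positivity
  -- lower bound for SW
  have hlow : 1 / 2 / Real.sqrt A * Real.log Y ≤ SW := by
    have h1 := sift_lower ((Finset.range A).filter Nat.Prime)
      (fun q hq => (Finset.mem_filter.1 hq).2.pos) Y
    have h2 := mertens_lower A (by omega)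
    have h3 : ∑ k ∈ (Finset.Icc 1 Y).filter
        (fun k => ∀ q ∈ (Finset.range A).filter Nat.Prime, ¬ q ∣ k), (1 / (k : ℝ)) = SW := by
      rw [hSW]
      refine Finset.sum_congr ?_ fun _ _ => rfl
      ext k
      simp only [Finset.mem_filter, Finset.mem_range, Cop]
      constructor
      · rintro ⟨h1, h2⟩
        refine ⟨h1, fun q hq hqk => ?_⟩
        by_contra hcon
        exact h2 q ⟨by omega, hq⟩ hqk
      · rintro ⟨h1, h2⟩
        refine ⟨h1, fun q hq hqk => ?_⟩
        have := h2 q hq.2 hqk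
        omega
    rw [h3] at h1
    refine le_trans ?_ h1
    have hl1 : Real.log Y ≤ Real.log (Y + 1) := Real.log_le_log hY0 (by linarith)
    have hl0 : 0 ≤ Real.log Y := by linarith [hlogY, hsA]
    have hm0 : 0 ≤ 1 / 2 / Real.sqrt A := by positivity
    calc 1 / 2 / Real.sqrt A * Real.log Y
        ≤ (∏ q ∈ (Finset.range A).filter Nat.Prime, (1 - 1 / (q : ℝ))) * Real.log Y := by gcongr
      _ ≤ _ := by
        apply mul_le_mul_of_nonneg_left hl1
        exact hm0.trans h2
  -- decomposition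
  let f : ℕ → ℝ := fun k => 1 / (k : ℝ)
  have hf : ∀ k, 0 ≤ f k := fun k => by simp only [f]; positivity
  have hite : ∀ (p : Prop) [Decidable p] (k : ℕ), 0 ≤ if p then f k else 0 := by
    intro p _ k; split_ifs
    · exact hf k
    · exact le_refl _
  have hdec : ∀ k ∈ Finset.Icc 1 Y, (if Cop A k then f k else 0) ≤
      (if k = 1 then f k else 0) + (if 2 ≤ k ∧ Good A k then f k else 0) +
      (if Cop A k ∧ ¬ Squarefree k then f k else 0) +
      ∑ e ∈ Finset.Ico A (8 * Y), if Cop A k ∧ (Real.exp (e / 16)) ^ 2 < gPart e k then f k else 0 := by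
    intro k hk
    rw [Finset.mem_Icc] at hk
    have s4 : 0 ≤ ∑ e ∈ Finset.Ico A (8 * Y),
        if Cop A k ∧ (Real.exp (e / 16)) ^ 2 < gPart e k then f k else 0 :=
      Finset.sum_nonneg fun e _ => hite _ k
    have s1 := hite (k = 1) k
    have s2 := hite (2 ≤ k ∧ Good A k) k
    have s3 := hite (Cop A k ∧ ¬ Squarefree k) k
    by_cases hc : Cop A k
    · rw [if_pos hc]
      by_cases h1 : k = 1
      · rw [if_pos h1]; linarith
      · by_cases hsq : Squarefree k
        · by_cases hg : Good A k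
          · rw [if_pos (⟨by omega, hg⟩ : 2 ≤ k ∧ Good A k)]
            linarith
          · have : ∃ j e : ℕ, 1 ≤ j ∧ j < k ∧ IsSquare (k * j * e.factorial) := by
              by_contra hcon
              apply hg
              refine ⟨hsq, hc, ?_⟩
              intro j e hj hjk hs
              exact hcon ⟨j, e, hj, hjk, hs⟩
            obtain ⟨j, e, hj, hjk, hs⟩ := this
            obtain ⟨hg1, hg2⟩ := bad_structure hsq hj hjk hs
            have hgp : gPart e k = ∏ q ∈ k.primeFactors.filter (· ≤ e), q := rfl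
            rw [← hgp] at hg1 hg2
            have hAe : A ≤ e := by
              by_contra hcon
              have : k.primeFactors.filter (· ≤ e) = ∅ := by
                rw [Finset.filter_eq_empty_iff]
                intro q hq hqe
                have := hc q (Nat.prime_of_mem_primeFactors hq) (Nat.dvd_of_mem_primeFactors hq)
                omega
              rw [hgp, this] at hg1
              simp at hg1
            have hexp : (Real.exp (e / 16)) ^ 2 < gPart e k := by
              have h1 := hE₁ e (by omega)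
              have h2 : ((∏ q ∈ (Finset.Ioc (e / 2) e).filter Nat.Prime, q : ℕ) : ℝ) <
                  (gPart e k : ℝ) ^ 2 := by exact_mod_cast hg2
              have h3 : Real.exp (e / 4) = ((Real.exp (e / 16)) ^ 2) ^ 2 := by
                rw [← Real.exp_nat_mul, ← Real.exp_nat_mul]
                congr 1; push_cast; ring
              rw [h3] at h1
              have h4 := h1.trans_lt h2
              exact (pow_lt_pow_iff_left₀ (by positivity) (by positivity) two_ne_zero).1 h4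
            have hgk : gPart e k ≤ Y := by
              have : gPart e k ∣ k :=
                (Finset.prod_dvd_prod_of_subset _ _ _ (Finset.filter_subset _ _)).trans
                  (Nat.prod_primeFactors_dvd k)
              exact (Nat.le_of_dvd (by omega) this).trans hk.2
            have heY : e < 8 * Y := by
              have h1 : (Real.exp (e / 16)) ^ 2 = Real.exp (e / 8) := by
                rw [← Real.exp_nat_mul]; congr 1; push_cast; ring
              rw [h1] at hexp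
              have h2 : (e : ℝ) / 8 + 1 ≤ Real.exp (e / 8) := Real.add_one_le_exp _
              have h3 : (gPart e k : ℝ) ≤ Y := by exact_mod_cast hgk
              have h4 : (e : ℝ) < 8 * Y := by linarith
              exact_mod_cast h4
            have h5 : f k ≤ ∑ e ∈ Finset.Ico A (8 * Y),
                if Cop A k ∧ (Real.exp (e / 16)) ^ 2 < gPart e k then f k else 0 := by
              have e0 : f k = if Cop A k ∧ (Real.exp (e / 16)) ^ 2 < gPart e k then f k else 0 := by
                rw [if_pos ⟨hc, hexp⟩]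
              calc f k = if Cop A k ∧ (Real.exp (e / 16)) ^ 2 < gPart e k then f k else 0 := e0
                _ ≤ _ := Finset.single_le_sum (f := fun e : ℕ =>
                      if Cop A k ∧ (Real.exp (e / 16)) ^ 2 < gPart e k then f k else 0)
                    (fun e _ => hite _ k) (Finset.mem_Ico.2 ⟨hAe, heY⟩)
            linarith
        · rw [if_pos (⟨hc, hsq⟩ : Cop A k ∧ ¬ Squarefree k)]
          linarith
    · rw [if_neg hc]
      linarith
  have hsum := Finset.sum_le_sum hdec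
  rw [Finset.sum_add_distrib, Finset.sum_add_distrib, Finset.sum_add_distrib, Finset.sum_comm,
    ← Finset.sum_filter] at hsum
  have t1 : ∑ k ∈ Finset.Icc 1 Y, (if k = 1 then f k else 0) ≤ 1 := by
    rw [Finset.sum_ite_eq']
    split_ifs
    · simp [f]
    · norm_num
  have t2 : ∑ k ∈ Finset.Icc 1 Y, (if 2 ≤ k ∧ Good A k then f k else 0) =
      ∑ k ∈ (Finset.Icc 2 Y).filter (Good A), (1 / (k : ℝ)) := by
    rw [← Finset.sum_filter]
    refine Finset.sum_congr ?_ fun _ _ => rfl
    ext k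
    simp only [Finset.mem_filter, Finset.mem_Icc]
    constructor
    · rintro ⟨⟨_, h1⟩, h2, h3⟩; exact ⟨⟨h2, h1⟩, h3⟩
    · rintro ⟨⟨h2, h1⟩, h3⟩; exact ⟨⟨by omega, h1⟩, h2, h3⟩
  have t3 : ∑ k ∈ Finset.Icc 1 Y, (if Cop A k ∧ ¬ Squarefree k then f k else 0) ≤ 1 / 4 * SW := by
    rw [← Finset.sum_filter]
    refine (nonsq_sum A Y (by omega)).trans ?_
    apply mul_le_mul_of_nonneg_right _ hSW0
    apply one_div_le_one_div_of_le <;> linarith
  have t4 : ∑ e ∈ Finset.Ico A (8 * Y), ∑ k ∈ Finset.Icc 1 Y,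
      (if Cop A k ∧ (Real.exp (e / 16)) ^ 2 < gPart e k then f k else 0) ≤ 1 / 4 * SW := by
    have h1 : ∀ e ∈ Finset.Ico A (8 * Y), (∑ k ∈ Finset.Icc 1 Y,
      (if Cop A k ∧ (Real.exp (e / 16)) ^ 2 < gPart e k then f k else 0)) ≤
        1 / ((e : ℝ) * e) * SW := by
      intro e he
      rw [← Finset.sum_filter]
      refine (bad_sum A Y e (Real.exp (e / 16)) (Real.exp_pos _)).trans ?_
      apply mul_le_mul_of_nonneg_right _ hSW0
      apply hE₂
      have := (Finset.mem_Ico.1 he).1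
      omega
    refine (Finset.sum_le_sum h1).trans ?_
    rw [← Finset.sum_mul]
    apply mul_le_mul_of_nonneg_right _ hSW0
    have h4 : ∀ M : ℕ, A ≤ M → ∑ q ∈ Finset.Ico A M, 1 / ((q : ℝ) * q) ≤
        1 / ((A : ℝ) - 1) - 1 / ((M : ℝ) - 1) := by
      intro M hM
      induction M, hM using Nat.le_induction with
      | base => simp
      | succ M hM ih =>
        rw [Finset.sum_Ico_succ_top hM]
        have hM' : (2 : ℝ) ≤ M := by
          have : 2 ≤ M := by omega
          exact_mod_cast this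
        have : 1 / ((M : ℝ) * M) ≤ 1 / ((M : ℝ) - 1) - 1 / (((M + 1 : ℕ) : ℝ) - 1) := by
          push_cast
          rw [add_sub_cancel_right, div_sub_div _ _ (by linarith) (by linarith),
            div_le_div_iff₀ (by positivity) (by
              have : (0 : ℝ) < M - 1 := by linarith
              positivity)]
          nlinarith
        linarith
    rcases Nat.lt_or_ge (8 * Y) A with h | h
    · rw [Finset.Ico_eq_empty_of_le (by omega)]
      simp
    · have h5 := h4 (8 * Y) h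
      have h6 : 0 ≤ 1 / (((8 * Y : ℕ) : ℝ) - 1) := by
        have : (5 : ℝ) ≤ ((8 * Y : ℕ) : ℝ) := by
          have : 5 ≤ 8 * Y := by omega
          exact_mod_cast this
        have : (0 : ℝ) < ((8 * Y : ℕ) : ℝ) - 1 := by linarith
        positivity
      have h7 : 1 / ((A : ℝ) - 1) ≤ 1 / 4 := by
        apply one_div_le_one_div_of_le <;> linarith
      linarith
  rw [t2] at hsum
  have hfin : SW ≤ 1 + ∑ k ∈ (Finset.Icc 2 Y).filter (Good A), (1 / (k : ℝ)) +
      1 / 4 * SW + 1 / 4 * SW := by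
    refine hsum.trans ?_
    gcongr
  have hx : (1 : ℝ) ≤ 1 / 8 * Real.log Y / Real.sqrt A := by
    rw [le_div_iff₀ hsA]
    linarith
  have hy : 1 / 2 / Real.sqrt A * Real.log Y = 4 * (1 / 8 * Real.log Y / Real.sqrt A) := by
    ring
  rw [hy] at hlow
  linarith

end Pool.Agent.H86.D6
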