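import Mathlib

/-!
# Sets with many more sums than differences and many more products than ratios
-/

open Finset

namespace Pool.Agent.H86.MstdMptr

/-- Conway's set. -/
def S0 : Finset ℕ := {0, 2, 3, 4, 7, 11, 12, 14}

def SS0 : Finset ℕ := image₂ (fun a b : ℕ => a + b) S0 S0
def DD0 : Finset ℤ := image₂ (fun a b : ℕ => (a : ℤ) - b) S0 S0

theorem card_SS0 : SS0.card = 26 := by decide +kernel
theorem card_DD0 : DD0.card = 25 := by decide +kernel
theorem card_S0 : S0.card = 8 := by decide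
theorem SS0_le : ∀ a ∈ SS0, a < 29 := by decide +kernel
theorem S0_le : ∀ a ∈ S0, a ≤ 14 := by decide

/-- numbers with `r` digits from `S0` in base 29. -/
def S : ℕ → Finset ℕ
  | 0 => {0}
  | r + 1 => image₂ (fun a s : ℕ => a + 29 * s) S0 (S r)

def SS (r : ℕ) : Finset ℕ := image₂ (fun a b : ℕ => a + b) (S r) (S r)
def DD (r : ℕ) : Finset ℤ := image₂ (fun a b : ℕ => (a : ℤ) - b) (S r) (S r)

theorem zero_mem_S (r : ℕ) : 0 ∈ S r := by
  induction r with
  | zero => simp [S]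
  | succ r ih =>
    rw [S, mem_image₂]
    exact ⟨0, by decide, 0, ih, rfl⟩

theorem S_lt (r : ℕ) : ∀ s ∈ S r, 2 * s < 29 ^ r := by
  induction r with
  | zero => simp [S]
  | succ r ih =>
    intro s hs
    rw [S, mem_image₂] at hs
    obtain ⟨a, ha, t, ht, rfl⟩ := hs
    have h1 := S0_le a ha
    have h2 := ih t ht
    rw [pow_succ]
    omega

theorem card_S_le (r : ℕ) : (S r).card ≤ 8 ^ r := by
  induction r with
  | zero => simp [S]
  | succ r ih =>
    calc (S (r + 1)).card ≤ S0.card * (S r).card := card_image₂_le _ _ _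
      _ ≤ 8 * 8 ^ r := by rw [card_S0]; exact Nat.mul_le_mul_left _ ih
      _ = 8 ^ (r + 1) := by ring

theorem card_SS_ge (r : ℕ) : 26 ^ r ≤ (SS r).card := by
  induction r with
  | zero => simp [SS, S]
  | succ r ih =>
    have h1 : image₂ (fun a s : ℕ => a + 29 * s) SS0 (SS r) ⊆ SS (r + 1) := by
      intro x hx
      rw [mem_image₂] at hx
      obtain ⟨a, ha, s, hs, rfl⟩ := hx
      rw [SS0, mem_image₂] at ha
      rw [SS, mem_image₂] at hs
      obtain ⟨a1, ha1, a2, ha2, rfl⟩ := ha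
      obtain ⟨s1, hs1, s2, hs2, rfl⟩ := hs
      rw [SS, mem_image₂]
      refine ⟨a1 + 29 * s1, ?_, a2 + 29 * s2, ?_, by ring⟩
      · rw [S]; exact mem_image₂_of_mem ha1 hs1
      · rw [S]; exact mem_image₂_of_mem ha2 hs2
    have h2 : (image₂ (fun a s : ℕ => a + 29 * s) SS0 (SS r)).card = SS0.card * (SS r).card := by
      rw [card_image₂_iff]
      rintro ⟨a, s⟩ h ⟨a', s'⟩ h' heq
      simp only [Set.mem_prod, mem_coe] at h h'
      have b1 := SS0_le a h.1
      have b2 := SS0_le a' h'.1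
      simp only at heq
      have : a = a' := by omega
      have : s = s' := by omega
      simp [*]
    calc 26 ^ (r + 1) = 26 * 26 ^ r := by ring
      _ ≤ SS0.card * (SS r).card := by rw [card_SS0]; exact Nat.mul_le_mul_left _ ih
      _ = _ := h2.symm
      _ ≤ (SS (r + 1)).card := card_le_card h1

theorem card_DD_le (r : ℕ) : (DD r).card ≤ 25 ^ r := by
  induction r with
  | zero => simp [DD, S]
  | succ r ih =>
    have h1 : DD (r + 1) ⊆ image₂ (fun a s : ℤ => a + 29 * s) DD0 (DD r) := by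
      intro x hx
      rw [DD, mem_image₂] at hx
      obtain ⟨u, hu, v, hv, rfl⟩ := hx
      rw [S, mem_image₂] at hu hv
      obtain ⟨a1, ha1, s1, hs1, rfl⟩ := hu
      obtain ⟨a2, ha2, s2, hs2, rfl⟩ := hv
      rw [mem_image₂]
      refine ⟨(a1 : ℤ) - a2, mem_image₂_of_mem ha1 ha2, (s1 : ℤ) - s2,
        mem_image₂_of_mem hs1 hs2, by push_cast; ring⟩
    calc (DD (r + 1)).card ≤ _ := card_le_card h1
      _ ≤ DD0.card * (DD r).card := card_image₂_le _ _ _
      _ ≤ 25 * 25 ^ r := by rw [card_DD0]; exact Nat.mul_le_mul_left _ ih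
      _ = 25 ^ (r + 1) := by ring

/-! ### the skeleton -/

/-- a basis of an interval -/
def B0 (g : ℕ) : Finset ℕ := Icc 1 g ∪ (Icc 1 g).image (fun j => g * j)

def B (r g : ℕ) : Finset ℕ := image₂ (fun s b : ℕ => 3 * g ^ 2 * s + b) (S r) (B0 g)

def Pr (N : ℕ) : Finset ℕ := (Icc 3 N).filter Nat.Prime

def M (r N : ℕ) : Finset ℕ := image₂ (fun s p : ℕ => 2 ^ s * p) (S r) (Pr N)

def A (r g N : ℕ) : Finset ℕ := B r g ∪ M r N

theorem B0_bd {g b : ℕ} (hb : b ∈ B0 g) : 1 ≤ b ∧ b ≤ g ^ 2 := by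
  rw [B0, mem_union, mem_image] at hb
  rcases hb with h | ⟨j, h, rfl⟩
  · rw [mem_Icc] at h
    refine ⟨h.1, h.2.trans ?_⟩
    exact Nat.le_self_pow two_ne_zero g
  · rw [mem_Icc] at h
    constructor
    · have : 1 ≤ g := h.1.trans h.2
      exact Nat.mul_pos this h.1
    · rw [sq]; exact Nat.mul_le_mul_left _ h.2

theorem card_B0_le (g : ℕ) : (B0 g).card ≤ 2 * g := by
  calc (B0 g).card ≤ (Icc 1 g).card + ((Icc 1 g).image (fun j => g * j)).card := card_union_le _ _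
    _ ≤ (Icc 1 g).card + (Icc 1 g).card := Nat.add_le_add_left card_image_le _
    _ = 2 * g := by simp; ring

theorem card_B_le (r g : ℕ) : (B r g).card ≤ 8 ^ r * (2 * g) :=
  (card_image₂_le _ _ _).trans (Nat.mul_le_mul (card_S_le r) (card_B0_le g))

theorem card_M_le (r N : ℕ) : (M r N).card ≤ 8 ^ r * (Pr N).card :=
  (card_image₂_le _ _ _).trans (Nat.mul_le_mul_right _ (card_S_le r))

/-- every element of `A` is `3 g^2 s + b` with `s ∈ S r`, `1 ≤ b ≤ g^2`. -/
theorem A_form {r g N : ℕ} (hN : 2 ^ (29 ^ r) * N ≤ g ^ 2) {a : ℕ} (ha : a ∈ A r g N) :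
    ∃ s ∈ S r, ∃ b, 1 ≤ b ∧ b ≤ g ^ 2 ∧ a = 3 * g ^ 2 * s + b := by
  rw [A, mem_union] at ha
  rcases ha with h | h
  · rw [B, mem_image₂] at h
    obtain ⟨s, hs, b, hb, rfl⟩ := h
    exact ⟨s, hs, b, (B0_bd hb).1, (B0_bd hb).2, rfl⟩
  · rw [M, mem_image₂] at h
    obtain ⟨s, hs, p, hp, rfl⟩ := h
    refine ⟨0, zero_mem_S r, 2 ^ s * p, ?_, ?_, by ring⟩
    · have h1 := (mem_filter.1 hp).2.pos
      exact Nat.mul_pos (by positivity) h1
    · have h1 := (mem_Icc.1 (mem_filter.1 hp).1).2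
      have h2 := S_lt r s hs
      calc 2 ^ s * p ≤ 2 ^ (29 ^ r) * N := by
            apply Nat.mul_le_mul _ h1
            apply Nat.pow_le_pow_right (by norm_num)
            omega
        _ ≤ g ^ 2 := hN

theorem sums_ge {r g N : ℕ} (hg : 1 ≤ g) :
    26 ^ r * g ^ 2 ≤ (image₂ (fun a b : ℕ => a + b) (A r g N) (A r g N)).card := by
  have h1 : image₂ (fun s u : ℕ => 3 * g ^ 2 * s + u) (SS r) (Ioc g (g + g ^ 2)) ⊆
      image₂ (fun a b : ℕ => a + b) (A r g N) (A r g N) := by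
    intro x hx
    rw [mem_image₂] at hx
    obtain ⟨s, hs, u, hu, rfl⟩ := hx
    rw [SS, mem_image₂] at hs
    obtain ⟨s1, hs1, s2, hs2, rfl⟩ := hs
    rw [mem_Ioc] at hu
    -- u = i + g * j
    obtain ⟨i, j, hi1, hi2, hj1, hj2, rfl⟩ : ∃ i j, 1 ≤ i ∧ i ≤ g ∧ 1 ≤ j ∧ j ≤ g ∧ u = i + g * j := by
      refine ⟨(u - 1) % g + 1, (u - 1) / g, by omega, ?_, ?_, ?_, ?_⟩
      · have := Nat.mod_lt (u - 1) hg
        omega
      · rw [Nat.le_div_iff_mul_le hg]; omega
      · have : (u - 1) / g < g + 1 := by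
          rw [Nat.div_lt_iff_lt_mul hg]
          have h3 : (g + 1) * g = g + g ^ 2 := by ring
          omega
        omega
      · have := Nat.mod_add_div (u - 1) g
        omega
    rw [mem_image₂]
    refine ⟨3 * g ^ 2 * s1 + i, ?_, 3 * g ^ 2 * s2 + g * j, ?_, by ring⟩
    · rw [A, mem_union]; left
      apply mem_image₂_of_mem hs1
      rw [B0, mem_union]; left; rw [mem_Icc]; exact ⟨hi1, hi2⟩
    · rw [A, mem_union]; left
      apply mem_image₂_of_mem hs2
      rw [B0, mem_union]; right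
      exact mem_image_of_mem _ (mem_Icc.2 ⟨hj1, hj2⟩)
  have h2 : (image₂ (fun s u : ℕ => 3 * g ^ 2 * s + u) (SS r) (Ioc g (g + g ^ 2))).card =
      (SS r).card * (Ioc g (g + g ^ 2)).card := by
    rw [card_image₂_iff]
    rintro ⟨s, u⟩ h ⟨s', u'⟩ h' heq
    simp only [Set.mem_prod, mem_coe, mem_Ioc] at h h'
    simp only at heq
    have hgg : g ≤ g ^ 2 := Nat.le_self_pow two_ne_zero g
    have hg2 : 0 < g ^ 2 := by positivity
    have b1 : u < 3 * g ^ 2 := by omega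
    have b2 : u' < 3 * g ^ 2 := by omega
    have e1 : s = s' := by
      have h3 : (3 * g ^ 2 * s + u) / (3 * g ^ 2) = s := by
        rw [Nat.mul_add_div (by omega), Nat.div_eq_of_lt b1, add_zero]
      have h4 : (3 * g ^ 2 * s' + u') / (3 * g ^ 2) = s' := by
        rw [Nat.mul_add_div (by omega), Nat.div_eq_of_lt b2, add_zero]
      rw [← h3, ← h4, heq]
    subst e1
    have : u = u' := by omega
    simp [this]
  rw [Nat.card_Ioc, Nat.add_sub_cancel_left] at h2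
  calc 26 ^ r * g ^ 2 ≤ (SS r).card * g ^ 2 := Nat.mul_le_mul_right _ (card_SS_ge r)
    _ = _ := h2.symm
    _ ≤ _ := card_le_card h1

theorem diffs_le {r g N : ℕ} (hg : 1 ≤ g) (hN : 2 ^ (29 ^ r) * N ≤ g ^ 2) :
    (image₂ (fun a b : ℕ => (a : ℤ) - b) (A r g N) (A r g N)).card ≤ 25 ^ r * (3 * g ^ 2) := by
  have h1 : image₂ (fun a b : ℕ => (a : ℤ) - b) (A r g N) (A r g N) ⊆
      image₂ (fun d v : ℤ => 3 * (g : ℤ) ^ 2 * d + v) (DD r) (Icc (-(g : ℤ) ^ 2) ((g : ℤ) ^ 2)) := by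
    intro x hx
    rw [mem_image₂] at hx
    obtain ⟨a, ha, b, hb, rfl⟩ := hx
    obtain ⟨s, hs, u, hu1, hu2, rfl⟩ := A_form hN ha
    obtain ⟨t, ht, v, hv1, hv2, rfl⟩ := A_form hN hb
    rw [mem_image₂]
    refine ⟨(s : ℤ) - t, mem_image₂_of_mem hs ht, (u : ℤ) - v, ?_, by push_cast; ring⟩
    rw [mem_Icc]
    have h1 : (u : ℤ) ≤ (g : ℤ) ^ 2 := by exact_mod_cast hu2
    have h2 : (v : ℤ) ≤ (g : ℤ) ^ 2 := by exact_mod_cast hv2
    have h3 : (1 : ℤ) ≤ u := by exact_mod_cast hu1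
    have h4 : (1 : ℤ) ≤ v := by exact_mod_cast hv1
    constructor <;> linarith
  have hcard : (Icc (-(g : ℤ) ^ 2) ((g : ℤ) ^ 2)).card ≤ 3 * g ^ 2 := by
    rw [Int.card_Icc]
    have h2 : (1 : ℤ) ≤ (g : ℤ) ^ 2 := by
      have : 1 ≤ g ^ 2 := Nat.one_le_pow _ _ hg
      exact_mod_cast this
    have h3 : ((g : ℤ) ^ 2 + 1 - -(g : ℤ) ^ 2).toNat ≤ (3 * (g : ℤ) ^ 2).toNat := by
      apply Int.toNat_le_toNat
      linarith
    have h4 : (3 * (g : ℤ) ^ 2).toNat = 3 * g ^ 2 := by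
      have : (3 * (g : ℤ) ^ 2) = ((3 * g ^ 2 : ℕ) : ℤ) := by push_cast; ring
      rw [this, Int.toNat_natCast]
    rw [h4] at h3
    exact h3
  calc _ ≤ _ := card_le_card h1
    _ ≤ (DD r).card * (Icc (-(g : ℤ) ^ 2) ((g : ℤ) ^ 2)).card := card_image₂_le _ _ _
    _ ≤ _ := Nat.mul_le_mul (card_DD_le r) hcard

theorem two_pow_mul_inj {s s' m m' : ℕ} (hm : Odd m) (hm' : Odd m') (h : 2 ^ s * m = 2 ^ s' * m') :
    s = s' ∧ m = m' := by
  have key : ∀ {s s' m m' : ℕ}, Odd m → Odd m' → 2 ^ s * m = 2 ^ s' * m' → s ≤ s' → s = s' := by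
    intro s s' m m' hm hm' h hs
    obtain ⟨k, rfl⟩ := Nat.exists_eq_add_of_le hs
    rw [pow_add, mul_assoc] at h
    have h1 : m = 2 ^ k * m' := Nat.eq_of_mul_eq_mul_left (by positivity) h
    rcases k with _ | k
    · rfl
    · exfalso
      rw [h1, pow_succ] at hm
      rw [Nat.odd_iff] at hm
      have : (2 ^ k * 2 * m') % 2 = 0 := by
        rw [mul_comm (2 ^ k) 2, mul_assoc, Nat.mul_mod_right]
      omega
  have h1 : s = s' := by
    rcases le_total s s' with h' | h'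
    · exact key hm hm' h h'
    · exact (key hm' hm h.symm h').symm
  subst h1
  exact ⟨rfl, Nat.eq_of_mul_eq_mul_left (by positivity) h⟩

theorem Pr_odd {N p : ℕ} (hp : p ∈ Pr N) : Odd p := by
  have h1 := (mem_filter.1 hp).2
  have h2 := (mem_Icc.1 (mem_filter.1 hp).1).1
  rcases h1.eq_two_or_odd' with h | h
  · omega
  · exact h

theorem prods_ge {r g N : ℕ} :
    26 ^ r * (Pr N).card ^ 2 ≤
      2 * (image₂ (fun a b : ℕ => a * b) (A r g N) (A r g N)).card := by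
  let f : ℕ × (ℕ × ℕ) → ℕ := fun x => 2 ^ x.1 * (x.2.1 * x.2.2)
  have h1 : ((SS r) ×ˢ ((Pr N) ×ˢ (Pr N))).image f ⊆
      image₂ (fun a b : ℕ => a * b) (A r g N) (A r g N) := by
    intro y hy
    rw [mem_image] at hy
    obtain ⟨⟨s, p, q⟩, h, rfl⟩ := hy
    simp only [mem_product] at h
    obtain ⟨hs, hp, hq⟩ := h
    rw [SS, mem_image₂] at hs
    obtain ⟨s1, hs1, s2, hs2, rfl⟩ := hs
    rw [mem_image₂]
    refine ⟨2 ^ s1 * p, ?_, 2 ^ s2 * q, ?_, ?_⟩
    · rw [A, mem_union]; right; exact mem_image₂_of_mem hs1 hp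
    · rw [A, mem_union]; right; exact mem_image₂_of_mem hs2 hq
    · simp only [f]; rw [pow_add]; ring
  have h2 : ((SS r) ×ˢ ((Pr N) ×ˢ (Pr N))).card ≤
      2 * (((SS r) ×ˢ ((Pr N) ×ˢ (Pr N))).image f).card := by
    apply card_le_mul_card_image
    intro y hy
    rw [mem_image] at hy
    obtain ⟨⟨s, p, q⟩, h, rfl⟩ := hy
    simp only [mem_product] at h
    obtain ⟨hs, hp, hq⟩ := h
    have hsub : (((SS r) ×ˢ ((Pr N) ×ˢ (Pr N))).filter (fun x => f x = f (s, p, q))) ⊆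
        {(s, p, q), (s, q, p)} := by
      rintro ⟨s', p', q'⟩ h'
      simp only [mem_filter, mem_product] at h'
      obtain ⟨⟨hs', hp', hq'⟩, heq⟩ := h'
      simp only [f] at heq
      obtain ⟨e1, e2⟩ := two_pow_mul_inj ((Pr_odd hp').mul (Pr_odd hq')) ((Pr_odd hp).mul (Pr_odd hq)) heq
      subst e1
      have pp := (mem_filter.1 hp).2
      have pq := (mem_filter.1 hq).2
      have pp' := (mem_filter.1 hp').2
      have pq' := (mem_filter.1 hq').2
      simp only [mem_insert, mem_singleton, Prod.mk.injEq, true_and]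
      have hd : p' ∣ p * q := by rw [← e2]; exact Dvd.intro _ rfl
      rcases (pp'.dvd_mul).1 hd with h | h
      · have : p' = p := (Nat.prime_dvd_prime_iff_eq pp' pp).1 h
        subst this
        left
        exact ⟨rfl, Nat.eq_of_mul_eq_mul_left pp'.pos e2⟩
      · have : p' = q := (Nat.prime_dvd_prime_iff_eq pp' pq).1 h
        subst this
        right
        refine ⟨rfl, ?_⟩
        rw [mul_comm p p'] at e2
        exact Nat.eq_of_mul_eq_mul_left pp'.pos e2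
    calc _ ≤ _ := card_le_card hsub
      _ ≤ 2 := card_le_two
  rw [card_product, card_product] at h2
  calc 26 ^ r * (Pr N).card ^ 2 ≤ (SS r).card * (Pr N).card ^ 2 :=
        Nat.mul_le_mul_right _ (card_SS_ge r)
    _ = (SS r).card * ((Pr N).card * (Pr N).card) := by ring
    _ ≤ _ := h2
    _ ≤ _ := Nat.mul_le_mul_left _ (card_le_card h1)

theorem ratios_le {r g N : ℕ} :
    (image₂ (fun a b : ℕ => (a : ℚ) / b) (A r g N) (A r g N)).card ≤
      25 ^ r * (Pr N).card ^ 2 + 2 * ((8 ^ r * (2 * g)) * (8 ^ r * (Pr N).card)) +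
        (8 ^ r * (2 * g)) ^ 2 := by
  let q : ℕ → ℕ → ℚ := fun a b => (a : ℚ) / b
  have h1 : image₂ q (A r g N) (A r g N) ⊆
      (image₂ (fun (d : ℤ) (x : ℕ × ℕ) => (2 : ℚ) ^ d * ((x.1 : ℚ) / x.2)) (DD r)
        ((Pr N) ×ˢ (Pr N))) ∪ (image₂ q (B r g) (M r N) ∪ image₂ q (M r N) (B r g)) ∪
        image₂ q (B r g) (B r g) := by
    intro x hx
    rw [mem_image₂] at hx
    obtain ⟨a, ha, b, hb, rfl⟩ := hx
    rw [A, mem_union] at ha hb
    simp only [mem_union]
    rcases ha with ha | ha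
    · rcases hb with hb | hb
      · right; exact mem_image₂_of_mem ha hb
      · left; right; left; exact mem_image₂_of_mem ha hb
    · rcases hb with hb | hb
      · left; right; right; exact mem_image₂_of_mem ha hb
      · left; left
        rw [M, mem_image₂] at ha hb
        obtain ⟨s, hs, p, hp, rfl⟩ := ha
        obtain ⟨t, ht, p', hp', rfl⟩ := hb
        rw [mem_image₂]
        refine ⟨(s : ℤ) - t, mem_image₂_of_mem hs ht, (p, p'), mem_product.2 ⟨hp, hp'⟩, ?_⟩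
        simp only [q]
        rw [zpow_sub₀ (by norm_num), zpow_natCast, zpow_natCast]
        push_cast
        rw [div_mul_div_comm]
  have c1 := card_image₂_le (fun (d : ℤ) (x : ℕ × ℕ) => (2 : ℚ) ^ d * ((x.1 : ℚ) / x.2)) (DD r)
        ((Pr N) ×ˢ (Pr N))
  rw [card_product] at c1
  have c2 := card_image₂_le q (B r g) (M r N)
  have c3 := card_image₂_le q (M r N) (B r g)
  have c4 := card_image₂_le q (B r g) (B r g)
  have cB := card_B_le r g
  have cM := card_M_le r N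
  have cD := card_DD_le r
  have u1 := card_le_card h1
  have u2 := card_union_le ((image₂ (fun (d : ℤ) (x : ℕ × ℕ) => (2 : ℚ) ^ d * ((x.1 : ℚ) / x.2)) (DD r)
        ((Pr N) ×ˢ (Pr N))) ∪ (image₂ q (B r g) (M r N) ∪ image₂ q (M r N) (B r g)))
        (image₂ q (B r g) (B r g))
  have u3 := card_union_le (image₂ (fun (d : ℤ) (x : ℕ × ℕ) => (2 : ℚ) ^ d * ((x.1 : ℚ) / x.2)) (DD r)
        ((Pr N) ×ˢ (Pr N))) (image₂ q (B r g) (M r N) ∪ image₂ q (M r N) (B r g))
  have u4 := card_union_le (image₂ q (B r g) (M r N)) (image₂ q (M r N) (B r g))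
  have m1 : (DD r).card * ((Pr N).card * (Pr N).card) ≤ 25 ^ r * (Pr N).card ^ 2 := by
    rw [sq]; exact Nat.mul_le_mul_right _ cD
  have m2 : (B r g).card * (M r N).card ≤ (8 ^ r * (2 * g)) * (8 ^ r * (Pr N).card) :=
    Nat.mul_le_mul cB cM
  have m3 : (M r N).card * (B r g).card ≤ (8 ^ r * (2 * g)) * (8 ^ r * (Pr N).card) := by
    rw [mul_comm]; exact m2
  have m4 : (B r g).card * (B r g).card ≤ (8 ^ r * (2 * g)) ^ 2 := by
    rw [sq]; exact Nat.mul_le_mul cB cB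
  change (image₂ q (A r g N) (A r g N)).card ≤ _
  omega

/-- there are many more than `m` primes up to `m^2`. -/
theorem many_primes (K : ℕ) : ∃ m : ℕ, 1 ≤ m ∧ K * m ≤ Nat.primeCounting (m ^ 2) := by
  obtain ⟨j, hj⟩ : ∃ j, j = 2 * K + 4 := ⟨_, rfl⟩
  refine ⟨2 ^ j, Nat.one_le_two_pow, ?_⟩
  have hj2 : j ^ 2 ≤ 2 ^ j := by
    have : ∀ n : ℕ, 4 ≤ n → n ^ 2 ≤ 2 ^ n := by
      intro n hn
      induction n, hn using Nat.le_induction with
      | base => norm_num
      | succ n hn ih =>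
        rw [pow_succ 2 n]
        nlinarith
    exact this j (by omega)
  have h1 := Chebyshev.pi_ge ((2 ^ j) ^ 2)
  have hl2 : 0 < Real.log 2 := Real.log_pos (by norm_num)
  have hjpos : (0 : ℝ) < j := by
    have : 0 < j := by omega
    exact_mod_cast this
  have hlog : Real.log (((2 ^ j) ^ 2 : ℕ) : ℝ) = 2 * j * Real.log 2 := by
    push_cast
    rw [← pow_mul, Real.log_pow]
    push_cast; ring
  have hlog2 : Real.log ((((2 ^ j) ^ 2 : ℕ) : ℝ) + 1) ≤ (2 * j + 1) * Real.log 2 := by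
    have e : (2 * (j : ℝ) + 1) * Real.log 2 = Real.log (2 ^ (2 * j + 1)) := by
      rw [Real.log_pow]; push_cast; ring
    rw [e]
    apply Real.log_le_log (by positivity)
    push_cast
    have h3 : (1 : ℝ) ≤ (2 ^ j) ^ 2 := one_le_pow₀ (one_le_pow₀ (by norm_num))
    calc ((2 : ℝ) ^ j) ^ 2 + 1 ≤ (2 ^ j) ^ 2 + (2 ^ j) ^ 2 := by linarith
      _ = 2 ^ (2 * j + 1) := by ring
  rw [hlog] at h1
  have h2 : ((K * 2 ^ j : ℕ) : ℝ) ≤ ((((2 ^ j) ^ 2 : ℕ) : ℝ) * Real.log 2 -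
      Real.log ((((2 ^ j) ^ 2 : ℕ) : ℝ) + 1)) / (2 * j * Real.log 2) := by
    rw [le_div_iff₀ (by positivity)]
    have h4 : (K : ℝ) * 2 ^ j * (2 * j) + (2 * j + 1) ≤ (2 ^ j) ^ 2 := by
      have : K * 2 ^ j * (2 * j) + (2 * j + 1) ≤ (2 ^ j) ^ 2 := by
        have a1 : (2 * K + 4) * j ≤ 2 ^ j := by rw [← hj, ← sq]; exact hj2
        have a2 : 1 ≤ 2 ^ j := Nat.one_le_two_pow
        have a3 : 1 ≤ j := by omega
        calc K * 2 ^ j * (2 * j) + (2 * j + 1) ≤ K * 2 ^ j * (2 * j) + 4 * j * 2 ^ j := by nlinarith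
          _ = ((2 * K + 4) * j) * 2 ^ j := by ring
          _ ≤ 2 ^ j * 2 ^ j := Nat.mul_le_mul_right _ a1
          _ = (2 ^ j) ^ 2 := by ring
      exact_mod_cast this
    push_cast
    push_cast at hlog2
    nlinarith
  exact_mod_cast h2.trans h1

/-- For every `C` there is a finite nonempty set `A` of positive integers with
`|A + A| > C |A - A|` and `|A · A| > C |A / A|`. -/
theorem main (C : ℕ) : ∃ A : Finset ℕ, A.Nonempty ∧ (∀ a ∈ A, 0 < a) ∧
    C * (image₂ (fun a b : ℕ => (a : ℤ) - (b : ℤ)) A A).card <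
      (image₂ (fun a b : ℕ => a + b) A A).card ∧
    C * (image₂ (fun a b : ℕ => (a : ℚ) / (b : ℚ)) A A).card <
      (image₂ (fun a b : ℕ => a * b) A A).card := by
  -- choice of `r`
  obtain ⟨r, hr⟩ : ∃ r : ℕ, 6 * C * 25 ^ r < 26 ^ r := by
    obtain ⟨r, hr⟩ := pow_unbounded_of_one_lt (6 * C : ℝ) (show (1 : ℝ) < 26 / 25 by norm_num)
    refine ⟨r, ?_⟩
    rw [div_pow, lt_div_iff₀ (by positivity)] at hr
    exact_mod_cast hr
  -- choice of `m`
  obtain ⟨m, hm1, hm⟩ := many_primes (4 * 64 ^ r * 2 ^ (29 ^ r) + 1)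
  set H := 2 ^ (29 ^ r) with hH
  have hHpos : 0 < H := by positivity
  set g := H * m with hg
  set N := H * m ^ 2 with hN
  have hg1 : 1 ≤ g := Nat.mul_pos hHpos hm1
  have hNg : H * N ≤ g ^ 2 := by
    rw [hg, hN]; apply le_of_eq; ring
  have hP : 4 * g * 64 ^ r ≤ (Pr N).card := by
    have h1 : Nat.primeCounting (m ^ 2) ≤ (Pr N).card + 1 := by
      rw [Nat.primeCounting, Nat.primeCounting', Nat.count_eq_card_filter_range]
      have : (range (m ^ 2 + 1)).filter Nat.Prime ⊆ insert 2 (Pr N) := by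
        intro p hp
        rw [mem_filter, mem_range] at hp
        rw [mem_insert, Pr, mem_filter, mem_Icc]
        by_cases h2 : p = 2
        · left; exact h2
        · right
          refine ⟨⟨?_, ?_⟩, hp.2⟩
          · have := hp.2.two_le
            omega
          · have h3 : m ^ 2 ≤ H * m ^ 2 := Nat.le_mul_of_pos_left _ hHpos
            omega
      exact (card_le_card this).trans (card_insert_le _ _)
    have h2 : 4 * g * 64 ^ r + 1 ≤ (4 * 64 ^ r * H + 1) * m := by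
      rw [hg]
      nlinarith
    omega
  have hPpos : 0 < (Pr N).card := by
    have : 0 < 4 * g * 64 ^ r := by positivity
    omega
  refine ⟨A r g N, ?_, ?_, ?_, ?_⟩
  · obtain ⟨p, hp⟩ := card_pos.1 hPpos
    exact ⟨2 ^ 0 * p, by rw [A, mem_union]; right; exact mem_image₂_of_mem (zero_mem_S r) hp⟩
  · intro a ha
    obtain ⟨s, -, b, hb, -, rfl⟩ := A_form hNg ha
    omega
  · have h1 := sums_ge (r := r) (g := g) (N := N) hg1
    have h2 := diffs_le (r := r) (g := g) (N := N) hg1 hNg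
    have hg2 : 0 < g ^ 2 := by positivity
    calc C * (image₂ (fun a b : ℕ => (a : ℤ) - (b : ℤ)) (A r g N) (A r g N)).card
        ≤ C * (25 ^ r * (3 * g ^ 2)) := Nat.mul_le_mul_left _ h2
      _ ≤ (6 * C * 25 ^ r) * g ^ 2 := by
          have : C * (25 ^ r * (3 * g ^ 2)) * 2 = (6 * C * 25 ^ r) * g ^ 2 := by ring
          omega
      _ < 26 ^ r * g ^ 2 := Nat.mul_lt_mul_of_pos_right hr hg2
      _ ≤ _ := h1
  · have h1 := prods_ge (r := r) (g := g) (N := N)
    have h2 := ratios_le (r := r) (g := g) (N := N)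
    set P := (Pr N).card with hPdef
    have e64 : (64 : ℕ) ^ r = 8 ^ r * 8 ^ r := by rw [← mul_pow]; norm_num
    have h3 : 2 * ((8 ^ r * (2 * g)) * (8 ^ r * P)) ≤ P ^ 2 := by
      calc 2 * ((8 ^ r * (2 * g)) * (8 ^ r * P)) = (4 * g * (8 ^ r * 8 ^ r)) * P := by ring
        _ = (4 * g * 64 ^ r) * P := by rw [e64]
        _ ≤ P * P := Nat.mul_le_mul_right _ hP
        _ = P ^ 2 := by ring
    have h4 : (8 ^ r * (2 * g)) ^ 2 ≤ P ^ 2 := by
      apply Nat.pow_le_pow_left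
      refine le_trans ?_ hP
      rw [e64]
      have : 1 ≤ 8 ^ r := Nat.one_le_pow _ _ (by norm_num)
      nlinarith [Nat.zero_le (g * 8 ^ r)]
    have h5 : (image₂ (fun a b : ℕ => (a : ℚ) / (b : ℚ)) (A r g N) (A r g N)).card ≤
        3 * 25 ^ r * P ^ 2 := by
      have : 1 ≤ 25 ^ r := Nat.one_le_pow _ _ (by norm_num)
      calc _ ≤ 25 ^ r * P ^ 2 + P ^ 2 + P ^ 2 := by omega
        _ ≤ 3 * 25 ^ r * P ^ 2 := by nlinarith [Nat.zero_le (P ^ 2)]
    have hP2 : 0 < P ^ 2 := by positivity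
    have h6 : 2 * (C * (image₂ (fun a b : ℕ => (a : ℚ) / (b : ℚ)) (A r g N) (A r g N)).card) <
        2 * (image₂ (fun a b : ℕ => a * b) (A r g N) (A r g N)).card := by
      calc 2 * (C * (image₂ (fun a b : ℕ => (a : ℚ) / (b : ℚ)) (A r g N) (A r g N)).card)
          ≤ 2 * (C * (3 * 25 ^ r * P ^ 2)) :=
            Nat.mul_le_mul_left _ (Nat.mul_le_mul_left _ h5)
        _ = (6 * C * 25 ^ r) * P ^ 2 := by ring
        _ < 26 ^ r * P ^ 2 := Nat.mul_lt_mul_of_pos_right hr hP2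
        _ ≤ _ := h1
    omega

end Pool.Agent.H86.MstdMptr
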