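import Mathlib
import Pool.Agent.H90.D6.ELower

/-! Proposition D for MP_70e45f_nt. -/

open Finset Filter

namespace D6

/-- the integer square root part of `n` -/
def wpart (n : ℕ) : ℕ := ∏ q ∈ n.primeFactors, q ^ (n.factorization q / 2)

theorem wpart_sq_dvd {n : ℕ} (hn : n ≠ 0) : (wpart n) ^ 2 ∣ n := by
  have h := Nat.prod_factorization_pow_eq_self hn
  rw [Finsupp.prod, Nat.support_factorization] at h
  have h2 : (wpart n) ^ 2 ∣ ∏ q ∈ n.primeFactors, q ^ (n.factorization q) := by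
    rw [wpart, ← Finset.prod_pow]
    apply Finset.prod_dvd_prod_of_dvd
    intro q _
    rw [← pow_mul]
    exact pow_dvd_pow _ (by omega)
  rwa [h] at h2

theorem log_wpart (n : ℕ) : Real.log (wpart n) =
    ∑ q ∈ n.primeFactors, ((n.factorization q / 2 : ℕ) : ℝ) * Real.log q := by
  rw [wpart, Nat.cast_prod, Real.log_prod]
  · refine Finset.sum_congr rfl fun q _ => ?_
    push_cast
    rw [Real.log_pow]
  · intro q hq
    have := (Nat.prime_of_mem_primeFactors hq).pos
    positivity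

theorem sum_half_le (S : Finset ℕ) (n : ℕ) :
    ∑ q ∈ S, ((n.factorization q / 2 : ℕ) : ℝ) * Real.log q ≤ Real.log (wpart n) := by
  rw [log_wpart]
  have h1 : ∑ q ∈ S, ((n.factorization q / 2 : ℕ) : ℝ) * Real.log q =
      ∑ q ∈ S.filter (fun q => q ∈ n.primeFactors),
        ((n.factorization q / 2 : ℕ) : ℝ) * Real.log q := by
    symm
    apply Finset.sum_subset (Finset.filter_subset _ _)
    intro q hq hq'
    simp only [mem_filter, not_and] at hq'
    have := hq' hq
    rw [← Nat.support_factorization, Finsupp.mem_support_iff, not_not] at this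
    rw [this]; simp
  rw [h1]
  apply Finset.sum_le_sum_of_subset_of_nonneg
  · intro q hq
    simp only [mem_filter] at hq
    exact hq.2
  · intro q hq _
    have : 0 ≤ Real.log q := Real.log_nonneg (by
      exact_mod_cast (Nat.prime_of_mem_primeFactors hq).one_le)
    positivity

/-- primes in `(L, e]` with odd valuation in `e!` -/
def PP (L e : ℕ) : Finset ℕ :=
  (Ioc L e).filter (fun q => q.Prime ∧ ¬ Even ((e.factorial).factorization q))

/-- lower bound for the mass of primes with odd valuation in `e!` -/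
theorem odd_mass {x m b c d e : ℕ} (hrep : Rep m b c d e) (hmx : m ≤ x) (hdc : d < c) (t : ℝ)
    (ht : ∀ n ∈ Ioc d c, Real.log (wpart n) ≤ t) :
    ((c - d : ℕ) : ℝ) * Real.log (c / ((c - d : ℕ) : ℝ)) ≤
      (((Ioc 0 (c - d)).filter Nat.Prime).card : ℝ) * Real.log x +
        2 * t * ((c - d : ℕ) : ℝ) + ((m - b : ℕ) : ℝ) * Real.log x +
        ∑ q ∈ PP (c - d) e, Real.log q := by
  obtain ⟨r1, r2, r3, r4, -⟩ := id hrep
  set L := c - d with hL
  have hdL : d + L = c := by omega
  have hL1 : 1 ≤ L := by omega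
  have hx1 : 1 ≤ x := by omega
  have hlogx : 0 ≤ Real.log x := Real.log_nonneg (by exact_mod_cast hx1)
  have hc0 : 0 < c := by omega
  have hcx : Real.log c ≤ Real.log x :=
    Real.log_le_log (by exact_mod_cast hc0) (by exact_mod_cast (by omega : c ≤ x))
  have h1 := log_choose_ge c L hL1 (by omega)
  refine h1.trans ?_
  rw [log_eq_sum_primeFactors]
  set P := (c.choose L).primeFactors with hP
  have hpr : ∀ q ∈ P, q.Prime := fun q hq => Nat.prime_of_mem_primeFactors hq
  rw [← Finset.sum_filter_add_sum_filter_not P (fun q => q ≤ L)]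
  have s1 : ∑ q ∈ P.filter (fun q => q ≤ L), ((c.choose L).factorization q : ℝ) * Real.log q ≤
      (((Ioc 0 L).filter Nat.Prime).card : ℝ) * Real.log x := by
    calc ∑ q ∈ P.filter (fun q => q ≤ L), ((c.choose L).factorization q : ℝ) * Real.log q ≤
        ∑ q ∈ P.filter (fun q => q ≤ L), Real.log x := by
          apply Finset.sum_le_sum
          intro q hq
          exact (factorization_choose_mul_log_le c L q hc0).trans hcx
      _ = ((P.filter (fun q => q ≤ L)).card : ℝ) * Real.log x := by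
          rw [Finset.sum_const, nsmul_eq_mul]
      _ ≤ _ := by
          apply mul_le_mul_of_nonneg_right _ hlogx
          have : P.filter (fun q => q ≤ L) ⊆ (Ioc 0 L).filter Nat.Prime := by
            intro q hq
            simp only [mem_filter, mem_Ioc] at hq ⊢
            exact ⟨⟨(hpr q hq.1).pos, hq.2⟩, hpr q hq.1⟩
          exact_mod_cast Finset.card_le_card this
  set P₂ := P.filter (fun q => ¬ q ≤ L) with hP₂
  have hfac : ∀ q ∈ P₂, (c.choose L).factorization q = ∑ n ∈ Ioc d c, n.factorization q := by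
    intro q hq
    simp only [hP₂, mem_filter, not_le] at hq
    have := factorization_choose_eq (d := d) (L := L) hq.2
    rwa [hdL] at this
  have hLq : ∀ q ∈ P₂, c - d ≤ q := by
    intro q hq
    simp only [hP₂, mem_filter, not_le] at hq
    omega
  have hlq : ∀ q ∈ P₂, 0 ≤ Real.log q := by
    intro q hq
    have : q.Prime := by
      simp only [hP₂, mem_filter] at hq
      exact hpr q hq.1
    exact Real.log_nonneg (by exact_mod_cast this.one_le)
  -- the odd primes
  set O := P₂.filter (fun q => ∃ n ∈ Ioc d c, ¬ Even (n.factorization q)) with hO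
  have s2 : ∑ q ∈ P₂, ((c.choose L).factorization q : ℝ) * Real.log q ≤
      2 * t * (L : ℝ) + ∑ q ∈ O, Real.log q := by
    have e1 : ∑ q ∈ P₂, ((c.choose L).factorization q : ℝ) * Real.log q =
        ∑ q ∈ P₂, (∑ n ∈ Ioc d c, ((n.factorization q % 2 : ℕ) : ℝ)) * Real.log q +
        ∑ n ∈ Ioc d c, 2 * ∑ q ∈ P₂, ((n.factorization q / 2 : ℕ) : ℝ) * Real.log q := by
      simp_rw [Finset.mul_sum]
      rw [Finset.sum_comm (s := Ioc d c), ← Finset.sum_add_distrib]
      refine Finset.sum_congr rfl fun q hq => ?_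
      rw [hfac q hq, Finset.sum_mul, ← Finset.sum_add_distrib, Nat.cast_sum, Finset.sum_mul]
      refine Finset.sum_congr rfl fun n _ => ?_
      have h3 : (n.factorization q : ℝ) = ((n.factorization q % 2 : ℕ) : ℝ) +
          2 * ((n.factorization q / 2 : ℕ) : ℝ) := by
        have := Nat.mod_add_div (n.factorization q) 2
        exact_mod_cast this.symm
      rw [h3]; ring
    have e2 : ∑ n ∈ Ioc d c, 2 * ∑ q ∈ P₂, ((n.factorization q / 2 : ℕ) : ℝ) * Real.log q ≤
        2 * t * (L : ℝ) := by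
      calc ∑ n ∈ Ioc d c, 2 * ∑ q ∈ P₂, ((n.factorization q / 2 : ℕ) : ℝ) * Real.log q
          ≤ ∑ n ∈ Ioc d c, 2 * t := by
            refine Finset.sum_le_sum fun n hn => ?_
            have := (sum_half_le P₂ n).trans (ht n hn)
            linarith
        _ = _ := by
            rw [Finset.sum_const, Nat.card_Ioc, nsmul_eq_mul]; ring
    have e3 : ∑ q ∈ P₂, (∑ n ∈ Ioc d c, ((n.factorization q % 2 : ℕ) : ℝ)) * Real.log q ≤
        ∑ q ∈ O, Real.log q := by
      have hO' : ∑ q ∈ O, Real.log q = ∑ q ∈ P₂,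
          if (∃ n ∈ Ioc d c, ¬ Even (n.factorization q)) then Real.log q else 0 :=
        Finset.sum_filter _ _
      rw [hO']
      refine Finset.sum_le_sum fun q hq => ?_
      split_ifs with hodd
      · have h4 : (∑ n ∈ Ioc d c, ((n.factorization q % 2 : ℕ) : ℝ)) ≤ 1 := by
          obtain ⟨n, hn, hne⟩ := hodd
          have hdvd : q ∣ n := by
            by_contra h2
            apply hne
            rw [Nat.factorization_eq_zero_of_not_dvd h2]
            exact Even.zero
          have h5 : ∑ n ∈ Ioc d c, ((n.factorization q % 2 : ℕ) : ℝ) =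
              ((n.factorization q % 2 : ℕ) : ℝ) := by
            apply Finset.sum_eq_single_of_mem n hn
            intro n' hn' hne'
            have : ¬ q ∣ n' := fun h' => hne' (unique_multiple (hLq q hq) hn' hn h' hdvd)
            rw [Nat.factorization_eq_zero_of_not_dvd this]
            simp
          rw [h5]
          have : n.factorization q % 2 ≤ 1 := by omega
          exact_mod_cast this
        calc _ ≤ 1 * Real.log q := mul_le_mul_of_nonneg_right h4 (hlq q hq)
          _ = Real.log q := one_mul _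
      · have h5 : ∑ n ∈ Ioc d c, ((n.factorization q % 2 : ℕ) : ℝ) = 0 := by
          apply Finset.sum_eq_zero
          intro n hn
          have : Even (n.factorization q) := by
            by_contra h6
            exact hodd ⟨n, hn, h6⟩
          rw [Nat.even_iff.1 this]; simp
        rw [h5, zero_mul]
    rw [e1]
    linarith
  have s3 : ∑ q ∈ O, Real.log q ≤ ((m - b : ℕ) : ℝ) * Real.log x + ∑ q ∈ PP L e, Real.log q := by
    have hO1 : ∀ q ∈ O, q.Prime ∧ ((∃ n' ∈ Ioc b m, q ∣ n') ∨ q ∈ PP L e) := by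
      intro q hq
      simp only [hO, mem_filter] at hq
      obtain ⟨hq2, n, hn, hne⟩ := hq
      have hq2' := hq2
      simp only [hP₂, mem_filter, not_le] at hq2'
      have hq1 : q.Prime := hpr q hq2'.1
      refine ⟨hq1, ?_⟩
      rcases hrep.match2 (q := q) (n := n) (hLq q hq2) hn hne with h5 | h5
      · exact Or.inl h5
      · right
        have h6 : q ≤ e := by
          by_contra h6
          push Not at h6
          apply h5
          rw [factorization_factorial_eq_zero h6]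
          exact Even.zero
        rw [PP, mem_filter, mem_Ioc]
        exact ⟨⟨hq2'.2, h6⟩, hq1, h5⟩
    rw [← Finset.sum_filter_add_sum_filter_not O (fun q => q ∈ PP L e)]
    have t1 : ∑ q ∈ O.filter (fun q => q ∈ PP L e), Real.log q ≤ ∑ q ∈ PP L e, Real.log q := by
      apply Finset.sum_le_sum_of_subset_of_nonneg
      · intro q hq
        exact (mem_filter.1 hq).2
      · intro q hq _
        rw [PP, mem_filter] at hq
        exact Real.log_nonneg (by exact_mod_cast hq.2.1.one_le)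
    have t2 : ∑ q ∈ O.filter (fun q => ¬ q ∈ PP L e), Real.log q ≤
        ((m - b : ℕ) : ℝ) * Real.log x := by
      apply sum_log_dvd_Ioc (x := x) r1.le (by exact_mod_cast hmx) (by exact_mod_cast hx1)
      intro q hq
      simp only [mem_filter] at hq
      obtain ⟨g1, g2⟩ := hO1 q hq.1
      refine ⟨g1, ?_⟩
      rcases g2 with h6 | h6
      · exact h6
      · exact absurd h6 hq.2
    linarith
  linarith

open Classical in
/-- the hitting inequality -/
theorem hit_mass {x m b c d e : ℕ} (hrep : Rep m b c d e) (hmx : m ≤ x) :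
    ∑ q ∈ PP (c - d) e, Real.log q - ((m - b : ℕ) : ℝ) * Real.log x ≤
      ∑ q ∈ (PP (c - d) e).filter (fun q : ℕ => ∃ i : ℕ, 1 ≤ i ∧ i ≤ c - d ∧ q ∣ d + i),
        Real.log q := by
  obtain ⟨r1, r2, r3, r4, -⟩ := id hrep
  have hx1 : 1 ≤ x := by omega
  rw [← Finset.sum_filter_add_sum_filter_not (PP (c - d) e)
    (fun q : ℕ => ∃ i : ℕ, 1 ≤ i ∧ i ≤ c - d ∧ q ∣ d + i)]
  have t2 : ∑ q ∈ (PP (c - d) e).filter
      (fun q : ℕ => ¬ ∃ i : ℕ, 1 ≤ i ∧ i ≤ c - d ∧ q ∣ d + i), Real.log q ≤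
        ((m - b : ℕ) : ℝ) * Real.log x := by
    apply sum_log_dvd_Ioc (x := x) r1.le (by exact_mod_cast hmx) (by exact_mod_cast hx1)
    intro q hq
    simp only [mem_filter, PP] at hq
    refine ⟨hq.1.2.1, ?_⟩
    rcases hrep.match3 hq.1.2.2 with h | ⟨n, hn, hqn⟩
    · exact h
    · exfalso
      rw [mem_Ioc] at hn
      apply hq.2
      exact ⟨n - d, by omega, by omega, by rwa [Nat.add_sub_cancel' hn.1.le]⟩
  linarith

open Classical in
/-- candidates for `d` given `L`, `e` -/
noncomputable def DD (A x L e : ℕ) : Finset ℕ :=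
  (range (x + 1)).filter (fun d =>
    0.61 * (L : ℝ) * Real.log x ≤ ∑ q ∈ PP L e, Real.log q ∧
    ∑ q ∈ PP L e, Real.log q - (A : ℝ) * Real.log x ≤
      ∑ q ∈ (PP L e).filter (fun q : ℕ => ∃ i : ℕ, 1 ≤ i ∧ i ≤ L ∧ q ∣ d + i), Real.log q)

open Classical in
theorem card_window {A x L e N a : ℕ} (hx : 2 ≤ x) (hL : 200 * A ≤ L) (hL1 : 1 ≤ L) (hN : 1 ≤ N)
    (hNx : Real.log N ≤ 0.55 * Real.log x) :
    (((DD A x L e).filter (fun d => a ≤ d ∧ d ≤ a + N)).card : ℝ) ≤ 13 * L := by
  set Z := (DD A x L e).filter (fun d => a ≤ d ∧ d ≤ a + N) with hZ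
  set θ := ∑ q ∈ PP L e, Real.log q with hθ
  have hlogx : 0 < Real.log x := Real.log_pos (by exact_mod_cast hx)
  have hLr : (1 : ℝ) ≤ L := by exact_mod_cast hL1
  have hAL : (A : ℝ) * Real.log x ≤ 0.005 * L * Real.log x := by
    have : (200 : ℝ) * A ≤ L := by exact_mod_cast hL
    nlinarith
  rcases Finset.eq_empty_or_nonempty Z with h0 | ⟨d₀, hd₀⟩
  · rw [h0]; simp
  have hd₀' := hd₀
  simp only [hZ, DD, mem_filter] at hd₀'
  have hth : 0.61 * (L : ℝ) * Real.log x ≤ θ := hd₀'.1.2.1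
  have hLlog : 0 < (L : ℝ) * Real.log x := by positivity
  have hθ0 : 0 < θ := by nlinarith
  have hsieve := larger_sieve N L a (PP L e) Z ((A : ℝ) * Real.log x) hL1 hN (by
    intro d hd
    simp only [hZ, mem_filter] at hd
    exact hd.2) (by
    intro q hq
    simp only [PP, mem_filter, mem_Ioc] at hq
    exact ⟨hq.2.1, hq.1.1⟩) (by positivity) (by
    rw [← hθ]
    nlinarith) (by
    intro d hd
    simp only [hZ, DD, mem_filter] at hd
    exact hd.1.2.2)
  rw [← hθ] at hsieve
  set z : ℝ := (Z.card : ℝ) with hz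
  have hz0 : 0 < z := by
    rw [hz]
    have : 0 < Z.card := Finset.card_pos.2 ⟨d₀, hd₀⟩
    exact_mod_cast this
  -- divide by z
  have h1 : z * (θ - A * Real.log x) ^ 2 ≤ L * θ * (θ + z * Real.log N) := by
    have : z * (z * (θ - A * Real.log x) ^ 2) ≤ z * (L * θ * (θ + z * Real.log N)) := by
      calc z * (z * (θ - A * Real.log x) ^ 2) = z ^ 2 * (θ - A * Real.log x) ^ 2 := by ring
        _ ≤ _ := hsieve
        _ = _ := by ring
    exact le_of_mul_le_mul_left this hz0
  have h2 : θ * (θ - 0.56 * (L * Real.log x)) ≤ (θ - A * Real.log x) ^ 2 - L * θ * Real.log N := by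
    have e1 : L * θ * Real.log N ≤ L * θ * (0.55 * Real.log x) := by
      apply mul_le_mul_of_nonneg_left hNx (by positivity)
    have e2 : θ * (2 * (A * Real.log x)) ≤ θ * (2 * (0.005 * L * Real.log x)) := by
      apply mul_le_mul_of_nonneg_left _ hθ0.le
      linarith
    nlinarith [sq_nonneg (A * Real.log x)]
  have h3 : θ * (θ / 13) ≤ θ * (θ - 0.56 * (L * Real.log x)) := by
    apply mul_le_mul_of_nonneg_left _ hθ0.le
    nlinarith
  have h4 : z * (θ * (θ / 13)) ≤ L * θ * θ := by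
    have : z * (θ * (θ / 13)) ≤ z * ((θ - A * Real.log x) ^ 2 - L * θ * Real.log N) :=
      mul_le_mul_of_nonneg_left (h3.trans h2) hz0.le
    nlinarith
  have h5 : z * (θ * θ) ≤ (13 * L) * (θ * θ) := by linarith
  exact le_of_mul_le_mul_right h5 (by positivity)

theorem card_DD {A x L e N : ℕ} (hx : 2 ≤ x) (hL : 200 * A ≤ L) (hL1 : 1 ≤ L) (hN : 1 ≤ N)
    (hNx : Real.log N ≤ 0.55 * Real.log x) :
    ((DD A x L e).card : ℝ) ≤ 13 * L * (x / N + 1) := by
  classical
  have h1 : (DD A x L e).card ≤ (13 * L) * ((DD A x L e).image (fun d => d / N)).card := by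
    apply card_le_mul_card_image
    intro w hw
    have h2 := card_window (A := A) (x := x) (L := L) (e := e) (N := N) (a := w * N) hx hL hL1 hN hNx
    have h3 : ((DD A x L e).filter (fun d => d / N = w)) ⊆
        ((DD A x L e).filter (fun d => w * N ≤ d ∧ d ≤ w * N + N)) := by
      intro d hd
      simp only [mem_filter] at hd ⊢
      refine ⟨hd.1, ?_⟩
      have h4 := Nat.div_add_mod d N
      have h5 := Nat.mod_lt d (by omega : N > 0)
      rw [hd.2, mul_comm] at h4
      omega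
    have h4 : (((DD A x L e).filter (fun d => d / N = w)).card : ℝ) ≤ ((13 * L : ℕ) : ℝ) := by
      push_cast
      refine le_trans ?_ h2
      exact_mod_cast card_le_card h3
    exact_mod_cast h4
  have h2 : (((DD A x L e).image (fun d => d / N)).card : ℝ) ≤ x / N + 1 := by
    have h3 : (DD A x L e).image (fun d => d / N) ⊆ range (x / N + 1) := by
      intro w hw
      obtain ⟨d, hd, rfl⟩ := mem_image.1 hw
      simp only [DD, mem_filter, mem_range] at hd
      rw [mem_range]
      have := Nat.div_le_div_right (c := N) (by omega : d ≤ x)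
      omega
    have h4 := card_le_card h3
    rw [card_range] at h4
    have h5 : (((x / N : ℕ) : ℝ)) ≤ (x : ℝ) / N := Nat.cast_div_le
    have h6 : (((DD A x L e).image (fun d => d / N)).card : ℝ) ≤ ((x / N : ℕ) : ℝ) + 1 := by
      exact_mod_cast h4
    linarith
  have h3 : ((DD A x L e).card : ℝ) ≤ 13 * L * (((DD A x L e).image (fun d => d / N)).card : ℝ) := by
    exact_mod_cast h1
  refine h3.trans ?_
  gcongr

theorem prime_count_small : ∃ L₁ : ℕ, ∀ L : ℕ, L₁ ≤ L →
    (((Ioc 0 L).filter Nat.Prime).card : ℝ) ≤ 0.02 * L := by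
  have h := Pool.Agent.H62.PNT.primeCounting_tendsto.eventually (gt_mem_nhds (show (1 : ℝ) < 2 by norm_num))
  have h2 := h.and ((Real.tendsto_log_atTop.eventually_ge_atTop 100).and
    (eventually_gt_atTop (0 : ℝ)))
  obtain ⟨Y, hY⟩ := h2.exists_forall_of_atTop
  refine ⟨⌈Y⌉₊, ?_⟩
  intro L hL
  have hL' : Y ≤ L := (Nat.le_ceil Y).trans (by exact_mod_cast hL)
  obtain ⟨h3, h4, h5⟩ := hY L hL'
  rw [Nat.floor_natCast] at h3
  have h6 : (((Ioc 0 L).filter Nat.Prime).card : ℝ) ≤ (Nat.primeCounting L : ℝ) := by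
    have : ((Ioc 0 L).filter Nat.Prime).card ≤ Nat.primeCounting L := by
      rw [Nat.primeCounting, Nat.primeCounting', Nat.count_eq_card_filter_range]
      apply card_le_card
      intro q hq
      simp only [mem_filter, mem_Ioc, mem_range] at hq ⊢
      exact ⟨by omega, hq.2⟩
    exact_mod_cast this
  refine h6.trans ?_
  rw [div_lt_iff₀ h5] at h3
  have h7 : (0 : ℝ) ≤ Nat.primeCounting L := by positivity
  have h8 : (Nat.primeCounting L : ℝ) * 100 ≤ (Nat.primeCounting L : ℝ) * Real.log L :=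
    mul_le_mul_of_nonneg_left h4 h7
  linarith

theorem wpart_pos (n : ℕ) : 0 < wpart n := by
  apply Finset.prod_pos
  intro q hq
  have := (Nat.prime_of_mem_primeFactors hq).pos
  positivity

/-- Proposition D -/
theorem propD (A : ℕ) : ∃ L₀ : ℕ, ∀ᶠ x : ℕ in atTop, ∀ B : Finset ℕ,
    (∀ m ∈ B, InM A x m ∧ ∃ b c d e, Rep m b c d e ∧ m - b < A ∧ L₀ ≤ c - d ∧
      ((c - d : ℕ) : ℝ) ≤ (x : ℝ) ^ (0.1 : ℝ)) → (B.card : ℝ) ≤ (x : ℝ) ^ (0.995 : ℝ) := by
  classical
  obtain ⟨L₁, hL₁⟩ := prime_count_small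
  obtain ⟨C₁, hC₁, hE⟩ := ebound
  refine ⟨max (200 * A) L₁ + 1, ?_⟩
  set L₀ := max (200 * A) L₁ + 1 with hL₀
  filter_upwards [matched, hE, eventually_ge_atTop 2, ev_le0 2 0.98 0.99 (by norm_num),
    ev_le0 8 1 1.98 (by norm_num), ev_le (C₁ * (A + 1)) 0.1 0.12 1 (by norm_num),
    ev_const_le 2 0.1 (by norm_num), ev_const_le 2 0.55 (by norm_num),
    ev_le0 156 0.87 0.98 (by norm_num), ev_le0 10 0.99 0.995 (by norm_num)]
    with x hmat hE hx2 hr1 hr2 hr3 hr4 hr5 hr6 hr7 B hB
  set X : ℝ := (x : ℝ) with hX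
  have hX2 : (2 : ℝ) ≤ X := by rw [hX]; exact_mod_cast hx2
  have hX0 : 0 < X := by linarith
  have hX1 : 1 ≤ X := by linarith
  have hlogx : 0 < Real.log X := Real.log_pos (by linarith)
  set y : ℝ := X ^ (0.12 : ℝ) with hy
  have hy1 : 1 ≤ y := Real.one_le_rpow hX1 (by norm_num)
  set Lam := ⌊X ^ (0.1 : ℝ)⌋₊ with hLam
  set E := ⌊X ^ (0.12 : ℝ)⌋₊ with hEdef
  set N := ⌊X ^ (0.55 : ℝ)⌋₊ with hN
  have hLam' : (Lam : ℝ) ≤ X ^ (0.1 : ℝ) := Nat.floor_le (by positivity)
  have hE' : (E : ℝ) ≤ X ^ (0.12 : ℝ) := Nat.floor_le (by positivity)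
  have hN' : (N : ℝ) ≤ X ^ (0.55 : ℝ) := Nat.floor_le (by positivity)
  have hNlow : X ^ (0.55 : ℝ) / 2 ≤ N := by
    have : X ^ (0.55 : ℝ) < N + 1 := Nat.lt_floor_add_one _
    linarith
  have hN1 : 1 ≤ N := by
    have : (1 : ℝ) ≤ N := by linarith
    exact_mod_cast this
  have hNlog : Real.log N ≤ 0.55 * Real.log X := by
    rw [← Real.log_rpow hX0]
    exact Real.log_le_log (by exact_mod_cast hN1) hN'
  set Z1 : Finset ℕ := (Icc 1 x).filter (fun n => (1 : ℝ) ≤
      (((SQ y x).filter (fun n' => n ≤ n' + Lam ∧ n' ≤ n + Lam)).card : ℝ)) with hZ1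
  set Z2 : Finset ℕ := ((range (Lam + 1)).filter (fun L => L₀ ≤ L)).biUnion fun L =>
      (range (E + 1)).biUnion fun e => image₂ (fun d i : ℕ => d + i) (DD A x L e) (Icc 1 L) with hZ2
  have c1 : (Z1.card : ℝ) ≤ 9 * X ^ (0.98 : ℝ) := by
    have h1 := near_count (SQ y x) x Lam 1
    have h2 := card_SQ y hy1 x
    rw [mul_one] at h1
    have h3 : (Z1.card : ℝ) ≤ (2 * Lam + 1) * ((SQ y x).card : ℝ) := h1
    have e1 : X / X ^ (0.12 : ℝ) = X ^ (0.88 : ℝ) := by
      nth_rewrite 1 [← Real.rpow_one X]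
      rw [← Real.rpow_sub hX0]; norm_num
    have h4 : ((SQ y x).card : ℝ) ≤ 3 * X ^ (0.88 : ℝ) := by
      rw [← e1, mul_div_assoc']
      exact h2
    have h5 : (2 * (Lam : ℝ) + 1) ≤ 3 * X ^ (0.1 : ℝ) := by linarith
    calc (Z1.card : ℝ) ≤ (2 * Lam + 1) * ((SQ y x).card : ℝ) := h3
      _ ≤ (3 * X ^ (0.1 : ℝ)) * (3 * X ^ (0.88 : ℝ)) := by gcongr
      _ = 9 * (X ^ (0.1 : ℝ) * X ^ (0.88 : ℝ)) := by ring
      _ = _ := by rw [← Real.rpow_add hX0]; norm_num
  have c2 : (Z2.card : ℝ) ≤ X ^ (0.98 : ℝ) := by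
    have hterm : ∀ L ∈ (range (Lam + 1)).filter (fun L => L₀ ≤ L), ∀ e : ℕ,
        ((image₂ (fun d i : ℕ => d + i) (DD A x L e) (Icc 1 L)).card : ℝ) ≤
          39 * X ^ (0.65 : ℝ) := by
      intro L hL e
      simp only [mem_filter, mem_range] at hL
      have hLA : 200 * A ≤ L := by
        have := le_max_left (200 * A) L₁
        omega
      have h1 := card_DD (A := A) (x := x) (L := L) (e := e) (N := N) hx2 hLA (by omega) hN1 hNlog
      have h2 : ((image₂ (fun d i : ℕ => d + i) (DD A x L e) (Icc 1 L)).card : ℝ) ≤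
          ((DD A x L e).card : ℝ) * L := by
        have := card_image₂_le (fun d i : ℕ => d + i) (DD A x L e) (Icc 1 L)
        rw [Nat.card_Icc, Nat.add_sub_cancel] at this
        exact_mod_cast this
      have hLX : (L : ℝ) ≤ X ^ (0.1 : ℝ) := by
        have : (L : ℝ) ≤ Lam := by exact_mod_cast (by omega : L ≤ Lam)
        linarith
      have e1 : X / X ^ (0.55 : ℝ) = X ^ (0.45 : ℝ) := by
        nth_rewrite 1 [← Real.rpow_one X]
        rw [← Real.rpow_sub hX0]; norm_num
      have h3 : X / N + 1 ≤ 3 * X ^ (0.45 : ℝ) := by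
        have g1 : X / N ≤ X / (X ^ (0.55 : ℝ) / 2) := by
          apply div_le_div_of_nonneg_left hX0.le (by positivity) hNlow
        have g2 : X / (X ^ (0.55 : ℝ) / 2) = 2 * X ^ (0.45 : ℝ) := by
          rw [← e1]; field_simp
        have g3 : 1 ≤ X ^ (0.45 : ℝ) := Real.one_le_rpow hX1 (by norm_num)
        linarith
      calc _ ≤ ((DD A x L e).card : ℝ) * L := h2
        _ ≤ (13 * L * (X / N + 1)) * L := by gcongr
        _ = 13 * (L * L) * (X / N + 1) := by ring
        _ ≤ 13 * (X ^ (0.1 : ℝ) * X ^ (0.1 : ℝ)) * (3 * X ^ (0.45 : ℝ)) := by gcongr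
        _ = 39 * (X ^ (0.1 : ℝ) * X ^ (0.1 : ℝ) * X ^ (0.45 : ℝ)) := by ring
        _ = _ := by rw [← Real.rpow_add hX0, ← Real.rpow_add hX0]; norm_num
    have h1 : (Z2.card : ℝ) ≤ ∑ L ∈ (range (Lam + 1)).filter (fun L => L₀ ≤ L),
        ∑ e ∈ range (E + 1),
          ((image₂ (fun d i : ℕ => d + i) (DD A x L e) (Icc 1 L)).card : ℝ) := by
      have g1 : Z2.card ≤ ∑ L ∈ (range (Lam + 1)).filter (fun L => L₀ ≤ L),
        ∑ e ∈ range (E + 1), (image₂ (fun d i : ℕ => d + i) (DD A x L e) (Icc 1 L)).card := by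
        refine card_biUnion_le.trans ?_
        apply Finset.sum_le_sum
        intro L _
        exact card_biUnion_le
      exact_mod_cast g1
    have h2 : ∑ L ∈ (range (Lam + 1)).filter (fun L => L₀ ≤ L), ∑ e ∈ range (E + 1),
          ((image₂ (fun d i : ℕ => d + i) (DD A x L e) (Icc 1 L)).card : ℝ) ≤
        ∑ L ∈ (range (Lam + 1)).filter (fun L => L₀ ≤ L), ∑ e ∈ range (E + 1),
          39 * X ^ (0.65 : ℝ) := by
      apply Finset.sum_le_sum
      intro L hL
      apply Finset.sum_le_sum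
      intro e _
      exact hterm L hL e
    have h3 : ∑ L ∈ (range (Lam + 1)).filter (fun L => L₀ ≤ L), ∑ e ∈ range (E + 1),
          39 * X ^ (0.65 : ℝ) ≤ (Lam + 1) * ((E + 1) * (39 * X ^ (0.65 : ℝ))) := by
      rw [Finset.sum_const, Finset.sum_const, card_range, nsmul_eq_mul, nsmul_eq_mul]
      have g1 : ((((range (Lam + 1)).filter (fun L => L₀ ≤ L)).card : ℕ) : ℝ) ≤ (Lam + 1 : ℝ) := by
        have := card_filter_le (range (Lam + 1)) (fun L => L₀ ≤ L)
        rw [card_range] at this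
        exact_mod_cast this
      push_cast
      apply mul_le_mul_of_nonneg_right g1 (by positivity)
    have h4 : ((Lam : ℝ) + 1) ≤ 2 * X ^ (0.1 : ℝ) := by linarith
    have h5 : ((E : ℝ) + 1) ≤ 2 * X ^ (0.12 : ℝ) := by linarith
    calc (Z2.card : ℝ) ≤ (Lam + 1) * ((E + 1) * (39 * X ^ (0.65 : ℝ))) := h1.trans (h2.trans h3)
      _ ≤ (2 * X ^ (0.1 : ℝ)) * ((2 * X ^ (0.12 : ℝ)) * (39 * X ^ (0.65 : ℝ))) := by gcongr
      _ = 156 * (X ^ (0.1 : ℝ) * X ^ (0.12 : ℝ) * X ^ (0.65 : ℝ)) := by ring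
      _ = 156 * X ^ (0.87 : ℝ) := by rw [← Real.rpow_add hX0, ← Real.rpow_add hX0]; norm_num
      _ ≤ _ := hr6
  -- the counting lemma
  have hcount := count_le (x := x) B ((Z1 ∪ Z2).filter (fun n => n ≤ x ∧ n ≠ 0))
    (fun n hn => (mem_filter.1 hn).2) (by
    intro m hm
    obtain ⟨hInM, b, c, d, e, hrep, hK, hL0, hLx⟩ := hB m hm
    obtain ⟨h1, h2, k, p, rfl, hp, hg, hk2, hk100⟩ := hInM
    obtain ⟨r1, r2, r3, r4, -⟩ := id hrep
    obtain ⟨j, hj1, hj2, hj3, hpK, hpL, hpe⟩ :=
      hmat _ b c d e k p h1 h2 hrep hp hk100 (by simp only [mem_Ioc]; omega) h1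
    have hp99 := p_ge_rpow (by omega) hk100 h1
    refine ⟨k, p, j, rfl, hp, ?_, by omega, hk100, ?_⟩
    · have g1 : (X ^ (0.99 : ℝ)) ^ 2 ≤ (2 * (p : ℝ)) ^ 2 :=
        pow_le_pow_left₀ (by positivity) hp99 2
      have g2 : (X ^ (0.99 : ℝ)) ^ 2 = X ^ (1.98 : ℝ) := by
        rw [← Real.rpow_natCast, ← Real.rpow_mul hX0.le]; norm_num
      rw [Real.rpow_one] at hr2
      have g3 : (x : ℝ) < (p : ℝ) ^ 2 := by
        rw [g2] at g1
        nlinarith
      exact_mod_cast g3
    have hj2' := hj2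
    rw [mem_Ioc] at hj2'
    have hjx : j * p ≤ x := by omega
    have hj0 : j * p ≠ 0 := by omega
    rw [mem_filter]
    refine ⟨?_, hjx, hj0⟩
    rw [mem_union]
    set L := c - d with hL
    have hLLam : L ≤ Lam := Nat.le_floor hLx
    by_cases hsq : ∃ n' ∈ Ioc d c, n' ∈ SQ y x
    · left
      obtain ⟨n', hn', hn'SQ⟩ := hsq
      rw [mem_Ioc] at hn'
      rw [hZ1, mem_filter, mem_Icc]
      refine ⟨⟨by omega, hjx⟩, ?_⟩
      have : 0 < ((SQ y x).filter (fun n' => j * p ≤ n' + Lam ∧ n' ≤ j * p + Lam)).card := by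
        apply Finset.card_pos.2
        refine ⟨n', ?_⟩
        rw [mem_filter]
        exact ⟨hn'SQ, by omega, by omega⟩
      exact_mod_cast this
    · right
      have hwt : ∀ n ∈ Ioc d c, Real.log (wpart n) ≤ 0.12 * Real.log X := by
        intro n hn
        have hn' := hn
        rw [mem_Ioc] at hn'
        have hlt : (wpart n : ℝ) < y := by
          by_contra hcon
          push Not at hcon
          apply hsq
          refine ⟨n, hn, ?_⟩
          rw [SQ, mem_filter, mem_Icc]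
          exact ⟨⟨by omega, by omega⟩, wpart n, hcon, wpart_sq_dvd (by omega)⟩
        rw [← Real.log_rpow hX0]
        exact Real.log_le_log (by exact_mod_cast wpart_pos n) hlt.le
      have hmass := odd_mass hrep h2 (by omega : d < c) _ hwt
      rw [← hL] at hmass
      have hL1 : 1 ≤ L := by omega
      have hLr : (0 : ℝ) < L := by exact_mod_cast hL1
      have hLA : 200 * A ≤ L := by
        have := le_max_left (200 * A) L₁
        omega
      have hLL1 : L₁ ≤ L := by
        have := le_max_right (200 * A) L₁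
        omega
      have hpi := hL₁ L hLL1
      have hclog : 0.88 * Real.log X ≤ Real.log (c / (L : ℝ)) := by
        rw [← Real.log_rpow hX0]
        apply Real.log_le_log (by positivity)
        rw [le_div_iff₀ hLr]
        have g1 : (p : ℝ) ≤ c := by
          have : p ≤ j * p := Nat.le_mul_of_pos_left _ hj1
          exact_mod_cast (by omega : p ≤ c)
        calc X ^ (0.88 : ℝ) * L ≤ X ^ (0.88 : ℝ) * X ^ (0.1 : ℝ) := by gcongr
          _ = X ^ (0.98 : ℝ) := by rw [← Real.rpow_add hX0]; norm_num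
          _ ≤ c := by linarith
      have hth : 0.61 * (L : ℝ) * Real.log X ≤ ∑ q ∈ PP L e, Real.log q := by
        have g1 : (L : ℝ) * (0.88 * Real.log X) ≤ (L : ℝ) * Real.log (c / (L : ℝ)) :=
          mul_le_mul_of_nonneg_left hclog hLr.le
        have g2 : (((Ioc 0 L).filter Nat.Prime).card : ℝ) * Real.log X ≤
            (0.02 * L) * Real.log X := mul_le_mul_of_nonneg_right hpi hlogx.le
        have g3 : ((k * p - b : ℕ) : ℝ) * Real.log X ≤ (0.005 * L) * Real.log X := by
          apply mul_le_mul_of_nonneg_right _ hlogx.le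
          have g4 : ((k * p - b : ℕ) : ℝ) ≤ A := by exact_mod_cast hK.le
          have g5 : (200 : ℝ) * A ≤ L := by exact_mod_cast hLA
          linarith
        have g6 : 0 < (L : ℝ) * Real.log X := by positivity
        linarith
      rw [hZ2, mem_biUnion]
      refine ⟨L, ?_, ?_⟩
      · rw [mem_filter, mem_range]
        exact ⟨by omega, hL0⟩
      rw [mem_biUnion]
      refine ⟨e, ?_, ?_⟩
      · rw [mem_range]
        have he := hE _ b c d e h2 hrep
        have : e ≤ E := by
          apply Nat.le_floor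
          refine he.trans ?_
          have g1 : 1 ≤ X ^ (0.1 : ℝ) := Real.one_le_rpow hX1 (by norm_num)
          have g2 : ((k * p - b : ℕ) : ℝ) + ((c - d : ℕ) : ℝ) ≤ (A + 1) * X ^ (0.1 : ℝ) := by
            have g4 : ((k * p - b : ℕ) : ℝ) ≤ A := by exact_mod_cast hK.le
            have g5 : (A : ℝ) ≤ A * X ^ (0.1 : ℝ) := le_mul_of_one_le_right (by positivity) g1
            linarith
          calc C₁ * (((k * p - b : ℕ) : ℝ) + ((c - d : ℕ) : ℝ)) * Real.log X
              ≤ C₁ * ((A + 1) * X ^ (0.1 : ℝ)) * Real.log X := by gcongr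
            _ = C₁ * (A + 1) * X ^ (0.1 : ℝ) * Real.log X ^ 1 := by ring
            _ ≤ _ := hr3
        omega
      rw [mem_image₂]
      refine ⟨d, ?_, j * p - d, ?_, by omega⟩
      · rw [DD, mem_filter, mem_range]
        refine ⟨by omega, hth, ?_⟩
        have g1 := hit_mass hrep h2
        rw [← hL] at g1
        have g2 : ((k * p - b : ℕ) : ℝ) * Real.log X ≤ (A : ℝ) * Real.log X := by
          apply mul_le_mul_of_nonneg_right _ hlogx.le
          exact_mod_cast hK.le
        refine le_trans ?_ g1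
        linarith
      · rw [mem_Icc]; omega)
  have hZcard : ((((Z1 ∪ Z2).filter (fun n => n ≤ x ∧ n ≠ 0)).card : ℕ) : ℝ) ≤
      10 * X ^ (0.98 : ℝ) := by
    have g1 : ((Z1 ∪ Z2).filter (fun n => n ≤ x ∧ n ≠ 0)).card ≤ Z1.card + Z2.card :=
      (card_filter_le _ _).trans (card_union_le _ _)
    have g2 : ((((Z1 ∪ Z2).filter (fun n => n ≤ x ∧ n ≠ 0)).card : ℕ) : ℝ) ≤
        (Z1.card : ℝ) + Z2.card := by exact_mod_cast g1
    linarith
  calc (B.card : ℝ) ≤ X ^ (0.01 : ℝ) *
        ((((Z1 ∪ Z2).filter (fun n => n ≤ x ∧ n ≠ 0)).card : ℕ) : ℝ) := hcount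
    _ ≤ X ^ (0.01 : ℝ) * (10 * X ^ (0.98 : ℝ)) := by gcongr
    _ = 10 * (X ^ (0.01 : ℝ) * X ^ (0.98 : ℝ)) := by ring
    _ = 10 * X ^ (0.99 : ℝ) := by rw [← Real.rpow_add hX0]; norm_num
    _ ≤ _ := hr7

end D6
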