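import Mathlib

/-! Tool T3 for MP_70e45f_nt: trigonometric variance bound. -/

open Finset Real

namespace Pool.Agent.H86.D6

theorem cos_sum_bound (θ : ℝ) (h0 : 0 < θ) (h1 : θ ≤ 1 / 2) (N : ℕ) :
    |∑ n ∈ Finset.range (N + 1), Real.cos (2 * π * (n * θ))| ≤ 1 / (2 * θ) := by
  have hs : 2 * θ ≤ Real.sin (π * θ) := by
    have := Real.mul_le_sin (x := π * θ) (by positivity) (by nlinarith [Real.pi_pos])
    calc 2 * θ = 2 / π * (π * θ) := by field_simp
      _ ≤ _ := this
  have key : ∀ M : ℕ, 2 * Real.sin (π * θ) * ∑ n ∈ Finset.range (M + 1), Real.cos (2 * π * (n * θ)) =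
      Real.sin ((2 * M + 1) * (π * θ)) + Real.sin (π * θ) := by
    intro M
    induction M with
    | zero => simp; ring
    | succ M ih =>
      rw [Finset.sum_range_succ, mul_add, ih]
      have e1 : 2 * Real.sin (π * θ) * Real.cos (2 * π * ((M + 1 : ℕ) * θ)) =
          Real.sin ((2 * (M + 1 : ℕ) + 1) * (π * θ)) - Real.sin ((2 * M + 1) * (π * θ)) := by
        have a1 : (2 * ((M + 1 : ℕ) : ℝ) + 1) * (π * θ) = 2 * π * ((M + 1 : ℕ) * θ) + π * θ := by ring
        have a2 : (2 * (M : ℝ) + 1) * (π * θ) = 2 * π * ((M + 1 : ℕ) * θ) - π * θ := by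
          push_cast; ring
        rw [a1, a2, Real.sin_add, Real.sin_sub]
        ring
      rw [e1]
      ring
  have h2 := key N
  have hpos : 0 < Real.sin (π * θ) := by linarith
  have h3 : |2 * Real.sin (π * θ) * ∑ n ∈ Finset.range (N + 1), Real.cos (2 * π * (n * θ))| ≤ 2 := by
    rw [h2]
    have b1 := Real.abs_sin_le_one ((2 * N + 1) * (π * θ))
    have b2 := Real.abs_sin_le_one (π * θ)
    calc _ ≤ |Real.sin ((2 * N + 1) * (π * θ))| + |Real.sin (π * θ)| := abs_add_le _ _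
      _ ≤ 2 := by linarith
  rw [abs_mul, abs_of_pos (by positivity : 0 < 2 * Real.sin (π * θ))] at h3
  rw [le_div_iff₀ (by positivity)]
  have h4 : 0 ≤ |∑ n ∈ Finset.range (N + 1), Real.cos (2 * π * (n * θ))| := abs_nonneg _
  nlinarith

/-- `∑_{q' ∈ P, q' ≠ q} 1/|q - q'| ≤ 2 (1 + log E)`. -/
theorem sum_inv_dist (E : ℕ) (P : Finset ℕ) (hP : ∀ q ∈ P, 0 < q ∧ q ≤ E) (q : ℕ) (hq : q ∈ P) :
    ∑ q' ∈ P.filter (· ≠ q), 1 / |(q : ℝ) - q'| ≤ 2 * (1 + Real.log E) := by
  have hE : 1 ≤ E := (hP q hq).1.trans_le (hP q hq).2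
  have hharm : ∑ t ∈ Finset.Icc 1 E, 1 / (t : ℝ) ≤ 1 + Real.log E := by
    have := harmonic_le_one_add_log E
    rw [harmonic_eq_sum_Icc] at this
    push_cast at this
    simpa [one_div] using this
  have h1 : P.filter (· ≠ q) = P.filter (· < q) ∪ P.filter (q < ·) := by
    ext a
    simp only [Finset.mem_filter, Finset.mem_union]
    constructor
    · rintro ⟨ha, hne⟩
      rcases lt_or_gt_of_ne hne with h | h
      · left; exact ⟨ha, h⟩
      · right; exact ⟨ha, h⟩
    · rintro (⟨ha, h⟩ | ⟨ha, h⟩)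
      · exact ⟨ha, h.ne⟩
      · exact ⟨ha, h.ne'⟩
  have h2 : Disjoint (P.filter (· < q)) (P.filter (q < ·)) := by
    rw [Finset.disjoint_left]
    intro a ha hb
    have := (Finset.mem_filter.1 ha).2
    have := (Finset.mem_filter.1 hb).2
    omega
  rw [h1, Finset.sum_union h2]
  have h3 : ∑ q' ∈ P.filter (· < q), 1 / |(q : ℝ) - q'| ≤ ∑ t ∈ Finset.Icc 1 E, 1 / (t : ℝ) := by
    have e : ∑ q' ∈ P.filter (· < q), 1 / |(q : ℝ) - q'| =
        ∑ t ∈ (P.filter (· < q)).image (fun q' => q - q'), 1 / (t : ℝ) := by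
      rw [Finset.sum_image]
      · refine Finset.sum_congr rfl fun a ha => ?_
        have ha' := (Finset.mem_filter.1 ha).2
        have : ((q - a : ℕ) : ℝ) = (q : ℝ) - a := by
          rw [Nat.cast_sub ha'.le]
        rw [this, abs_of_pos]
        have : (a : ℝ) < q := by exact_mod_cast ha'
        linarith
      · intro a ha b hb hab
        have ha' := (Finset.mem_filter.1 (Finset.mem_coe.1 ha)).2
        have hb' := (Finset.mem_filter.1 (Finset.mem_coe.1 hb)).2
        simp only at hab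
        omega
    rw [e]
    apply Finset.sum_le_sum_of_subset_of_nonneg
    · intro t ht
      obtain ⟨a, ha, rfl⟩ := Finset.mem_image.1 ht
      have ha' := (Finset.mem_filter.1 ha).2
      have := (hP q hq).2
      rw [Finset.mem_Icc]; omega
    · intros; positivity
  have h4 : ∑ q' ∈ P.filter (q < ·), 1 / |(q : ℝ) - q'| ≤ ∑ t ∈ Finset.Icc 1 E, 1 / (t : ℝ) := by
    have e : ∑ q' ∈ P.filter (q < ·), 1 / |(q : ℝ) - q'| =
        ∑ t ∈ (P.filter (q < ·)).image (fun q' => q' - q), 1 / (t : ℝ) := by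
      rw [Finset.sum_image]
      · refine Finset.sum_congr rfl fun a ha => ?_
        have ha' := (Finset.mem_filter.1 ha).2
        have : ((a - q : ℕ) : ℝ) = (a : ℝ) - q := by
          rw [Nat.cast_sub ha'.le]
        rw [this, abs_sub_comm, abs_of_pos]
        have : (q : ℝ) < a := by exact_mod_cast ha'
        linarith
      · intro a ha b hb hab
        have ha' := (Finset.mem_filter.1 (Finset.mem_coe.1 ha)).2
        have hb' := (Finset.mem_filter.1 (Finset.mem_coe.1 hb)).2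
        simp only at hab
        omega
    rw [e]
    apply Finset.sum_le_sum_of_subset_of_nonneg
    · intro t ht
      obtain ⟨a, ha, rfl⟩ := Finset.mem_image.1 ht
      have ha' := (Finset.mem_filter.1 ha).2
      have ha2 := (hP a (Finset.mem_filter.1 ha).1).2
      have := (hP q hq).1
      rw [Finset.mem_Icc]; omega
    · intros; positivity
  linarith

theorem A_bound (x E : ℕ) (P : Finset ℕ) (hE : 100 ≤ E) (hP : ∀ q ∈ P, E < 2 * q ∧ q ≤ E)
    (h : ℕ) (hh : h = 1 ∨ h = 2) :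
    ∑ n ∈ Finset.range (x + 1), (∑ q ∈ P, Real.cos (2 * π * (n * (h / q : ℝ)))) ^ 2 ≤
      P.card * (x + 1) + P.card * (E : ℝ) ^ 2 * (1 + Real.log E) := by
  have hE' : (100 : ℝ) ≤ E := by exact_mod_cast hE
  have hh1 : (1 : ℝ) ≤ h := by rcases hh with rfl | rfl <;> norm_num
  have hh2 : (h : ℝ) ≤ 2 := by rcases hh with rfl | rfl <;> norm_num
  have hlogE : 0 ≤ Real.log E := Real.log_natCast_nonneg E
  let Sg : ℝ → ℝ := fun θ => ∑ n ∈ Finset.range (x + 1), Real.cos (2 * π * (n * θ))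
  have h1 : ∑ n ∈ Finset.range (x + 1), (∑ q ∈ P, Real.cos (2 * π * (n * (h / q : ℝ)))) ^ 2 =
      ∑ q ∈ P, ∑ q' ∈ P, (Sg (h / q + h / q') + Sg (h / q - h / q')) / 2 := by
    have : ∀ n ∈ Finset.range (x + 1), (∑ q ∈ P, Real.cos (2 * π * (n * (h / q : ℝ)))) ^ 2 =
        ∑ q ∈ P, ∑ q' ∈ P, (Real.cos (2 * π * (n * (h / q + h / q' : ℝ))) +
          Real.cos (2 * π * (n * (h / q - h / q' : ℝ)))) / 2 := by
      intro n _
      rw [sq, Finset.sum_mul_sum]
      refine Finset.sum_congr rfl fun q _ => Finset.sum_congr rfl fun q' _ => ?_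
      have e1 : 2 * π * (n * (h / q + h / q' : ℝ)) = 2 * π * (n * (h / q : ℝ)) + 2 * π * (n * (h / q' : ℝ)) := by
        ring
      have e2 : 2 * π * (n * (h / q - h / q' : ℝ)) = 2 * π * (n * (h / q : ℝ)) - 2 * π * (n * (h / q' : ℝ)) := by
        ring
      rw [e1, e2, Real.cos_add, Real.cos_sub]
      ring
    rw [Finset.sum_congr rfl this, Finset.sum_comm]
    refine Finset.sum_congr rfl fun q _ => ?_
    rw [Finset.sum_comm]
    refine Finset.sum_congr rfl fun q' _ => ?_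
    rw [← Finset.sum_div, Finset.sum_add_distrib]
  have htriv : ∀ θ, Sg θ ≤ x + 1 := by
    intro θ
    calc Sg θ ≤ ∑ n ∈ Finset.range (x + 1), (1 : ℝ) := Finset.sum_le_sum fun n _ => Real.cos_le_one _
      _ = x + 1 := by simp
  have hneg : ∀ θ, Sg (-θ) = Sg θ := by
    intro θ
    refine Finset.sum_congr rfl fun n _ => ?_
    rw [← Real.cos_neg]
    congr 1; ring
  have hoff : ∀ q ∈ P, ∀ q' ∈ P, q' ≠ q →
      (Sg (h / q + h / q') + Sg (h / q - h / q')) / 2 ≤ (E : ℝ) ^ 2 / 2 * (1 / |(q : ℝ) - q'|) := by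
    intro q hq q' hq' hne
    have b1 := hP q hq
    have b2 := hP q' hq'
    have c1 : (E : ℝ) < 2 * q := by exact_mod_cast b1.1
    have c2 : (E : ℝ) < 2 * q' := by exact_mod_cast b2.1
    have c3 : (q : ℝ) ≤ E := by exact_mod_cast b1.2
    have c4 : (q' : ℝ) ≤ E := by exact_mod_cast b2.2
    have q0 : (0 : ℝ) < q := by linarith
    have q0' : (0 : ℝ) < q' := by linarith
    have hd : 0 < |(q : ℝ) - q'| := by
      rw [abs_pos, sub_ne_zero]
      exact_mod_cast hne.symm
    have hdle : |(q : ℝ) - q'| ≤ q + q' := by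
      rw [abs_le]; constructor <;> linarith
    have hqq : (E : ℝ) ^ 2 / 4 ≤ q * q' := by nlinarith
    have hqq2 : (q : ℝ) * q' ≤ E ^ 2 := by nlinarith
    -- plus
    have p1 : |Sg (h / q + h / q')| ≤ (E : ℝ) ^ 2 / 2 * (1 / |(q : ℝ) - q'|) := by
      have e : (h / q + h / q' : ℝ) = h * (q + q') / (q * q') := by field_simp; ring
      have t0 : 0 < (h / q + h / q' : ℝ) := by positivity
      have t1 : (h / q + h / q' : ℝ) ≤ 1 / 2 := by
        rw [e, div_le_iff₀ (by positivity)]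
        nlinarith
      refine (cos_sum_bound _ t0 t1 x).trans ?_
      rw [e]
      calc 1 / (2 * ((h : ℝ) * (q + q') / (q * q'))) = (q * q') / (2 * (h * (q + q'))) := by
            field_simp
        _ ≤ E ^ 2 / (2 * (1 * |(q : ℝ) - q'|)) := by gcongr
        _ = (E : ℝ) ^ 2 / 2 * (1 / |(q : ℝ) - q'|) := by field_simp
    have p2 : |Sg (h / q - h / q')| ≤ (E : ℝ) ^ 2 / 2 * (1 / |(q : ℝ) - q'|) := by
      have e : Sg (h / q - h / q') = Sg (|(h / q - h / q' : ℝ)|) := by
        rcases abs_choice (h / q - h / q' : ℝ) with h | h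
        · rw [h]
        · rw [h, hneg]
      have e' : |(h / q - h / q' : ℝ)| = h * |(q : ℝ) - q'| / (q * q') := by
        have : (h / q - h / q' : ℝ) = h * (-((q : ℝ) - q')) / (q * q') := by field_simp; ring
        rw [this, abs_div, abs_mul, abs_neg, abs_of_pos (by positivity : (0 : ℝ) < h),
          abs_of_pos (by positivity : (0 : ℝ) < q * q')]
      have t0 : 0 < |(h / q - h / q' : ℝ)| := by rw [e']; positivity
      have t1 : |(h / q - h / q' : ℝ)| ≤ 1 / 2 := by
        rw [e', div_le_iff₀ (by positivity)]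
        nlinarith
      rw [e]
      refine (cos_sum_bound _ t0 t1 x).trans ?_
      rw [e']
      calc 1 / (2 * ((h : ℝ) * |(q : ℝ) - q'| / (q * q'))) = (q * q') / (2 * (h * |(q : ℝ) - q'|)) := by
            field_simp
        _ ≤ E ^ 2 / (2 * (1 * |(q : ℝ) - q'|)) := by gcongr
        _ = (E : ℝ) ^ 2 / 2 * (1 / |(q : ℝ) - q'|) := by field_simp
    have := le_abs_self (Sg (h / q + h / q'))
    have := le_abs_self (Sg (h / q - h / q'))
    linarith
  rw [h1]
  have h2 : ∀ q ∈ P, ∑ q' ∈ P, (Sg (h / q + h / q') + Sg (h / q - h / q')) / 2 ≤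
      (x + 1) + (E : ℝ) ^ 2 * (1 + Real.log E) := by
    intro q hq
    rw [← Finset.sum_filter_add_sum_filter_not P (· = q)]
    have a1 : ∑ q' ∈ P.filter (· = q), (Sg (h / q + h / q') + Sg (h / q - h / q')) / 2 ≤ x + 1 := by
      have : P.filter (· = q) = {q} := by
        ext a; simp only [Finset.mem_filter, Finset.mem_singleton]
        constructor
        · rintro ⟨-, h⟩; exact h
        · rintro rfl; exact ⟨hq, rfl⟩
      rw [this, Finset.sum_singleton]
      have := htriv (h / q + h / q)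
      have := htriv (h / q - h / q)
      linarith
    have a2 : ∑ q' ∈ P.filter (fun a => ¬ a = q), (Sg (h / q + h / q') + Sg (h / q - h / q')) / 2 ≤
        (E : ℝ) ^ 2 * (1 + Real.log E) := by
      calc _ ≤ ∑ q' ∈ P.filter (fun a => ¬ a = q), (E : ℝ) ^ 2 / 2 * (1 / |(q : ℝ) - q'|) := by
            refine Finset.sum_le_sum fun q' hq' => ?_
            have := Finset.mem_filter.1 hq'
            exact hoff q hq q' this.1 this.2
        _ = (E : ℝ) ^ 2 / 2 * ∑ q' ∈ P.filter (· ≠ q), 1 / |(q : ℝ) - q'| := by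
            rw [Finset.mul_sum]
        _ ≤ (E : ℝ) ^ 2 / 2 * (2 * (1 + Real.log E)) := by
            have := sum_inv_dist E P (fun a ha => ⟨by have := (hP a ha).1; omega, (hP a ha).2⟩) q hq
            gcongr
        _ = _ := by ring
    linarith
  calc _ ≤ ∑ q ∈ P, ((x + 1) + (E : ℝ) ^ 2 * (1 + Real.log E)) := Finset.sum_le_sum h2
    _ = _ := by rw [Finset.sum_const, nsmul_eq_mul]; ring

open Classical in
/-- T3: trigonometric variance bound -/
theorem trig_variance :
    ∃ C : ℝ, 0 < C ∧ ∀ (x E Λ : ℕ) (P Z : Finset ℕ),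
      100 ≤ E → 1000 * Λ ≤ E → 1 ≤ x →
      (∀ q ∈ P, q.Prime ∧ E < 2 * q ∧ q ≤ E) →
      (∀ n ∈ Z, n ≤ x) →
      (∀ n ∈ Z, P.card ≤
        2 * (P.filter (fun q : ℕ => ∃ a : ℤ, |(n : ℤ) - a * (q : ℤ)| ≤ (Λ : ℤ))).card) →
      (Z.card : ℝ) * (P.card : ℝ) ^ 2 ≤
        C * ((x : ℝ) * P.card + (E : ℝ) ^ 3 * (1 + Real.log E)) := by
  refine ⟨80, by norm_num, ?_⟩
  intro x E Λ P Z hE hΛ hx hP hZ hhit
  have hE' : (100 : ℝ) ≤ E := by exact_mod_cast hE
  have hlogE : 0 ≤ Real.log E := Real.log_natCast_nonneg E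
  let A : ℕ → ℕ → ℝ := fun h n => ∑ q ∈ P, Real.cos (2 * π * (n * ((h : ℝ) / q)))
  -- pointwise lower bound
  have hlow : ∀ n ∈ Z, (P.card : ℝ) ≤ 4 * A 1 n + 2 * A 2 n := by
    intro n hn
    let F : ℕ → ℝ := fun q => (1 + 2 * Real.cos (2 * π * (n * (1 / (q : ℝ))))) ^ 2
    have hF : 4 * A 1 n + 2 * A 2 n = ∑ q ∈ P, F q - 3 * P.card := by
      have e : ∀ q ∈ P, F q = 3 + (4 * Real.cos (2 * π * (n * ((1 : ℕ) / (q : ℝ)))) +
          2 * Real.cos (2 * π * (n * ((2 : ℕ) / (q : ℝ))))) := by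
        intro q _
        have e1 : 2 * π * (n * ((2 : ℕ) / (q : ℝ))) = 2 * (2 * π * (n * (1 / (q : ℝ)))) := by
          push_cast; ring
        rw [e1, Real.cos_two_mul]
        simp only [F]
        push_cast
        ring
      rw [Finset.sum_congr rfl e, Finset.sum_add_distrib, Finset.sum_add_distrib, Finset.sum_const,
        ← Finset.mul_sum, ← Finset.mul_sum, nsmul_eq_mul]
      simp only [A]
      ring
    rw [hF]
    set H := P.filter (fun q : ℕ => ∃ a : ℤ, |(n : ℤ) - a * (q : ℤ)| ≤ (Λ : ℤ)) with hH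
    have hge : ∀ q ∈ H, (8.5 : ℝ) ≤ F q := by
      intro q hq
      obtain ⟨hqP, a, ha⟩ := Finset.mem_filter.1 hq
      have b1 := hP q hqP
      have q0 : (0 : ℝ) < q := by exact_mod_cast b1.1.pos
      -- r = (n - a q)/q
      have ha' : |(n : ℝ) - a * q| ≤ Λ := by exact_mod_cast ha
      have hΛq : (500 : ℝ) * Λ ≤ q := by
        have h1 : (1000 : ℝ) * Λ ≤ E := by exact_mod_cast hΛ
        have h2 : (E : ℝ) < 2 * q := by exact_mod_cast b1.2.1
        linarith
      set r : ℝ := ((n : ℝ) - a * q) / q with hr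
      have hr1 : |r| ≤ 1 / 500 := by
        rw [hr, abs_div, abs_of_pos q0, div_le_iff₀ q0]
        linarith
      have ecos : Real.cos (2 * π * (n * (1 / (q : ℝ)))) = Real.cos (2 * π * r) := by
        have : 2 * π * (n * (1 / (q : ℝ))) = 2 * π * r + a * (2 * π) := by
          rw [hr]; field_simp; ring
        rw [this, Real.cos_add_int_mul_two_pi]
      have hcos : (0.99 : ℝ) ≤ Real.cos (2 * π * r) := by
        have h1 := Real.one_sub_sq_div_two_le_cos (x := 2 * π * r)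
        have h2 : (2 * π * r) ^ 2 ≤ 0.02 := by
          have hpi : π ≤ 4 := Real.pi_le_four
          have hpi0 := Real.pi_pos
          have hr2 : r ^ 2 ≤ (1 / 500) ^ 2 := by
            rw [← sq_abs r]
            gcongr
          calc (2 * π * r) ^ 2 = 4 * π ^ 2 * r ^ 2 := by ring
            _ ≤ 4 * 4 ^ 2 * (1 / 500) ^ 2 := by gcongr
            _ ≤ 0.02 := by norm_num
        linarith
      simp only [F]
      rw [ecos]
      nlinarith
    have hsum : (8.5 : ℝ) * H.card ≤ ∑ q ∈ P, F q := by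
      calc (8.5 : ℝ) * H.card = ∑ q ∈ H, (8.5 : ℝ) := by rw [Finset.sum_const, nsmul_eq_mul]; ring
        _ ≤ ∑ q ∈ H, F q := Finset.sum_le_sum hge
        _ ≤ ∑ q ∈ P, F q := by
            apply Finset.sum_le_sum_of_subset_of_nonneg (Finset.filter_subset _ _)
            intro q _ _
            exact sq_nonneg _
    have hc : (P.card : ℝ) ≤ 2 * H.card := by exact_mod_cast hhit n hn
    have h0 : (0 : ℝ) ≤ P.card := by positivity
    linarith
  have h1 : (Z.card : ℝ) * (P.card : ℝ) ^ 2 ≤ ∑ n ∈ Z, (32 * A 1 n ^ 2 + 8 * A 2 n ^ 2) := by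
    rw [← nsmul_eq_mul, ← Finset.sum_const]
    refine Finset.sum_le_sum fun n hn => ?_
    have h2 := hlow n hn
    have h0 : (0 : ℝ) ≤ P.card := by positivity
    calc (P.card : ℝ) ^ 2 ≤ (4 * A 1 n + 2 * A 2 n) ^ 2 := by gcongr
      _ ≤ 32 * A 1 n ^ 2 + 8 * A 2 n ^ 2 := by nlinarith [sq_nonneg (4 * A 1 n - 2 * A 2 n)]
  have h2 : ∑ n ∈ Z, (32 * A 1 n ^ 2 + 8 * A 2 n ^ 2) ≤
      ∑ n ∈ Finset.range (x + 1), (32 * A 1 n ^ 2 + 8 * A 2 n ^ 2) := by
    apply Finset.sum_le_sum_of_subset_of_nonneg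
    · intro n hn
      have := hZ n hn
      rw [Finset.mem_range]; omega
    · intros; positivity
  have hPE : ∀ q ∈ P, E < 2 * q ∧ q ≤ E := fun q hq => (hP q hq).2
  have b1 := A_bound x E P hE hPE 1 (Or.inl rfl)
  have b2 := A_bound x E P hE hPE 2 (Or.inr rfl)
  have h3 : ∑ n ∈ Finset.range (x + 1), (32 * A 1 n ^ 2 + 8 * A 2 n ^ 2) ≤
      40 * (P.card * (x + 1) + P.card * (E : ℝ) ^ 2 * (1 + Real.log E)) := by
    rw [Finset.sum_add_distrib, ← Finset.mul_sum, ← Finset.mul_sum]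
    simp only [A]
    linarith
  have hcardE : (P.card : ℝ) ≤ E := by
    have : P ⊆ Finset.Icc 1 E := by
      intro q hq
      rw [Finset.mem_Icc]
      exact ⟨(hP q hq).1.one_le, (hP q hq).2.2⟩
    have := Finset.card_le_card this
    rw [Nat.card_Icc] at this
    exact_mod_cast this
  have h4 : (P.card : ℝ) * (E : ℝ) ^ 2 * (1 + Real.log E) ≤ (E : ℝ) ^ 3 * (1 + Real.log E) := by
    have : (P.card : ℝ) * (E : ℝ) ^ 2 ≤ (E : ℝ) ^ 3 := by
      calc (P.card : ℝ) * (E : ℝ) ^ 2 ≤ E * E ^ 2 := by gcongr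
        _ = _ := by ring
    gcongr
  have hx' : (1 : ℝ) ≤ x := by exact_mod_cast hx
  have h5 : (P.card : ℝ) * (x + 1) ≤ 2 * (x * P.card) := by
    have h0 : (0 : ℝ) ≤ P.card := by positivity
    nlinarith
  have h6 : 0 ≤ (E : ℝ) ^ 3 * (1 + Real.log E) := by positivity
  linarith

end Pool.Agent.H86.D6
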